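import Pool.Agent.Lib.MP_0e31aa_co.HH.Defs
import Pool.Agent.Lib.MP_0e31aa_co.TC.Classes
import Pool.Agent.Lib.MP_c5b475_co.Rooted

/-!
Module LemS (60 min): LEMMA S. If `a + b ≤ |P| - 1` and `|P| ≤ |Pᶜ|` then the tree `T` has an
independent set with `a` vertices in `P` and `b` vertices outside `P`.

Proof. For `S ⊆ P` let `E S` be the number of `w ∉ P` all of whose neighbours are in `S` (enclosed).
Claim: for every `s ≤ |P|`, `s ≥ 1`, there is `S ⊆ P` with `|S| = s` and `E S ≥ s - 1` (`|E| + 1 ≥ s`). Induction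
downwards from `S = P`, where `E P = |Pᶜ| ≥ |P|`. Let `|S| = s ≥ 2`, `E S = e ≥ s - 1`. The edges of `T`
between `S` and the enclosed vertices form a forest: at most `s + e - 1` edges. If every `x ∈ S` had
more than `e - s + 2` enclosed neighbours there would be at least `s (e - s + 3)` edges, and
`s (e - s + 3) > s + e - 1` (put `e = s + D`, `D ≥ -1`: `s (D + 3) > 2 s + D - 1`). So some `x ∈ S` has at
most `e - s + 2` enclosed neighbours; `S \ {x}` has at least `e - (e - s + 2) = s - 2` enclosed vertices.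
Now take `s = |P| - a ≥ 1`, `A = P \ S`, `B` = `b ≤ s - 1` vertices enclosed by `S`. (For `a + b + 1 ≤ |P|`.)
Edges of a forest on a vertex set: TC/Classes.lean or H/Few.lean have such a count
(acyclic graph: edges in a nonempty set `Z` of vertices `≤ |Z| - 1`).
-/

set_option autoImplicit false

namespace Pool.Agent.Lib.MP_0e31aa_co.HH

open Finset
open Pool.Agent.Lib.MP_0e31aa_co.TC (nb mem_nb Emb HasCyc Bip Pth)
open Pool.Agent.Lib.MP_0e31aa_co.H (dg big mem_big inner mem_inner FPath FCyc dg_compl)

variable {V W : Type}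

/-- The edges of a tree between two disjoint sets form a forest. -/
theorem forest_bip [Fintype W] [DecidableEq W] (T : SimpleGraph W) (hT : T.IsTree)
    (S E : Finset W) (hd : Disjoint S E) (hS : S.Nonempty) :
    ∑ x ∈ S, (nb T x E).card + 1 ≤ S.card + E.card := by
  obtain ⟨c, hc⟩ := hS
  obtain ⟨R, -, -⟩ := Pool.Agent.Lib.MP_c5b475_co.exists_RT hT c
  obtain ⟨r, hr, hmin⟩ := Finset.exists_min_image (S ∪ E) R.dep ⟨c, mem_union_left _ hc⟩
  have hcase : ∀ x y, T.Adj x y → (R.dep y < R.dep x ∧ y = R.par x) ∨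
      (R.dep x < R.dep y ∧ x = R.par y) := by
    intro x y h
    rcases (R.adj_iff x y).1 h with ⟨h1, h2⟩ | ⟨h1, h2⟩
    · left
      have := R.dep_par x h1
      rw [← h2] at this
      exact ⟨by omega, h2⟩
    · right
      have := R.dep_par y h1
      rw [← h2] at this
      exact ⟨by omega, h2⟩
  have h1 : (S.sigma fun x => nb T x E).card ≤ ((S ∪ E).erase r).card := by
    refine Finset.card_le_card_of_injOn
      (fun z : (_ : W) × W => if R.dep z.2 < R.dep z.1 then z.1 else z.2) ?_ ?_
    · rintro ⟨x, y⟩ hz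
      rw [mem_coe, mem_sigma, mem_nb] at hz
      obtain ⟨hx, hy, hxy⟩ := hz
      change (if R.dep y < R.dep x then x else y) ∈ _
      rw [mem_coe, mem_erase]
      have hx' : x ∈ S ∪ E := mem_union_left _ hx
      have hy' : y ∈ S ∪ E := mem_union_right _ hy
      rcases hcase x y hxy with ⟨h2, _⟩ | ⟨h2, _⟩
      · rw [if_pos h2]
        refine ⟨?_, hx'⟩
        rintro rfl
        have := hmin y hy'
        omega
      · rw [if_neg (by omega)]
        refine ⟨?_, hy'⟩
        rintro rfl
        have := hmin x hx'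
        omega
    · rintro ⟨x, y⟩ hz ⟨x', y'⟩ hz' he
      rw [mem_coe, mem_sigma, mem_nb] at hz hz'
      obtain ⟨hx, hy, hxy⟩ := hz
      obtain ⟨hx', hy', hxy'⟩ := hz'
      change (if R.dep y < R.dep x then x else y) = (if R.dep y' < R.dep x' then x' else y') at he
      have hdis := Finset.disjoint_left.1 hd
      rcases hcase x y hxy with ⟨h2, h3⟩ | ⟨h2, h3⟩
      · rcases hcase x' y' hxy' with ⟨h4, h5⟩ | ⟨h4, h5⟩
        · rw [if_pos h2, if_pos h4] at he
          change x = x' at he
          subst he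
          have : y = y' := h3.trans h5.symm
          subst this
          rfl
        · rw [if_pos h2, if_neg (by omega)] at he
          exact absurd (he ▸ hy') (hdis hx)
      · rcases hcase x' y' hxy' with ⟨h4, h5⟩ | ⟨h4, h5⟩
        · rw [if_neg (by omega), if_pos h4] at he
          exact absurd (he ▸ hy) (hdis hx')
        · rw [if_neg (by omega), if_neg (by omega)] at he
          change y = y' at he
          subst he
          have : x = x' := h3.trans h5.symm
          subst this
          rfl
  rw [card_sigma, card_erase_of_mem hr] at h1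
  have h2 : (S ∪ E).card ≤ S.card + E.card := card_union_le _ _
  have h3 : 0 < (S ∪ E).card := card_pos.2 ⟨r, hr⟩
  omega

/-- The vertices outside `P` with all neighbours in `S`. -/
private noncomputable def enc [Fintype W] [DecidableEq W] (T : SimpleGraph W) (P S : Finset W) :
    Finset W := Pᶜ.filter fun w => nb T w P ⊆ S

private theorem enc_down [Fintype W] [DecidableEq W] (T : SimpleGraph W) (hT : T.IsTree)
    (P : Finset W) (hP : Bip T P) (S : Finset W) (hSP : S ⊆ P) (hS : 1 ≤ S.card)
    (he : S.card ≤ (enc T P S).card + 1) :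
    ∃ x ∈ S, (S.erase x).card ≤ (enc T P (S.erase x)).card + 1 := by
  classical
  by_contra hcon
  push Not at hcon
  -- every vertex of `S` has many enclosed neighbours
  have h1 : ∀ x ∈ S, (enc T P S).card + 3 ≤ (nb T x (enc T P S)).card + S.card := by
    intro x hx
    have h2 := hcon x hx
    rw [card_erase_of_mem hx] at h2
    have h3 : enc T P S \ nb T x (enc T P S) ⊆ enc T P (S.erase x) := by
      intro w hw
      rw [mem_sdiff, mem_nb] at hw
      obtain ⟨hw1, hw2⟩ := hw
      unfold enc at hw1 ⊢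
      rw [mem_filter] at hw1 ⊢
      refine ⟨hw1.1, fun y hy => ?_⟩
      rw [mem_erase]
      refine ⟨?_, hw1.2 hy⟩
      rintro rfl
      apply hw2
      refine ⟨?_, (mem_nb.1 hy).2.symm⟩
      unfold enc
      rw [mem_filter]
      exact hw1
    have h4 := card_le_card h3
    have h5 := card_sdiff_add_card_eq_card (s := nb T x (enc T P S)) (t := enc T P S)
      (fun y hy => (mem_nb.1 hy).1)
    omega
  have hd : Disjoint S (enc T P S) := by
    rw [Finset.disjoint_left]
    intro w hw hw2
    unfold enc at hw2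
    rw [mem_filter, mem_compl] at hw2
    exact hw2.1 (hSP hw)
  have h2 := forest_bip T hT S (enc T P S) hd (card_pos.1 hS)
  have h3 : S.card * ((enc T P S).card + 3) ≤
      ∑ x ∈ S, (nb T x (enc T P S)).card + S.card * S.card := by
    calc S.card * ((enc T P S).card + 3) = ∑ _x ∈ S, ((enc T P S).card + 3) := by
          rw [sum_const, smul_eq_mul]
      _ ≤ ∑ x ∈ S, ((nb T x (enc T P S)).card + S.card) := sum_le_sum h1
      _ = _ := by rw [sum_add_distrib, sum_const, smul_eq_mul]
  set s := S.card with hs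
  set E := (enc T P S).card with hE
  generalize hG : ∑ x ∈ S, (nb T x (enc T P S)).card = G0 at h2 h3
  obtain ⟨D, hD⟩ : ∃ D, E + 1 = s + D := ⟨E + 1 - s, by omega⟩
  -- `s (E + 3) ≤ Σ + s²`, `Σ + 1 ≤ s + E`
  have h4 : s * (E + 3) + 1 ≤ s + E + s * s := by omega
  have h5 : s * (E + 3) = s * s + s * D + 2 * s := by
    have : E + 3 = s + D + 2 := by omega
    rw [this]
    ring
  have h6 : D ≤ s * D := Nat.le_mul_of_pos_left D hS
  omega

private theorem enc_exists [Fintype W] [DecidableEq W] (T : SimpleGraph W) (hT : T.IsTree)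
    (P : Finset W) (hP : Bip T P) (hle : P.card ≤ (Pᶜ : Finset W).card) (k : ℕ) :
    k + 1 ≤ P.card → ∃ S ⊆ P, S.card = P.card - k ∧ S.card ≤ (enc T P S).card + 1 := by
  induction k with
  | zero =>
    intro _
    refine ⟨P, Subset.refl P, rfl, ?_⟩
    have h : enc T P P = Pᶜ := by
      unfold enc
      rw [filter_eq_self]
      intro w _
      exact TC.nb_subset T w P
    rw [h]
    omega
  | succ k ih =>
    intro hk
    obtain ⟨S, h1, h2, h3⟩ := ih (by omega)
    obtain ⟨x, hx, h4⟩ := enc_down T hT P hP S h1 (by omega) h3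
    refine ⟨S.erase x, (erase_subset _ _).trans h1, ?_, h4⟩
    rw [card_erase_of_mem hx]
    omega

theorem lemS [Fintype W] [DecidableEq W] (T : SimpleGraph W) (hT : T.IsTree) (P : Finset W)
    (hP : Bip T P) (hPQ : P.card ≤ Pᶜ.card) (a b : ℕ) (hab : a + b + 1 ≤ P.card) :
    ∃ A ⊆ P, ∃ B ⊆ Pᶜ, A.card = a ∧ B.card = b ∧ ∀ x ∈ A, ∀ y ∈ B, ¬ T.Adj x y := by
  obtain ⟨S, h1, h2, h3⟩ := enc_exists T hT P hP hPQ a (by omega)
  obtain ⟨B, hB, hBc⟩ := exists_subset_card_eq (s := enc T P S) (n := b) (by omega)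
  refine ⟨P \ S, sdiff_subset, B, ?_, ?_, hBc, ?_⟩
  · intro w hw
    have := hB hw
    unfold enc at this
    rw [mem_filter] at this
    exact this.1
  · have := card_sdiff_add_card_eq_card h1
    omega
  · intro x hx y hy hxy
    rw [mem_sdiff] at hx
    have := hB hy
    unfold enc at this
    rw [mem_filter] at this
    exact hx.2 (this.2 (mem_nb.2 ⟨hx.1, hxy.symm⟩))

end Pool.Agent.Lib.MP_0e31aa_co.HH
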