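import Pool.Agent.Lib.MP_0e31aa_co.HH.Defs
import Pool.Agent.Lib.MP_0e31aa_co.H.LeafExt
import Pool.Agent.Lib.MP_0e31aa_co.H.GreedyK
import Pool.Agent.Lib.MP_0e31aa_co.HH.LemS
import Pool.Agent.Lib.MP_0e31aa_co.TC.BipEmb

/-!
Module EmbBip (60 min): three simple embeddings of `T` (classes `P` and `Pᶜ`) in a graph `R`.
-/

set_option autoImplicit false

namespace Pool.Agent.Lib.MP_0e31aa_co.HH

open Finset
open Pool.Agent.Lib.MP_0e31aa_co.TC (nb mem_nb Emb HasCyc Bip Pth)
open Pool.Agent.Lib.MP_0e31aa_co.H (dg big mem_big inner mem_inner FPath FCyc dg_compl leaf_par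
  leaf_ext)

variable {V W : Type}

theorem emb_bip [Fintype V] [DecidableEq V] [Fintype W] [DecidableEq W] (T : SimpleGraph W)
    (P : Finset W) (hP : Bip T P) (R : SimpleGraph V) (X Y : Finset V) (hXY : Disjoint X Y)
    (hj : ∀ x ∈ X, ∀ y ∈ Y, R.Adj x y) (hX : P.card ≤ X.card) (hY : Pᶜ.card ≤ Y.card) :
    Emb T R := by
  have h := TC.emb_complete Rᶜ T P hP X Y hXY hX (by
    rw [card_compl] at hY
    omega) (by
    intro a ha s hs h
    rw [SimpleGraph.compl_adj] at h
    exact h.2 (hj a ha s hs))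
  rwa [compl_compl] at h

theorem inner_out [Fintype W] [DecidableEq W] (T : SimpleGraph W) (hT : T.IsTree)
    (hW : 3 ≤ Fintype.card W) (P : Finset W) (hP : Bip T P) :
    (inner T \ P).card + 1 ≤ P.card := by
  rcases (inner T \ P).eq_empty_or_nonempty with h0 | h0
  · rw [h0, card_empty]
    have hpos : 0 < Fintype.card W := by omega
    obtain ⟨w⟩ := Fintype.card_pos_iff.1 hpos
    have hex : P.Nonempty := by
      by_cases hw : w ∈ P
      · exact ⟨w, hw⟩
      · have hw' : w ∉ inner T := by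
          intro h
          have : w ∈ inner T \ P := mem_sdiff.2 ⟨h, hw⟩
          rw [h0] at this
          simp at this
        obtain ⟨p, -, hp, -⟩ := leaf_par T hT hW w hw'
        exact ⟨p, (hP p w hp.symm).2 hw⟩
    exact card_pos.2 hex
  · have h1 := forest_bip T hT (inner T \ P) P (by
      rw [disjoint_left]
      intro x hx hx'
      exact (mem_sdiff.1 hx).2 hx') h0
    have h2 : ∀ x ∈ inner T \ P, 2 ≤ (nb T x P).card := by
      intro x hx
      rw [mem_sdiff, mem_inner] at hx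
      have h3 : nb T x univ = nb T x P := by
        ext y
        simp only [mem_nb, mem_univ, true_and]
        refine ⟨fun h => ⟨(hP y x h.symm).2 hx.2, h⟩, fun h => h.2⟩
      rw [← h3]
      exact hx.1
    have h4 := Finset.card_nsmul_le_sum (inner T \ P) (fun x => (nb T x P).card) 2 h2
    rw [smul_eq_mul] at h4
    omega

/-- Injection of a finset into a finset. -/
theorem exists_injOn (A : Finset W) (B : Finset V) (v : V) (h : A.card ≤ B.card) :
    ∃ f : W → V, Set.InjOn f (A : Set W) ∧ ∀ a ∈ A, f a ∈ B := by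
  classical
  obtain ⟨e⟩ : Nonempty ({x // x ∈ A} ↪ {x // x ∈ B}) :=
    Function.Embedding.nonempty_of_card_le (by simpa using h)
  refine ⟨fun w => if h : w ∈ A then (e ⟨w, h⟩).1 else v, ?_, ?_⟩
  · intro a ha b hb hab
    have ha' : a ∈ A := ha
    have hb' : b ∈ A := hb
    simp only [ha', hb', dif_pos] at hab
    have := e.injective (Subtype.ext hab)
    simpa using this
  · intro a ha
    simp only [ha, dif_pos]
    exact (e ⟨a, ha⟩).2

theorem emb_leaf [Fintype V] [DecidableEq V] [Fintype W] [DecidableEq W] (T : SimpleGraph W)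
    (hT : T.IsTree) (hW : 3 ≤ Fintype.card W) (P : Finset W) (hP : Bip T P) (R : SimpleGraph V)
    (X Y : Finset V) (hXY : Disjoint X Y) (hj : ∀ x ∈ X, ∀ y ∈ Y, R.Adj x y)
    (hX : P.card ≤ X.card) (hY : P.card ≤ Y.card + 1)
    (hdeg : ∀ x ∈ X, Fintype.card W ≤ dg R x + 1) : Emb T R := by
  have hin := inner_out T hT hW P hP
  have hXn : X.Nonempty := by
    rw [← card_pos]
    omega
  obtain ⟨x0, hx0⟩ := hXn
  obtain ⟨f1, hf1, hf1X⟩ := exists_injOn P X x0 hX
  obtain ⟨f2, hf2, hf2Y⟩ := exists_injOn (inner T \ P) Y x0 (by omega)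
  set g : W → V := fun w => if w ∈ P then f1 w else f2 w with hg
  have hgP : ∀ w, w ∈ P → g w = f1 w := fun w hw => by simp [hg, hw]
  have hgQ : ∀ w, w ∉ P → g w = f2 w := fun w hw => by simp [hg, hw]
  have hmemQ : ∀ w, w ∈ P ∪ inner T → w ∉ P → w ∈ inner T \ P := by
    intro w hw hw'
    rw [mem_union] at hw
    rw [mem_sdiff]
    tauto
  have hp : ∀ w : W, ∃ p, w ∉ P ∪ inner T → (p ∈ P ∧ ∀ v, T.Adj w v → v = p) := by
    intro w
    by_cases hw : w ∈ P ∪ inner T
    · exact ⟨w, fun h => absurd hw h⟩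
    · rw [mem_union, not_or] at hw
      obtain ⟨p, _, hp2, hp3⟩ := leaf_par T hT hW w hw.2
      refine ⟨p, fun _ => ⟨?_, hp3⟩⟩
      by_contra hpP
      exact hw.1 ((hP w p hp2).2 hpP)
  choose par hpar using hp
  refine leaf_ext T R (P ∪ inner T) g ?_ ?_ par ?_ ?_
  · intro a ha b hb hab
    by_cases haP : a ∈ P <;> by_cases hbP : b ∈ P
    · rw [hgP a haP, hgP b hbP] at hab
      exact hf1 haP hbP hab
    · rw [hgP a haP, hgQ b hbP] at hab
      exact absurd (hf1X a haP) fun h =>
        disjoint_left.1 hXY h (hab ▸ hf2Y b (hmemQ b hb hbP))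
    · rw [hgQ a haP, hgP b hbP] at hab
      exact absurd (hf1X b hbP) fun h =>
        disjoint_left.1 hXY h (hab ▸ hf2Y a (hmemQ a ha haP))
    · rw [hgQ a haP, hgQ b hbP] at hab
      exact hf2 (hmemQ a ha haP) (hmemQ b hb hbP) hab
  · intro a ha b hb hab
    by_cases haP : a ∈ P
    · have hbP : b ∉ P := (hP a b hab).1 haP
      rw [hgP a haP, hgQ b hbP]
      exact hj _ (hf1X a haP) _ (hf2Y b (hmemQ b hb hbP))
    · have hbP : b ∈ P := (hP b a hab.symm).2 haP
      rw [hgQ a haP, hgP b hbP]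
      exact (hj _ (hf1X b hbP) _ (hf2Y a (hmemQ a ha haP))).symm
  · intro w hw
    exact ⟨mem_union_left _ (hpar w hw).1, (hpar w hw).2⟩
  · intro w hw
    rw [hgP _ (hpar w hw).1]
    exact hdeg _ (hf1X _ (hpar w hw).1)

theorem emb_cj [Fintype V] [DecidableEq V] [Fintype W] [DecidableEq W] (T : SimpleGraph W)
    (P : Finset W) (hP : Bip T P) (R : SimpleGraph V) (X K : Finset V) (hXK : Disjoint X K)
    (hX : ∀ x ∈ X, ∀ y ∈ X, x ≠ y → R.Adj x y) (hj : ∀ x ∈ X, ∀ y ∈ K, R.Adj x y)
    (h1 : P.card ≤ X.card) (h2 : Fintype.card W ≤ X.card + K.card) : Emb T R := by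
  rcases isEmpty_or_nonempty W with hemp | ⟨⟨w0⟩⟩
  · exact ⟨fun w => (hemp.false w).elim, fun w => (hemp.false w).elim,
      fun w => (hemp.false w).elim⟩
  have hPc : (Pᶜ).card + P.card = Fintype.card W := by
    rw [card_compl]
    have := card_le_univ P
    omega
  obtain ⟨I, hI, hIc⟩ : ∃ I ⊆ Pᶜ, I.card = Fintype.card W - X.card :=
    exists_subset_card_eq (by omega)
  have hIc' : (Iᶜ).card + I.card = Fintype.card W := by
    rw [card_compl]
    have := card_le_univ I
    omega
  have hne : ∃ v0 : V, True := by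
    by_contra hno
    push Not at hno
    have h3 : X.card = 0 := by
      rw [card_eq_zero, eq_empty_iff_forall_notMem]
      intro x _
      exact hno x
    have h4 : K.card = 0 := by
      rw [card_eq_zero, eq_empty_iff_forall_notMem]
      intro x _
      exact hno x
    have : 0 < Fintype.card W := Fintype.card_pos_iff.2 ⟨w0⟩
    omega
  obtain ⟨v0, -⟩ := hne
  obtain ⟨f1, hf1, hf1X⟩ := exists_injOn Iᶜ X v0 (by omega)
  obtain ⟨f2, hf2, hf2Y⟩ := exists_injOn I K v0 (by omega)
  set g : W → V := fun w => if w ∈ I then f2 w else f1 w with hg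
  have hgI : ∀ w, w ∈ I → g w = f2 w := fun w hw => by simp [hg, hw]
  have hgJ : ∀ w, w ∉ I → g w = f1 w := fun w hw => by simp [hg, hw]
  have hX' : ∀ w, w ∉ I → f1 w ∈ X := fun w hw => hf1X w (mem_compl.2 hw)
  have hinj : Function.Injective g := by
    intro a b hab
    by_cases haP : a ∈ I <;> by_cases hbP : b ∈ I
    · rw [hgI a haP, hgI b hbP] at hab
      exact hf2 haP hbP hab
    · rw [hgI a haP, hgJ b hbP] at hab
      exact absurd (hX' b hbP) fun h => disjoint_left.1 hXK h (hab ▸ hf2Y a haP)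
    · rw [hgJ a haP, hgI b hbP] at hab
      exact absurd (hX' a haP) fun h => disjoint_left.1 hXK h (hab ▸ hf2Y b hbP)
    · rw [hgJ a haP, hgJ b hbP] at hab
      exact hf1 (by simpa using haP) (by simpa using hbP) hab
  refine ⟨g, hinj, ?_⟩
  intro a b hab
  by_cases haP : a ∈ I
  · have ha1 : a ∉ P := by simpa using hI haP
    have hb1 : b ∈ P := (hP b a hab.symm).2 ha1
    have hbI : b ∉ I := fun h => by
      have := hI h
      rw [mem_compl] at this
      exact this hb1
    rw [hgI a haP, hgJ b hbI]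
    exact (hj _ (hX' b hbI) _ (hf2Y a haP)).symm
  · by_cases hbP : b ∈ I
    · rw [hgJ a haP, hgI b hbP]
      exact hj _ (hX' a haP) _ (hf2Y b hbP)
    · have hne' : g a ≠ g b := fun h => hab.ne (hinj h)
      rw [hgJ a haP, hgJ b hbP] at hne' ⊢
      exact hX _ (hX' a haP) _ (hX' b hbP) hne'

end Pool.Agent.Lib.MP_0e31aa_co.HH
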