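import Pool.Agent.Lib.MP_0e31aa_co.HH.TwoY
import Pool.Agent.Lib.MP_0e31aa_co.HH.EmbBip
import Pool.Agent.Lib.MP_0e31aa_co.H.EmbF

/-!
Module CaseC (60 min): `m ≥ 2 p + 1`: contradiction.

`U = univ \ vs c f`, no hub, so red degrees `≥ n - 1` in `U`; `|U| = 2n - 1 - c ≥ 2n - m ≥ p`. `Y = YY G n c f`,
`|Y| = |vs ∩ L| ≥ (m+1)/2 ≥ p + 1`. By `twoY` a vertex `w ∈ U` with two neighbours `f i`, `f j` in `Y` forces all
good indices to be in `{i, j}`; there are two good indices `g1`, `g2` (`two_good`), so `{g1, g2} = {i, j}`.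
Good vertices are in `Y`.
 * `m ≥ 2 p + 3`: every `w ∈ U` has at most one neighbour in `Y' = Y \ {f g1}`, `|Y'| ≥ p + 1`: `emb_F`.
 * `m = 2 p + 1`: `|U| ≥ 2n - m ≥ 2p - 1` (`n ≥ 2p`). `X1` = the `w ∈ U` with at most one neighbour in `Y`, `X2 = U \ X1`:
   neighbours in `Y` exactly `f g1`, `f g2`. If `|X1| ≥ p`: `emb_F` with `X1`, `Y`. Otherwise `|X2| ≥ p`, and
   `Y \ {f g1, f g2}` (`≥ p - 1` vertices) is completely red to `X2`: `emb_leaf`.
-/

set_option autoImplicit false

namespace Pool.Agent.Lib.MP_0e31aa_co.HH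

open Finset
open Pool.Agent.Lib.MP_0e31aa_co.TC (nb mem_nb Emb HasCyc Bip Pth)
open Pool.Agent.Lib.MP_0e31aa_co.H (dg big mem_big inner mem_inner FPath FCyc dg_compl)

variable {V W : Type}

theorem caseC [Fintype V] [DecidableEq V] [Fintype W] [DecidableEq W] (G : SimpleGraph V)
    (n m c : ℕ) (hn : 3 ≤ n) (hodd : Odd m) (hV : Fintype.card V + 1 = 2 * n)
    (hW : Fintype.card W = n) (T : SimpleGraph W) (hT : T.IsTree) (P : Finset W) (hP : Bip T P)
    (hP2 : 2 * P.card ≤ n) (hmp : m + P.card ≤ 2 * n) (hE : ¬ Emb T Gᶜ) (f : ℕ → V)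
    (h : MaxC G n m c f) (hin : big G n ⊆ vs c f) (hm : 2 * P.card + 1 ≤ m) : False := by
  obtain ⟨g1, hg1, g2, hg2, hg12, hd1, hd2⟩ := two_good G n m c f h
  have hcU : (univ \ vs c f).card + c = Fintype.card V := by
    have h1 := card_sdiff_add_card_eq_card (subset_univ (vs c f))
    rwa [card_vs G n m c f h, card_univ] at h1
  have hl := h.len
  have hYc : m + 1 ≤ 2 * (YY G n c f).card := by
    rw [card_YY G n m c f h]
    exact h.hub
  have hYvs : YY G n c f ⊆ vs c f := by
    intro v hv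
    obtain ⟨i, hi, hiv, _⟩ := (mem_YY G n c f v).1 hv
    exact mem_vs.2 ⟨i, hi, hiv⟩
  have hdis : Disjoint (univ \ vs c f) (YY G n c f) :=
    disjoint_left.2 fun x hx hx' => (mem_sdiff.1 hx).2 (hYvs hx')
  have hdeg : ∀ w ∈ univ \ vs c f, Fintype.card W ≤ dg Gᶜ w + 1 := by
    intro w hw
    have h1 : ¬ n ≤ dg G w := fun h1 => (mem_sdiff.1 hw).2 (hin (mem_big.2 h1))
    have h2 := dg_compl G w
    omega
  -- two neighbours in `YY`
  have key : ∀ w ∈ univ \ vs c f, ∀ x ∈ nb G w (YY G n c f), ∀ y ∈ nb G w (YY G n c f), x ≠ y →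
      ∀ g < c, Gd G n c f g → f g = x ∨ f g = y := by
    intro w hw x hx y hy hxy g hg hgd
    rw [mem_nb, mem_YY] at hx hy
    obtain ⟨⟨i, hi, hix, hib⟩, hwx⟩ := hx
    obtain ⟨⟨j, hj, hjy, hjb⟩, hwy⟩ := hy
    subst hix
    subst hjy
    have hij : i ≠ j := fun hij => hxy (by rw [hij])
    rcases twoY G n m c hV f h w (mem_sdiff.1 hw).2 i j hi hj hij hwx hwy hib hjb g hg hgd with
      h1 | h1
    · left; rw [h1]
    · right; rw [h1]
  by_cases hm3 : 2 * P.card + 3 ≤ m
  · apply hE
    refine Pool.Agent.Lib.MP_0e31aa_co.H.emb_F T hT (by omega) P hP Gᶜ (univ \ vs c f)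
      ((YY G n c f).erase (f g1)) (hdis.mono_right (erase_subset _ _)) (by omega) ?_ ?_ hdeg
    · have h1 := pred_card_le_card_erase (s := YY G n c f) (a := f g1)
      omega
    · intro w hw
      rw [compl_compl, card_le_one]
      intro x hx y hy
      by_contra hxy
      rw [mem_nb, mem_erase] at hx hy
      rcases key w hw x (mem_nb.2 ⟨hx.1.2, hx.2⟩) y (mem_nb.2 ⟨hy.1.2, hy.2⟩) hxy g1 hg1 hd1 with
        h1 | h1
      · exact hx.1.1 h1.symm
      · exact hy.1.1 h1.symm
  · obtain ⟨r, hr⟩ := hodd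
    have hm1 : m = 2 * P.card + 1 := by omega
    have hX := card_filter_add_card_filter_not (s := univ \ vs c f)
      (fun w => (nb G w (YY G n c f)).card ≤ 1)
    by_cases hX1 : P.card ≤ ((univ \ vs c f).filter
        fun w => (nb G w (YY G n c f)).card ≤ 1).card
    · apply hE
      refine Pool.Agent.Lib.MP_0e31aa_co.H.emb_F T hT (by omega) P hP Gᶜ _
        (YY G n c f) (hdis.mono_left (filter_subset _ _)) hX1 (by omega) ?_ ?_
      · intro w hw
        rw [compl_compl]
        exact (mem_filter.1 hw).2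
      · intro w hw
        exact hdeg w (mem_filter.1 hw).1
    · apply hE
      refine emb_leaf T hT (by omega) P hP Gᶜ
        ((univ \ vs c f).filter fun w => ¬ (nb G w (YY G n c f)).card ≤ 1)
        (((YY G n c f).erase (f g1)).erase (f g2)) ?_ ?_ (by omega) ?_ ?_
      · exact (hdis.mono_left (filter_subset _ _)).mono_right
          ((erase_subset _ _).trans (erase_subset _ _))
      · intro w hw y hy
        rw [mem_filter] at hw
        rw [mem_erase, mem_erase] at hy
        rw [SimpleGraph.compl_adj]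
        refine ⟨fun hwy => (mem_sdiff.1 hw.1).2 (hwy ▸ hYvs hy.2.2), fun hadj => ?_⟩
        have h1 : 1 < (nb G w (YY G n c f)).card := by omega
        obtain ⟨z, hz, hzy⟩ := exists_mem_ne h1 y
        have hyn : y ∈ nb G w (YY G n c f) := mem_nb.2 ⟨hy.2.2, hadj⟩
        have h2 := key w hw.1 z hz y hyn hzy g1 hg1 hd1
        have h3 := key w hw.1 z hz y hyn hzy g2 hg2 hd2
        have h4 : f g1 = z := by
          rcases h2 with h2 | h2
          · exact h2
          · exact absurd h2.symm hy.2.1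
        have h5 : f g2 = z := by
          rcases h3 with h3 | h3
          · exact h3
          · exact absurd h3.symm hy.1
        exact hg12 (h.cyc.inj g1 hg1 g2 hg2 (h4.trans h5.symm))
      · have h1 := pred_card_le_card_erase (s := YY G n c f) (a := f g1)
        have h2 := pred_card_le_card_erase (s := (YY G n c f).erase (f g1)) (a := f g2)
        omega
      · intro w hw
        exact hdeg w (mem_filter.1 hw).1

end Pool.Agent.Lib.MP_0e31aa_co.HH
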