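import Pool.Agent.Lib.MP_0e31aa_co.HH.LemS

/-!
Module Tri (45 min): `X`, `Y`, `Z` pairwise disjoint and pairwise completely joined in `R`, each of size
`≤ |P| - 1`, together at least `n` vertices: `T` is in `R`.
Let `p = |P| ≤ q = |Pᶜ|`. `a = p - |Y| ≥ 1`, `b = q - |X|` (`|X| ≤ p - 1 < q`), `a + b = n - |X| - |Y| ≤ |Z| ≤ p - 1`.
`lemS` gives `A ⊆ P`, `B ⊆ Pᶜ` with `|A| = a`, `|B| = b`, no edges between them. Place `P \ A` (`|Y|`
vertices) in `Y`, `Pᶜ \ B` (`|X|` vertices) in `X` and `A ∪ B` in `Z`.
-/

set_option autoImplicit false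

namespace Pool.Agent.Lib.MP_0e31aa_co.HH

open Finset
open Pool.Agent.Lib.MP_0e31aa_co.TC (nb mem_nb Emb HasCyc Bip Pth)
open Pool.Agent.Lib.MP_0e31aa_co.H (dg big mem_big inner mem_inner FPath FCyc dg_compl)

variable {V W : Type}

private lemma Tri_inj (s : Finset W) (t : Finset V) (h : s.card ≤ t.card) (v0 : V) :
    ∃ f : W → V, (∀ x ∈ s, f x ∈ t) ∧ ∀ x ∈ s, ∀ y ∈ s, f x = f y → x = y := by
  classical
  have h1 : Fintype.card ↥s ≤ Fintype.card ↥t := by
    rw [Fintype.card_coe, Fintype.card_coe]
    exact h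
  obtain ⟨e⟩ := Function.Embedding.nonempty_of_card_le h1
  refine ⟨fun x => if hx : x ∈ s then (e ⟨x, hx⟩ : V) else v0, ?_, ?_⟩
  · intro x hx
    simp only [dif_pos hx]
    exact (e ⟨x, hx⟩).2
  · intro x hx y hy hxy
    simp only [dif_pos hx, dif_pos hy] at hxy
    have h2 := e.injective (Subtype.ext hxy)
    exact congrArg Subtype.val h2

theorem emb_tri [Fintype V] [DecidableEq V] [Fintype W] [DecidableEq W] (T : SimpleGraph W)
    (hT : T.IsTree) (P : Finset W) (hP : Bip T P) (hPQ : P.card ≤ Pᶜ.card) (R : SimpleGraph V)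
    (X Y Z : Finset V) (hXY : Disjoint X Y) (hXZ : Disjoint X Z) (hYZ : Disjoint Y Z)
    (h1 : ∀ x ∈ X, ∀ y ∈ Y, R.Adj x y) (h2 : ∀ x ∈ X, ∀ z ∈ Z, R.Adj x z)
    (h3 : ∀ y ∈ Y, ∀ z ∈ Z, R.Adj y z) (hX : X.card + 1 ≤ P.card) (hY : Y.card + 1 ≤ P.card)
    (hZ : Z.card + 1 ≤ P.card) (h : Fintype.card W ≤ X.card + Y.card + Z.card) : Emb T R := by
  classical
  have hW : P.card + Pᶜ.card = Fintype.card W := Finset.card_add_card_compl P
  have hWne : Nonempty W := hT.connected.nonempty
  have hW1 : 0 < Fintype.card W := Fintype.card_pos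
  have hv0 : Nonempty V := by
    by_contra hcon
    rw [not_nonempty_iff] at hcon
    have e1 : X.card = 0 := by
      rw [Finset.card_eq_zero]
      exact Finset.eq_empty_of_isEmpty X
    have e2 : Y.card = 0 := by
      rw [Finset.card_eq_zero]
      exact Finset.eq_empty_of_isEmpty Y
    have e3 : Z.card = 0 := by
      rw [Finset.card_eq_zero]
      exact Finset.eq_empty_of_isEmpty Z
    omega
  obtain ⟨v0⟩ := hv0
  obtain ⟨A, hA, B, hB, hAc, hBc, hAB⟩ := lemS T hT P hP hPQ (P.card - Y.card) (Pᶜ.card - X.card)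
    (by omega)
  have hPA : (P \ A).card = Y.card := by
    rw [Finset.card_sdiff_of_subset hA]
    omega
  have hQB : (Pᶜ \ B).card = X.card := by
    rw [Finset.card_sdiff_of_subset hB]
    omega
  have hABd : Disjoint A B := by
    rw [Finset.disjoint_left]
    intro x hxA hxB
    have := hB hxB
    rw [Finset.mem_compl] at this
    exact this (hA hxA)
  have hABc : (A ∪ B).card ≤ Z.card := by
    rw [Finset.card_union_of_disjoint hABd]
    omega
  obtain ⟨fY, y1, y2⟩ := Tri_inj (P \ A) Y hPA.le v0
  obtain ⟨fX, x1, x2⟩ := Tri_inj (Pᶜ \ B) X hQB.le v0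
  obtain ⟨fZ, z1, z2⟩ := Tri_inj (A ∪ B) Z hABc v0
  set f : W → V := fun w => if w ∈ A ∪ B then fZ w else if w ∈ P then fY w else fX w with hf
  have hfZ : ∀ w, w ∈ A ∪ B → f w = fZ w := fun w hw => by simp only [hf, if_pos hw]
  have hfY : ∀ w, w ∉ A ∪ B → w ∈ P → f w = fY w := fun w hw hwP => by
    simp only [hf, if_neg hw, if_pos hwP]
  have hfX : ∀ w, w ∉ A ∪ B → w ∉ P → f w = fX w := fun w hw hwP => by
    simp only [hf, if_neg hw, if_neg hwP]
  have mY : ∀ w, w ∉ A ∪ B → w ∈ P → w ∈ P \ A := fun w hw hwP => by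
    rw [Finset.mem_sdiff]
    exact ⟨hwP, fun h => hw (Finset.mem_union_left _ h)⟩
  have mX : ∀ w, w ∉ A ∪ B → w ∉ P → w ∈ Pᶜ \ B := fun w hw hwP => by
    rw [Finset.mem_sdiff, Finset.mem_compl]
    exact ⟨hwP, fun h => hw (Finset.mem_union_right _ h)⟩
  refine ⟨f, ?_, ?_⟩
  · intro s t hst
    by_cases hs : s ∈ A ∪ B
    · by_cases ht : t ∈ A ∪ B
      · rw [hfZ s hs, hfZ t ht] at hst
        exact z2 s hs t ht hst
      · exfalso
        by_cases htP : t ∈ P
        · rw [hfZ s hs, hfY t ht htP] at hst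
          have e1 := z1 s hs
          rw [hst] at e1
          exact Finset.disjoint_left.mp hYZ (y1 t (mY t ht htP)) e1
        · rw [hfZ s hs, hfX t ht htP] at hst
          have e1 := z1 s hs
          rw [hst] at e1
          exact Finset.disjoint_left.mp hXZ (x1 t (mX t ht htP)) e1
    · by_cases hsP : s ∈ P
      · by_cases ht : t ∈ A ∪ B
        · exfalso
          rw [hfY s hs hsP, hfZ t ht] at hst
          have e1 := y1 s (mY s hs hsP)
          rw [hst] at e1
          exact Finset.disjoint_left.mp hYZ e1 (z1 t ht)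
        · by_cases htP : t ∈ P
          · rw [hfY s hs hsP, hfY t ht htP] at hst
            exact y2 s (mY s hs hsP) t (mY t ht htP) hst
          · exfalso
            rw [hfY s hs hsP, hfX t ht htP] at hst
            have e1 := y1 s (mY s hs hsP)
            rw [hst] at e1
            exact Finset.disjoint_left.mp hXY (x1 t (mX t ht htP)) e1
      · by_cases ht : t ∈ A ∪ B
        · exfalso
          rw [hfX s hs hsP, hfZ t ht] at hst
          have e1 := x1 s (mX s hs hsP)
          rw [hst] at e1
          exact Finset.disjoint_left.mp hXZ e1 (z1 t ht)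
        · by_cases htP : t ∈ P
          · exfalso
            rw [hfX s hs hsP, hfY t ht htP] at hst
            have e1 := x1 s (mX s hs hsP)
            rw [hst] at e1
            exact Finset.disjoint_left.mp hXY e1 (y1 t (mY t ht htP))
          · rw [hfX s hs hsP, hfX t ht htP] at hst
            exact x2 s (mX s hs hsP) t (mX t ht htP) hst
  · have key : ∀ s t, s ∈ P → t ∉ P → T.Adj s t → R.Adj (f s) (f t) := by
      intro s t hs ht hst
      by_cases hsA : s ∈ A
      · have hsU : s ∈ A ∪ B := Finset.mem_union_left _ hsA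
        have htU : t ∉ A ∪ B := by
          intro htU
          rcases Finset.mem_union.mp htU with h' | h'
          · exact ht (hA h')
          · exact hAB s hsA t h' hst
        rw [hfZ s hsU, hfX t htU ht]
        exact (h2 _ (x1 t (mX t htU ht)) _ (z1 s hsU)).symm
      · have hsU : s ∉ A ∪ B := by
          intro hsU
          rcases Finset.mem_union.mp hsU with h' | h'
          · exact hsA h'
          · have := hB h'
            rw [Finset.mem_compl] at this
            exact this hs
        by_cases htB : t ∈ B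
        · have htU : t ∈ A ∪ B := Finset.mem_union_right _ htB
          rw [hfY s hsU hs, hfZ t htU]
          exact h3 _ (y1 s (mY s hsU hs)) _ (z1 t htU)
        · have htU : t ∉ A ∪ B := by
            intro htU
            rcases Finset.mem_union.mp htU with h' | h'
            · exact ht (hA h')
            · exact htB h'
          rw [hfY s hsU hs, hfX t htU ht]
          exact (h1 _ (x1 t (mX t htU ht)) _ (y1 s (mY s hsU hs))).symm
    intro s t hst
    by_cases hs : s ∈ P
    · exact key s t hs ((hP s t hst).mp hs) hst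
    · have ht : t ∈ P := by
        by_contra ht
        exact hs ((hP s t hst).mpr ht)
      exact (key t s ht hs hst.symm).symm

end Pool.Agent.Lib.MP_0e31aa_co.HH
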