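import Pool.Agent.Lib.MP_0e31aa_co.HH.CompA
import Pool.Agent.Lib.MP_0e31aa_co.HH.EmbBip
import Pool.Agent.Lib.MP_0e31aa_co.HH.Tri

/-!
Module CaseD (75 min): `m ≤ 2 p - 1`: contradiction.

`U = univ \ vs c f` has no hub (red degrees `≥ n - 1`), `|U| = 2n - 1 - c ≥ 2n - m ≥ 2n - 2p + 1 ≥ n + 1`.
(1) If `K ⊆ U` is connected and closed (neighbours of `K` are in `K` or in `vs`) then `|K| ≤ p - 1`: otherwise,
`A` = vertices of the cycle adjacent to `K`, `|A| ≤ c / 2 ≤ (m-1)/2 ≤ p - 1` (a3), `|K| ≤ n - 2` (a2),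
`Z = univ \ (K ∪ A)` has `≥ n - p + 2` vertices and no blue edges to `K`: `emb_bip` with `X = K`, `Y = Z`.
(2) Let `Y ⊆ U` be closed in `U` (no blue edges between `Y` and `U \ Y`), `|Y| ≤ p - 1`, of maximal size; `Y ≠ U`. Take
`w ∈ U \ Y` and its component `Z` in `U \ Y` (`comp_exists`): it is closed, so `|Z| ≤ p - 1` by (1), and `Y ∪ Z` is
closed in `U`, so `|Y ∪ Z| ≥ p`. `X = U \ (Y ∪ Z)`. `X`, `Y`, `Z` are pairwise completely red.
If `|X| ≥ p - 1`: `emb_leaf` with `Y ∪ Z` (for `P`) and `X`. If `|X| ≤ p - 1`: `emb_tri`.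
-/

set_option autoImplicit false

namespace Pool.Agent.Lib.MP_0e31aa_co.HH

open Finset
open Pool.Agent.Lib.MP_0e31aa_co.TC (nb mem_nb Emb HasCyc Bip Pth)
open Pool.Agent.Lib.MP_0e31aa_co.H (dg big mem_big inner mem_inner FPath FCyc dg_compl)

variable {V W : Type}

private theorem caseD_deg [Fintype V] [DecidableEq V] (G : SimpleGraph V) (n : ℕ)
    (hV : Fintype.card V + 1 = 2 * n) (v : V) (hv : v ∉ big G n) : n ≤ dg Gᶜ v + 1 := by
  rw [mem_big, not_le] at hv
  have h1 := dg_compl G v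
  omega

theorem caseD [Fintype V] [DecidableEq V] [Fintype W] [DecidableEq W] (G : SimpleGraph V)
    (n m c : ℕ) (hn : 3 ≤ n) (hV : Fintype.card V + 1 = 2 * n) (hW : Fintype.card W = n)
    (T : SimpleGraph W) (hT : T.IsTree) (P : Finset W) (hP : Bip T P) (hP2 : 2 * P.card ≤ n)
    (hE : ¬ Emb T Gᶜ) (f : ℕ → V) (h : MaxC G n m c f) (hin : big G n ⊆ vs c f)
    (hm : m + 1 ≤ 2 * P.card) : False := by
  classical
  have hlen := h.len
  have hvs : (vs c f).card ≤ c := by
    unfold vs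
    exact card_image_le.trans (by rw [card_range])
  have hPc : Pᶜ.card = n - P.card := by rw [card_compl, hW]
  set U : Finset V := univ \ vs c f with hU
  have hUmem : ∀ v, v ∈ U ↔ v ∉ vs c f := by
    intro v
    rw [hU, mem_sdiff]
    simp
  have hUcard : n + 1 ≤ U.card := by
    have h1 : U.card = Fintype.card V - (vs c f).card := by
      rw [hU, card_sdiff_of_subset (subset_univ _), card_univ]
    omega
  have hUdeg : ∀ v ∈ U, Fintype.card W ≤ dg Gᶜ v + 1 := by
    intro v hv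
    rw [hW]
    exact caseD_deg G n hV v fun hb => (hUmem v).1 hv (hin hb)
  have hsmall : ∀ K : Finset V, K ⊆ U → Conn G K → (∀ k ∈ K, ∀ v ∈ U, G.Adj k v → v ∈ K) →
      K.card + 1 ≤ P.card := by
    intro K hKU hK hcl
    by_contra hcon
    have hd : Disjoint K (vs c f) := by
      rw [disjoint_left]
      intro v hv hv'
      exact (hUmem v).1 (hKU hv) hv'
    set A : Finset V := (vs c f).filter (fun v => To G K v) with hA
    have h3 : 2 * A.card ≤ c := by
      refine a3 G n m c f h K hK hd A fun v hv => ?_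
      rw [hA, mem_filter] at hv
      exact hv
    have h2 := a2 G n m c hV f h K hK hd
    have hZ : (univ \ (K ∪ A)).card = Fintype.card V - (K ∪ A).card := by
      rw [card_sdiff_of_subset (subset_univ _), card_univ]
    have hKA := card_union_le K A
    apply hE
    refine emb_bip T P hP Gᶜ K (univ \ (K ∪ A)) ?_ ?_ (by omega) (by omega)
    · rw [disjoint_left]
      intro v hv hv'
      rw [mem_sdiff, mem_union] at hv'
      exact hv'.2 (Or.inl hv)
    · intro x hx y hy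
      rw [mem_sdiff, mem_union, not_or] at hy
      rw [SimpleGraph.compl_adj]
      refine ⟨fun hxy => hy.2.1 (hxy ▸ hx), fun hadj => ?_⟩
      by_cases hyv : y ∈ vs c f
      · apply hy.2.2
        rw [hA, mem_filter]
        exact ⟨hyv, x, hx, hadj.symm⟩
      · exact hy.2.1 (hcl x hx y ((hUmem y).2 hyv) hadj)
  -- the maximal closed set
  set F : Finset (Finset V) := U.powerset.filter
    (fun Y => (∀ k ∈ Y, ∀ v ∈ U, G.Adj k v → v ∈ Y) ∧ Y.card + 1 ≤ P.card) with hF
  have hFne : F.Nonempty := by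
    refine ⟨∅, ?_⟩
    rw [hF, mem_filter, mem_powerset]
    refine ⟨empty_subset _, fun k hk => absurd hk (notMem_empty k), ?_⟩
    rw [card_empty]
    omega
  obtain ⟨Y, hYF, hYmax⟩ := exists_max_image F card hFne
  rw [hF, mem_filter, mem_powerset] at hYF
  obtain ⟨hYU, hYcl, hYp⟩ := hYF
  have hne : (U \ Y).Nonempty := by
    rw [← card_pos, card_sdiff_of_subset hYU]
    omega
  obtain ⟨w, hw⟩ := hne
  obtain ⟨Z, hZs, hwZ, hZc, hZcl⟩ := comp_exists G (U \ Y) w hw
  have hZU : Z ⊆ U := fun v hv => (mem_sdiff.1 (hZs hv)).1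
  have hYZ : Disjoint Y Z := by
    rw [disjoint_left]
    intro v hv hv'
    exact (mem_sdiff.1 (hZs hv')).2 hv
  have hZcl' : ∀ k ∈ Z, ∀ v ∈ U, G.Adj k v → v ∈ Z := by
    intro k hk v hv hadj
    by_cases hvY : v ∈ Y
    · exact absurd (hYcl v hvY k (hZU hk) hadj.symm) (mem_sdiff.1 (hZs hk)).2
    · exact hZcl k hk v (mem_sdiff.2 ⟨hv, hvY⟩) hadj
  have hZp := hsmall Z hZU hZc hZcl'
  have hUnion : ∀ k ∈ Y ∪ Z, ∀ v ∈ U, G.Adj k v → v ∈ Y ∪ Z := by
    intro k hk v hv hadj
    rw [mem_union] at hk ⊢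
    rcases hk with hk | hk
    · exact Or.inl (hYcl k hk v hv hadj)
    · exact Or.inr (hZcl' k hk v hv hadj)
  have hYZc : (Y ∪ Z).card = Y.card + Z.card := card_union_of_disjoint hYZ
  have hYZU : Y ∪ Z ⊆ U := union_subset hYU hZU
  have hZpos : 0 < Z.card := card_pos.2 ⟨w, hwZ⟩
  have hbig : P.card ≤ (Y ∪ Z).card := by
    by_contra hcon
    have h1 := hYmax (Y ∪ Z) (by
      rw [hF, mem_filter, mem_powerset]
      exact ⟨hYZU, hUnion, by omega⟩)
    omega
  set X : Finset V := U \ (Y ∪ Z) with hX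
  have hXc : X.card + (Y ∪ Z).card = U.card := by
    rw [hX, card_sdiff_of_subset hYZU]
    have := card_le_card hYZU
    omega
  have hXd : Disjoint X (Y ∪ Z) := by
    rw [hX]
    exact sdiff_disjoint
  have hXr : ∀ x ∈ X, ∀ y ∈ Y ∪ Z, Gᶜ.Adj x y := by
    intro x hx y hy
    rw [hX, mem_sdiff] at hx
    rw [SimpleGraph.compl_adj]
    refine ⟨fun hxy => hx.2 (hxy ▸ hy), fun hadj => ?_⟩
    exact hx.2 (hUnion y hy x hx.1 hadj.symm)
  by_cases hXp : P.card ≤ X.card + 1
  · apply hE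
    refine emb_leaf T hT (by omega) P hP Gᶜ (Y ∪ Z) X hXd.symm ?_ hbig hXp ?_
    · intro x hx y hy
      exact (hXr y hy x hx).symm
    · intro x hx
      exact hUdeg x (hYZU hx)
  · apply hE
    rw [disjoint_union_right] at hXd
    refine emb_tri T hT P hP (by omega) Gᶜ X Y Z hXd.1 hXd.2 hYZ ?_ ?_ ?_ (by omega) (by omega)
      (by omega) (by omega)
    · exact fun x hx y hy => hXr x hx y (mem_union_left _ hy)
    · exact fun x hx y hy => hXr x hx y (mem_union_right _ hy)
    · intro y hy z hz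
      rw [SimpleGraph.compl_adj]
      refine ⟨fun hyz => ?_, fun hadj => ?_⟩
      · rw [hyz] at hy
        exact disjoint_left.1 hYZ hy hz
      · exact disjoint_left.1 hYZ (hYcl y hy z (hZU hz) hadj) hz

end Pool.Agent.Lib.MP_0e31aa_co.HH
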