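import Pool.Agent.Lib.MP_0e31aa_co.HH.Defs

/-!
Module Comp (45 min): the component of `w` in `U`. Take `K ⊆ U` with `w ∈ K`, `Conn G K`, of maximal size
(`{w}` is possible); if `k ∈ K` is adjacent to `v ∈ U \ K` then `insert v K` is connected.
`conn_path`: the path between two vertices of a connected set as a list (`PL`).
-/

set_option autoImplicit false

namespace Pool.Agent.Lib.MP_0e31aa_co.HH

open Finset
open Pool.Agent.Lib.MP_0e31aa_co.TC (nb mem_nb Emb HasCyc Bip Pth)
open Pool.Agent.Lib.MP_0e31aa_co.H (dg big mem_big inner mem_inner FPath FCyc dg_compl)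

variable {V W : Type}

private theorem Comp_ext [DecidableEq V] {G : SimpleGraph V} {K : Finset V} (hK : Conn G K)
    {k v a : V} (hk : k ∈ K) (hkv : G.Adj k v) (hv : v ∉ K) (ha : a ∈ K) :
    ∃ l, Pth G (insert v K) a v l := by
  obtain ⟨l, hl⟩ := hK a ha k hk
  have h1 : Pth G {v} v v 1 := TC.Pth.single G (mem_singleton_self v)
  have h2 := TC.Pth.append hl h1 (disjoint_singleton_right.2 hv) hkv
  exact ⟨l + 1, TC.Pth.mono h2 (by
    intro x hx
    rcases mem_union.1 hx with hx | hx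
    · exact mem_insert_of_mem hx
    · rw [mem_singleton.1 hx]
      exact mem_insert_self v K)⟩

private theorem Comp_insert [DecidableEq V] {G : SimpleGraph V} {K : Finset V} (hK : Conn G K)
    {k v : V} (hk : k ∈ K) (hkv : G.Adj k v) (hv : v ∉ K) : Conn G (insert v K) := by
  intro a ha b hb
  rcases mem_insert.1 ha with ha | ha
  · subst ha
    rcases mem_insert.1 hb with hb | hb
    · subst hb
      exact ⟨1, TC.Pth.single G (mem_insert_self _ _)⟩
    · obtain ⟨l, hl⟩ := Comp_ext hK hk hkv hv hb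
      exact ⟨l, TC.Pth.symm hl⟩
  · rcases mem_insert.1 hb with hb | hb
    · rw [hb]
      exact Comp_ext hK hk hkv hv ha
    · obtain ⟨l, hl⟩ := hK a ha b hb
      exact ⟨l, TC.Pth.mono hl (subset_insert v K)⟩

theorem comp_exists [DecidableEq V] (G : SimpleGraph V) (U : Finset V) (w : V) (hw : w ∈ U) :
    ∃ K : Finset V, K ⊆ U ∧ w ∈ K ∧ Conn G K ∧ ∀ k ∈ K, ∀ v ∈ U, G.Adj k v → v ∈ K := by
  classical
  have hne : (U.powerset.filter fun K => w ∈ K ∧ Conn G K).Nonempty := by
    refine ⟨{w}, mem_filter.2 ⟨mem_powerset.2 (singleton_subset_iff.2 hw),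
      mem_singleton_self w, ?_⟩⟩
    intro a ha b hb
    rw [mem_singleton] at ha hb
    subst ha
    subst hb
    exact ⟨1, TC.Pth.single G (mem_singleton_self _)⟩
  obtain ⟨K, hK, hmax⟩ := exists_max_image _ (fun K : Finset V => K.card) hne
  rw [mem_filter, mem_powerset] at hK
  refine ⟨K, hK.1, hK.2.1, hK.2.2, ?_⟩
  intro k hk v hv hkv
  by_contra hvK
  have h1 := hmax (insert v K) (mem_filter.2 ⟨mem_powerset.2 (insert_subset hv hK.1),
    mem_insert_of_mem hK.2.1, Comp_insert hK.2.2 hk hkv hvK⟩)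
  rw [card_insert_of_notMem hvK] at h1
  omega

theorem conn_path [DecidableEq V] (G : SimpleGraph V) (K : Finset V) (hK : Conn G K) (a b : V)
    (ha : a ∈ K) (hb : b ∈ K) : ∃ l : List V, PL G a b l ∧ (∀ v ∈ l, v ∈ K) := by
  obtain ⟨m, l, _, h2, h3, h4, h5, h6, h7⟩ := hK a ha b hb
  refine ⟨l, ⟨h2, h3, ?_, ?_⟩, h4⟩
  · rw [List.head?_eq_some_head h5, h6]
  · rw [List.getLast?_eq_getLast_of_ne_nil h5, h7]

end Pool.Agent.Lib.MP_0e31aa_co.HH
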