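import Pool.Agent.Lib.MP_0e31aa_co.HH.Defs

/-!
Module Good (40 min): counting on the cycle. `i ↦ (i + 1) % c` is a bijection of `range c`, `f` is injective
on `range c`, so the set `YY` of vertices whose successor is a hub has as many elements as there
are hubs on the cycle; two sets of at least `(m + 1) / 2` indices out of `c ≤ m - 1` meet in at
least two indices.
-/

set_option autoImplicit false

namespace Pool.Agent.Lib.MP_0e31aa_co.HH

open Finset
open Pool.Agent.Lib.MP_0e31aa_co.TC (nb mem_nb Emb HasCyc Bip Pth)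
open Pool.Agent.Lib.MP_0e31aa_co.H (dg big mem_big inner mem_inner FPath FCyc dg_compl)

variable {V W : Type}

/-- The vertices of the cycle whose successor is a hub. -/
noncomputable def YY [Fintype V] [DecidableEq V] (G : SimpleGraph V) (n c : ℕ) (f : ℕ → V) :
    Finset V :=
  ((range c).filter fun i => f ((i + 1) % c) ∈ big G n).image f

private theorem Good_sig_lt {c : ℕ} (hc : 3 ≤ c) (i : ℕ) : (i + 1) % c < c :=
  Nat.mod_lt _ (by omega)

private theorem Good_sig_inj {c i j : ℕ} (hi : i < c) (hj : j < c)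
    (h : (i + 1) % c = (j + 1) % c) : i = j := by
  rcases Nat.lt_or_ge (i + 1) c with h1 | h1
  · rcases Nat.lt_or_ge (j + 1) c with h2 | h2
    · rw [Nat.mod_eq_of_lt h1, Nat.mod_eq_of_lt h2] at h
      omega
    · have h3 : j + 1 = c := by omega
      rw [Nat.mod_eq_of_lt h1, h3, Nat.mod_self] at h
      omega
  · have h3 : i + 1 = c := by omega
    rcases Nat.lt_or_ge (j + 1) c with h2 | h2
    · rw [Nat.mod_eq_of_lt h2, h3, Nat.mod_self] at h
      omega
    · omega

private theorem Good_sig_surj {c j : ℕ} (hj : j < c) : ∃ i < c, (i + 1) % c = j := by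
  rcases Nat.eq_zero_or_pos j with h | h
  · subst h
    refine ⟨c - 1, by omega, ?_⟩
    have h1 : c - 1 + 1 = c := by omega
    rw [h1, Nat.mod_self]
  · refine ⟨j - 1, by omega, ?_⟩
    have h1 : j - 1 + 1 = j := by omega
    rw [h1, Nat.mod_eq_of_lt hj]

private theorem Good_injOn {G : SimpleGraph V} {c : ℕ} {f : ℕ → V} (h : FCyc G c f) :
    Set.InjOn f (range c : Set ℕ) := by
  intro i hi j hj hij
  rw [Finset.mem_coe, mem_range] at hi hj
  exact h.inj i hi j hj hij

/-- The number of indices of hubs on the cycle. -/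
private theorem Good_cardA [Fintype V] [DecidableEq V] {G : SimpleGraph V} {n m c : ℕ}
    {f : ℕ → V} (h : MaxC G n m c f) :
    ((range c).filter fun i => f i ∈ big G n).card = (vs c f ∩ big G n).card := by
  have h1 : vs c f ∩ big G n = ((range c).filter fun i => f i ∈ big G n).image f := by
    ext v
    rw [mem_inter, mem_vs, mem_image]
    constructor
    · rintro ⟨⟨i, hi, rfl⟩, hv⟩
      exact ⟨i, mem_filter.2 ⟨mem_range.2 hi, hv⟩, rfl⟩
    · rintro ⟨i, hi, rfl⟩
      rw [mem_filter, mem_range] at hi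
      exact ⟨⟨i, hi.1, rfl⟩, hi.2⟩
  rw [h1, card_image_of_injOn]
  exact (Good_injOn h.cyc).mono (by
    intro i hi
    rw [Finset.mem_coe] at hi ⊢
    exact (mem_filter.1 hi).1)

/-- The number of indices of predecessors of hubs on the cycle. -/
private theorem Good_cardB [Fintype V] [DecidableEq V] {G : SimpleGraph V} {n m c : ℕ}
    {f : ℕ → V} (h : MaxC G n m c f) :
    ((range c).filter fun i => f ((i + 1) % c) ∈ big G n).card = (vs c f ∩ big G n).card := by
  rw [← Good_cardA h]
  have h1 : ((range c).filter fun i => f i ∈ big G n) =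
      ((range c).filter fun i => f ((i + 1) % c) ∈ big G n).image fun i => (i + 1) % c := by
    ext j
    rw [mem_filter, mem_range, mem_image]
    constructor
    · rintro ⟨hj, hv⟩
      obtain ⟨i, hi, rfl⟩ := Good_sig_surj hj
      exact ⟨i, mem_filter.2 ⟨mem_range.2 hi, hv⟩, rfl⟩
    · rintro ⟨i, hi, rfl⟩
      rw [mem_filter, mem_range] at hi
      exact ⟨Good_sig_lt h.three i, hi.2⟩
  rw [h1, card_image_of_injOn]
  intro i hi j hj hij
  rw [Finset.mem_coe, mem_filter, mem_range] at hi hj
  exact Good_sig_inj hi.1 hj.1 hij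

theorem card_YY [Fintype V] [DecidableEq V] (G : SimpleGraph V) (n m c : ℕ) (f : ℕ → V)
    (h : MaxC G n m c f) : (YY G n c f).card = (vs c f ∩ big G n).card := by
  rw [← Good_cardB h]
  unfold YY
  rw [card_image_of_injOn]
  exact (Good_injOn h.cyc).mono (by
    intro i hi
    rw [Finset.mem_coe] at hi ⊢
    exact (mem_filter.1 hi).1)

theorem mem_YY [Fintype V] [DecidableEq V] (G : SimpleGraph V) (n c : ℕ) (f : ℕ → V) (v : V) :
    v ∈ YY G n c f ↔ ∃ i < c, f i = v ∧ f ((i + 1) % c) ∈ big G n := by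
  unfold YY
  rw [mem_image]
  constructor
  · rintro ⟨i, hi, rfl⟩
    rw [mem_filter, mem_range] at hi
    exact ⟨i, hi.1, rfl, hi.2⟩
  · rintro ⟨i, hi, rfl, h⟩
    exact ⟨i, mem_filter.2 ⟨mem_range.2 hi, h⟩, rfl⟩

theorem card_vs [Fintype V] [DecidableEq V] (G : SimpleGraph V) (n m c : ℕ) (f : ℕ → V)
    (h : MaxC G n m c f) : (vs c f).card = c := by
  unfold vs
  rw [card_image_of_injOn (Good_injOn h.cyc), card_range]

theorem two_good [Fintype V] [DecidableEq V] (G : SimpleGraph V) (n m c : ℕ) (f : ℕ → V)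
    (h : MaxC G n m c f) :
    ∃ i < c, ∃ j < c, i ≠ j ∧ Gd G n c f i ∧ Gd G n c f j := by
  have hA := Good_cardA h
  have hB := Good_cardB h
  have h1 := card_union_add_card_inter ((range c).filter fun i => f i ∈ big G n)
    ((range c).filter fun i => f ((i + 1) % c) ∈ big G n)
  have h2 : (((range c).filter fun i => f i ∈ big G n) ∪
      ((range c).filter fun i => f ((i + 1) % c) ∈ big G n)).card ≤ c := by
    have h3 := card_le_card (union_subset (filter_subset (fun i => f i ∈ big G n) (range c))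
      (filter_subset (fun i => f ((i + 1) % c) ∈ big G n) (range c)))
    rwa [card_range] at h3
  have hh := h.hub
  have hl := h.len
  have h4 : 1 < (((range c).filter fun i => f i ∈ big G n) ∩
      ((range c).filter fun i => f ((i + 1) % c) ∈ big G n)).card := by omega
  obtain ⟨i, hi, j, hj, hij⟩ := one_lt_card.1 h4
  rw [mem_inter, mem_filter, mem_filter, mem_range] at hi hj
  exact ⟨i, hi.1.1, j, hj.1.1, hij, ⟨hi.1.2, hi.2.2⟩, ⟨hj.1.2, hj.2.2⟩⟩

theorem other_good [Fintype V] [DecidableEq V] (G : SimpleGraph V) (n m c : ℕ) (f : ℕ → V)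
    (h : MaxC G n m c f) (i : ℕ) : ∃ g < c, g ≠ i ∧ Gd G n c f g := by
  obtain ⟨a, ha, b, hb, hab, hga, hgb⟩ := two_good G n m c f h
  by_cases hai : a = i
  · exact ⟨b, hb, fun hbi => hab (hai.trans hbi.symm), hgb⟩
  · exact ⟨a, ha, hai, hga⟩

end Pool.Agent.Lib.MP_0e31aa_co.HH
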