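import Pool.Agent.Lib.MP_0e31aa_co.HH.Cut
import Pool.Agent.Lib.MP_0e31aa_co.HH.Good
import Pool.Agent.Lib.MP_0e31aa_co.HH.Comp

/-!
Module CompA (60 min): a connected set `K` outside the cycle.
 * a1: `f i` and `f (i+1)` are not both adjacent to `K`. Otherwise take a good `g ≠ i` (`other_good`), `cut2` with
   `i`, `g`: `D1` from `f (i+1)` to `f g`, `D2` from `f (g+1)` to `f i`; `k ~ f i`, `k2 ~ f (i+1)`, path `Kp` from `k` to `k2` in
   `K`: `D2 ++ Kp ++ D1` is a path from `f (g+1)` to `f g` containing `vs`, longer than `c`: against `noext`.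
 * a2: `|K| + 2 ≤ n`: by a1 for a good `g`, one of the
   hubs `f g`, `f (g+1)` has no neighbour in `K`, and its `≥ n` neighbours are outside `K` and itself.
 * a3: at most `c / 2` vertices of the cycle are adjacent to `K`.
-/

set_option autoImplicit false

namespace Pool.Agent.Lib.MP_0e31aa_co.HH

open Finset
open Pool.Agent.Lib.MP_0e31aa_co.TC (nb mem_nb Emb HasCyc Bip Pth)
open Pool.Agent.Lib.MP_0e31aa_co.H (dg big mem_big inner mem_inner FPath FCyc dg_compl)

variable {V W : Type}

private theorem CompA_sig_inj {c i j : ℕ} (hi : i < c) (hj : j < c)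
    (h : (i + 1) % c = (j + 1) % c) : i = j := by
  rcases Nat.lt_or_ge (i + 1) c with h1 | h1
  · rcases Nat.lt_or_ge (j + 1) c with h2 | h2
    · rw [Nat.mod_eq_of_lt h1, Nat.mod_eq_of_lt h2] at h
      omega
    · have h3 : j + 1 = c := by omega
      rw [Nat.mod_eq_of_lt h1, h3, Nat.mod_self] at h
      omega
  · have h3 : i + 1 = c := by omega
    rcases Nat.lt_or_ge (j + 1) c with h2 | h2
    · rw [Nat.mod_eq_of_lt h2, h3, Nat.mod_self] at h
      omega
    · omega

theorem a1 [Fintype V] [DecidableEq V] (G : SimpleGraph V) (n m c : ℕ) (f : ℕ → V)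
    (h : MaxC G n m c f) (K : Finset V) (hK : Conn G K) (hd : Disjoint K (vs c f)) (i : ℕ)
    (hi : i < c) (h1 : To G K (f i)) (h2 : To G K (f ((i + 1) % c))) : False := by
  obtain ⟨g, hg, hgi, hgd⟩ := other_good G n m c f h i
  obtain ⟨D1, D2, hD1, hD2, hnd, hmem, hlen⟩ := cut2 G c h.three f h.cyc i g hi hg (Ne.symm hgi)
  obtain ⟨k, hk, hik⟩ := h1
  obtain ⟨k2, hk2, hik2⟩ := h2
  obtain ⟨Kp, hKp, hKpm⟩ := conn_path G K hK k k2 hk hk2
  rw [List.nodup_append] at hnd
  have hout : ∀ a ∈ K, ∀ b ∈ D1 ++ D2, a ≠ b := by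
    intro a ha b hb hab
    subst hab
    exact disjoint_left.1 hd ha ((hmem a).1 hb)
  have hn1 : (D2 ++ Kp).Nodup := by
    rw [List.nodup_append]
    exact ⟨hnd.2.1, hKp.nodup, fun a ha b hb hab =>
      hout b (hKpm b hb) a (List.mem_append.2 (Or.inr ha)) hab.symm⟩
  have hn2 : (D2 ++ Kp ++ D1).Nodup := by
    rw [List.nodup_append]
    refine ⟨hn1, hnd.1, ?_⟩
    intro a ha b hb hab
    rcases List.mem_append.1 ha with ha | ha
    · exact hnd.2.2 b hb a ha hab.symm
    · exact hout a (hKpm a ha) b (List.mem_append.2 (Or.inl hb)) hab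
  have hE : PL G (f ((g + 1) % c)) (f g) (D2 ++ Kp ++ D1) :=
    PL.append (PL.append hD2 hKp hik hn1) hD1 hik2.symm hn2
  have h3 := h.noext g hg hgd (D2 ++ Kp ++ D1) hE (by
    intro v hv
    have h4 := (hmem v).2 hv
    rw [List.mem_append] at h4
    rw [List.mem_append, List.mem_append]
    tauto)
  have h5 : 0 < Kp.length := List.length_pos_iff.2 hKp.ne
  rw [List.length_append, List.length_append] at h3
  omega

theorem a2 [Fintype V] [DecidableEq V] (G : SimpleGraph V) (n m c : ℕ)
    (hV : Fintype.card V + 1 = 2 * n) (f : ℕ → V) (h : MaxC G n m c f) (K : Finset V)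
    (hK : Conn G K) (hd : Disjoint K (vs c f)) : K.card + 2 ≤ n := by
  have key : ∀ v ∈ vs c f, v ∈ big G n → ¬ To G K v → K.card + 2 ≤ n := by
    intro v hv hb hto
    have hvK : v ∉ K := fun hvK => disjoint_left.1 hd hvK hv
    have h1 : Disjoint (nb G v univ) (insert v K) := by
      rw [disjoint_left]
      intro x hx hxK
      rw [mem_nb] at hx
      rcases mem_insert.1 hxK with hxv | hxK
      · rw [hxv] at hx
        exact G.loopless.irrefl v hx.2
      · exact hto ⟨x, hxK, hx.2⟩
    have h2 := card_le_univ (nb G v univ ∪ insert v K)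
    rw [card_union_of_disjoint h1, card_insert_of_notMem hvK] at h2
    have h3 : n ≤ (nb G v univ).card := mem_big.1 hb
    omega
  obtain ⟨g, hg, _, hgd⟩ := other_good G n m c f h c
  have hg' : (g + 1) % c < c := Nat.mod_lt _ (by have := h.three; omega)
  by_cases ht : To G K (f g)
  · refine key (f ((g + 1) % c)) (mem_vs.2 ⟨_, hg', rfl⟩) hgd.2 ?_
    intro ht2
    exact a1 G n m c f h K hK hd g hg ht ht2
  · exact key (f g) (mem_vs.2 ⟨_, hg, rfl⟩) hgd.1 ht

theorem a3 [Fintype V] [DecidableEq V] (G : SimpleGraph V) (n m c : ℕ) (f : ℕ → V)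
    (h : MaxC G n m c f) (K : Finset V) (hK : Conn G K) (hd : Disjoint K (vs c f))
    (A : Finset V) (hA : ∀ v ∈ A, v ∈ vs c f ∧ To G K v) : 2 * A.card ≤ c := by
  have hc := h.three
  have h1 : A ⊆ ((range c).filter fun i => f i ∈ A).image f := by
    intro v hv
    obtain ⟨i, hi, rfl⟩ := mem_vs.1 (hA v hv).1
    exact mem_image.2 ⟨i, mem_filter.2 ⟨mem_range.2 hi, hv⟩, rfl⟩
  have h2 : A.card ≤ ((range c).filter fun i => f i ∈ A).card :=
    (card_le_card h1).trans card_image_le
  have h3 : (((range c).filter fun i => f i ∈ A).image fun i => (i + 1) % c).card =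
      ((range c).filter fun i => f i ∈ A).card := by
    rw [card_image_of_injOn]
    intro i hi j hj hij
    rw [Finset.mem_coe, mem_filter, mem_range] at hi hj
    exact CompA_sig_inj hi.1 hj.1 hij
  have h4 : Disjoint ((range c).filter fun i => f i ∈ A)
      (((range c).filter fun i => f i ∈ A).image fun i => (i + 1) % c) := by
    rw [disjoint_left]
    intro j hj hj'
    obtain ⟨i, hi, hij⟩ := mem_image.1 hj'
    rw [mem_filter, mem_range] at hi hj
    have hij' : (i + 1) % c = j := hij
    refine a1 G n m c f h K hK hd i hi.1 (hA _ hi.2).2 ?_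
    rw [hij']
    exact (hA _ hj.2).2
  have h5 : ((range c).filter fun i => f i ∈ A) ∪
      (((range c).filter fun i => f i ∈ A).image fun i => (i + 1) % c) ⊆ range c := by
    refine union_subset (filter_subset _ _) ?_
    intro j hj
    obtain ⟨i, _, hij⟩ := mem_image.1 hj
    rw [mem_range, ← hij]
    exact Nat.mod_lt _ (by omega)
  have h6 := card_le_card h5
  rw [card_union_of_disjoint h4, h3, card_range] at h6
  omega

end Pool.Agent.Lib.MP_0e31aa_co.HH
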