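import Pool.Agent.Lib.MP_0e31aa_co.HH.MissL

/-!
Module Repair (75 min): THE REPAIR LEMMA for lists with missing links.

`M` has no repetition, consecutive vertices are adjacent or both hubs (`LG`), there is a missing
link. Then there is `M'` of the same kind with the same first and last vertex, `M` contained in
`M'`, at most one vertex more, and fewer missing links.
Proof. `exists_miss`: `M = A ++ B`, `x` last of `A`, `y` first of `B`, `x`, `y` not adjacent, so both are
hubs. If they have a common neighbour `z` not in `M`: `A ++ z :: B`. Otherwise, `k = |M|`: all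
`2n - 1 - k` vertices outside `M` are adjacent to at most one of `x`, `y`, so `x` and `y` together have
at least `2n - (2n - 1 - k) = k + 1` neighbours in `M`. The two index sets `{t ≤ k-2 : x ~ M_t}` and
`{t ≤ k-2 : y ~ M_(t+1)}` have at least `k - 1` elements together (`x ~ M_(k-1)` and `y ~ M_0` are not
counted) and avoid `t = |A| - 1` (there `M_t = x`, `M_(t+1) = y`), so they have a common element `t`:
 * `t < |A| - 1`: `A = A1 ++ A2` with `x ~ last A1`, `y ~ head A2`: take `A1 ++ reverse A2 ++ B`
   (`reverse A2` starts with `x` and ends with `head A2`): the link `x y` disappears, the link between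
   `A1` and `A2` (present or missing) is replaced by an edge.
 * `t ≥ |A|`: `B = B1 ++ B2`, `x ~ last B1`, `y ~ head B2`: take `A ++ reverse B1 ++ B2`.
In both cases `miss` drops by at least one (`miss_append`, `miss_append_not`, `miss_append_le`,
`miss_reverse`); `LG` is preserved (reversal, the new links are edges).
`repair` is the case of one missing link: if `x ~ y` take `l1 ++ l2` itself, otherwise `miss = 1` and
`repairM` gives `miss = 0`, a path.
-/

set_option autoImplicit false

namespace Pool.Agent.Lib.MP_0e31aa_co.HH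

open Finset
open Pool.Agent.Lib.MP_0e31aa_co.TC (nb mem_nb Emb HasCyc Bip Pth)
open Pool.Agent.Lib.MP_0e31aa_co.H (dg big mem_big inner mem_inner FPath FCyc dg_compl)

variable {V W : Type}

private theorem rep_cross [Fintype V] [DecidableEq V] (G : SimpleGraph V) (n : ℕ)
    (hV : Fintype.card V + 1 = 2 * n) (M : List V) (hM : M.Nodup) (x y : V) (hx : x ∈ big G n)
    (hy : y ∈ big G n) (hno : ∀ z, z ∉ M → ¬ (G.Adj x z ∧ G.Adj y z)) (t0 : ℕ)
    (h0 : M[t0]? = some x) (h1 : M[t0 + 1]? = some y) (hxy : ¬ G.Adj x y) :
    ∃ t p q, t ≠ t0 ∧ M[t]? = some p ∧ M[t + 1]? = some q ∧ G.Adj x p ∧ G.Adj y q := by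
  classical
  by_contra hcon
  have hcon' : ∀ t p q, t ≠ t0 → M[t]? = some p → M[t + 1]? = some q → G.Adj x p →
      ¬ G.Adj y q := by
    intro t p q h2 h3 h4 h5 h6
    exact hcon ⟨t, p, q, h2, h3, h4, h5, h6⟩
  set k := M.length with hk
  have ht0 : t0 + 1 < k := by
    by_contra h
    rw [List.getElem?_eq_none (by omega)] at h1
    exact absurd h1 (by simp)
  set A : Finset ℕ := (range (k - 1)).filter (fun t => ∃ p, M[t]? = some p ∧ G.Adj x p) with hA
  set B : Finset ℕ := (range (k - 1)).filter (fun t => ∃ q, M[t + 1]? = some q ∧ G.Adj y q)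
    with hB
  have hAB : Disjoint A B := by
    rw [Finset.disjoint_left]
    intro t ht ht'
    rw [hA, mem_filter] at ht
    rw [hB, mem_filter] at ht'
    obtain ⟨_, p, hp, hxp⟩ := ht
    obtain ⟨_, q, hq, hyq⟩ := ht'
    by_cases htt : t = t0
    · rw [htt, h0] at hp
      have : x = p := by simpa using hp
      rw [← this] at hxp
      exact G.loopless.irrefl x hxp
    · exact hcon' t p q htt hp hq hxp hyq
  have hsub : A ∪ B ⊆ (range (k - 1)).erase t0 := by
    intro t ht
    rw [mem_erase]
    rcases mem_union.1 ht with ht | ht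
    · rw [hA, mem_filter] at ht
      obtain ⟨h2, p, hp, hxp⟩ := ht
      refine ⟨?_, h2⟩
      rintro rfl
      rw [h0] at hp
      have : x = p := by simpa using hp
      rw [← this] at hxp
      exact G.loopless.irrefl x hxp
    · rw [hB, mem_filter] at ht
      obtain ⟨h2, q, hq, hyq⟩ := ht
      refine ⟨?_, h2⟩
      rintro rfl
      rw [h1] at hq
      have : y = q := by simpa using hq
      rw [← this] at hyq
      exact G.loopless.irrefl y hyq
  have hc1 : A.card + B.card + 2 ≤ k := by
    have h2 := card_le_card hsub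
    rw [card_union_of_disjoint hAB, card_erase_of_mem (mem_range.2 (by omega)), card_range] at h2
    omega
  have hget : ∀ v ∈ M, ∃ i, i < k ∧ M[i]? = some v := by
    intro v hv
    obtain ⟨i, hi, hiv⟩ := List.getElem_of_mem hv
    refine ⟨i, hi, ?_⟩
    rw [List.getElem?_eq_getElem hi, hiv]
  have hcx : (nb G x M.toFinset).card ≤ A.card + 1 := by
    have h2 : nb G x M.toFinset ⊆ (insert (k - 1) A).image (fun t => M.getD t x) := by
      intro v hv
      rw [mem_nb, List.mem_toFinset] at hv
      obtain ⟨i, hi, hiv⟩ := hget v hv.1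
      rw [mem_image]
      refine ⟨i, ?_, ?_⟩
      · rw [mem_insert]
        by_cases h3 : i = k - 1
        · exact Or.inl h3
        · right
          rw [hA, mem_filter, mem_range]
          exact ⟨by omega, v, hiv, hv.2⟩
      · rw [List.getD_eq_getElem?_getD, hiv]
        rfl
    exact (card_le_card h2).trans (card_image_le.trans (card_insert_le _ _))
  have hcy : (nb G y M.toFinset).card ≤ B.card + 1 := by
    have h2 : nb G y M.toFinset ⊆ insert (M.getD 0 x) (B.image (fun t => M.getD (t + 1) x)) := by
      intro v hv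
      rw [mem_nb, List.mem_toFinset] at hv
      obtain ⟨i, hi, hiv⟩ := hget v hv.1
      rw [mem_insert, mem_image]
      rcases Nat.eq_zero_or_pos i with h3 | h3
      · left
        rw [h3] at hiv
        rw [List.getD_eq_getElem?_getD, hiv]
        rfl
      · right
        obtain ⟨j, rfl⟩ : ∃ j, i = j + 1 := ⟨i - 1, by omega⟩
        refine ⟨j, ?_, ?_⟩
        · rw [hB, mem_filter, mem_range]
          exact ⟨by omega, v, hiv, hv.2⟩
        · rw [List.getD_eq_getElem?_getD, hiv]
          rfl
    exact (card_le_card h2).trans ((card_insert_le _ _).trans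
      (Nat.add_le_add_right card_image_le 1))
  have hout : (nb G x (univ \ M.toFinset)).card + (nb G y (univ \ M.toFinset)).card ≤
      (univ \ M.toFinset).card := by
    rw [← card_union_of_disjoint]
    · exact card_le_card (union_subset (fun v hv => (mem_nb.1 hv).1) fun v hv => (mem_nb.1 hv).1)
    · rw [Finset.disjoint_left]
      intro v hv hv'
      rw [mem_nb] at hv hv'
      have h2 : v ∉ M := by
        have := (mem_sdiff.1 hv.1).2
        rwa [List.mem_toFinset] at this
      exact hno v h2 ⟨hv.2, hv'.2⟩
  have hMc : M.toFinset.card = k := List.toFinset_card_of_nodup hM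
  have houtc : (univ \ M.toFinset).card + k = Fintype.card V := by
    have := card_sdiff_add_card_eq_card (subset_univ M.toFinset)
    rwa [hMc, card_univ] at this
  have hd : ∀ v : V, dg G v ≤ (nb G v M.toFinset).card + (nb G v (univ \ M.toFinset)).card := by
    intro v
    unfold dg
    refine (card_le_card ?_).trans (card_union_le _ _)
    intro w hw
    rw [mem_nb] at hw
    rw [mem_union, mem_nb, mem_nb, mem_sdiff]
    by_cases h2 : w ∈ M.toFinset
    · exact Or.inl ⟨h2, hw.2⟩
    · exact Or.inr ⟨⟨mem_univ w, h2⟩, hw.2⟩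
  have h2 := hd x
  have h3 := hd y
  rw [mem_big] at hx hy
  omega

/-- Reversal of the middle part of a list. -/
private theorem rep_mid [Fintype V] [DecidableEq V] (G : SimpleGraph V) (n : ℕ) (c r e : List V)
    (α β γ δ : V) (h1 : c.getLast? = some α) (h2 : r.head? = some β) (h3 : r.getLast? = some γ)
    (h4 : e.head? = some δ) (h5 : G.Adj α γ) (h6 : G.Adj β δ)
    (h7 : ¬ G.Adj α β ∨ ¬ G.Adj γ δ) (hM : (c ++ r ++ e).Nodup) (hL : LG G n (c ++ r ++ e)) :
    ∃ M' : List V, M'.Nodup ∧ LG G n M' ∧ miss G M' < miss G (c ++ r ++ e) ∧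
      M'.length ≤ (c ++ r ++ e).length + 1 ∧ (∀ v ∈ c ++ r ++ e, v ∈ M') ∧
      M'.head? = (c ++ r ++ e).head? ∧ M'.getLast? = (c ++ r ++ e).getLast? := by
  have hcne : c ≠ [] := by
    rintro rfl
    simp at h1
  have hrne : r ≠ [] := by
    rintro rfl
    simp at h2
  have hene : e ≠ [] := by
    rintro rfl
    simp at h4
  have hrr1 : r.reverse.head? = some γ := by rw [List.head?_reverse, h3]
  have hrr2 : r.reverse.getLast? = some β := by rw [List.getLast?_reverse, h2]
  have hlast : (c ++ r.reverse).getLast? = some β := by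
    rw [List.getLast?_append_of_ne_nil _ (by simpa using hrne), hrr2]
  have hlast' : (c ++ r).getLast? = some γ := by
    rw [List.getLast?_append_of_ne_nil _ hrne, h3]
  refine ⟨c ++ r.reverse ++ e, ?_, ?_, ?_, ?_, ?_, ?_, ?_⟩
  · refine (List.Perm.nodup_iff ?_).1 hM
    exact List.Perm.append_right e (List.Perm.append_left c (List.reverse_perm r).symm)
  · unfold LG at hL ⊢
    rw [List.isChain_append, List.isChain_append] at hL ⊢
    obtain ⟨⟨hc, hr, -⟩, he, -⟩ := hL
    refine ⟨⟨hc, ?_, ?_⟩, he, ?_⟩
    · rw [List.isChain_reverse]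
      refine hr.imp fun a b hab => ?_
      rcases hab with hab | hab
      · exact Or.inl hab.symm
      · exact Or.inr ⟨hab.2, hab.1⟩
    · intro a ha b hb
      rw [h1] at ha
      rw [hrr1] at hb
      simp only [Option.mem_def, Option.some.injEq] at ha hb
      rw [← ha, ← hb]
      exact Or.inl h5
    · intro a ha b hb
      rw [hlast] at ha
      rw [h4] at hb
      simp only [Option.mem_def, Option.some.injEq] at ha hb
      rw [← ha, ← hb]
      exact Or.inl h6
  · have e1 : miss G (c ++ r.reverse ++ e) = miss G c + miss G r + miss G e := by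
      rw [miss_append G _ _ β δ hlast h4 h6, miss_append G _ _ α γ h1 hrr1 h5, miss_reverse]
    have e2 : miss G c + miss G r + miss G e + 1 ≤ miss G (c ++ r ++ e) := by
      rcases h7 with h7 | h7
      · rw [List.append_assoc, miss_append_not G c (r ++ e) α β h1
          (by rw [List.head?_append_of_ne_nil _ hrne, h2]) h7]
        have := miss_append_le G r e
        omega
      · rw [miss_append_not G (c ++ r) e γ δ hlast' h4 h7]
        have := miss_append_le G c r
        omega
    omega
  · simp
  · intro v hv
    simp only [List.mem_append, List.mem_reverse] at hv ⊢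
    exact hv
  · rw [List.append_assoc, List.append_assoc, List.head?_append_of_ne_nil _ hcne,
      List.head?_append_of_ne_nil _ hcne]
  · rw [List.getLast?_append_of_ne_nil _ hene, List.getLast?_append_of_ne_nil _ hene]

theorem repairM [Fintype V] [DecidableEq V] (G : SimpleGraph V) (n : ℕ)
    (hV : Fintype.card V + 1 = 2 * n) (M : List V) (hM : M.Nodup) (hL : LG G n M)
    (hm : 0 < miss G M) :
    ∃ M' : List V, M'.Nodup ∧ LG G n M' ∧ miss G M' < miss G M ∧ M'.length ≤ M.length + 1 ∧
      (∀ v ∈ M, v ∈ M') ∧ M'.head? = M.head? ∧ M'.getLast? = M.getLast? := by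
  obtain ⟨l1, l2, x, y, rfl, h1, h2, hxy⟩ := exists_miss G M hm
  have hl1 : l1 ≠ [] := by
    rintro rfl
    simp at h1
  have hl2 : l2 ≠ [] := by
    rintro rfl
    simp at h2
  have hl1' : 0 < l1.length := List.length_pos_of_ne_nil hl1
  have hL' := hL
  unfold LG at hL'
  rw [List.isChain_append] at hL'
  obtain ⟨hc1, hc2, hc3⟩ := hL'
  have hhub : x ∈ big G n ∧ y ∈ big G n := by
    rcases hc3 x (by rw [h1]; rfl) y (by rw [h2]; rfl) with h | h
    · exact absurd h hxy
    · exact h
  by_cases hz : ∃ z, z ∉ l1 ++ l2 ∧ G.Adj x z ∧ G.Adj y z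
  · obtain ⟨z, hzM, hxz, hyz⟩ := hz
    refine ⟨l1 ++ z :: l2, ?_, ?_, ?_, ?_, ?_, ?_, ?_⟩
    · have hp : (l1 ++ z :: l2).Perm (z :: (l1 ++ l2)) := List.perm_middle
      rw [hp.nodup_iff, List.nodup_cons]
      exact ⟨hzM, hM⟩
    · unfold LG
      rw [List.isChain_append]
      refine ⟨hc1, ?_, ?_⟩
      · rw [List.isChain_cons]
        refine ⟨?_, hc2⟩
        intro b hb
        rw [h2] at hb
        simp only [Option.mem_def, Option.some.injEq] at hb
        rw [← hb]
        exact Or.inl hyz.symm
      · intro a ha b hb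
        rw [h1] at ha
        rw [List.head?_cons] at hb
        simp only [Option.mem_def, Option.some.injEq] at ha hb
        rw [← ha, ← hb]
        exact Or.inl hxz
    · have e1 : miss G (l1 ++ z :: l2) = miss G l1 + miss G (z :: l2) :=
        miss_append G _ _ x z h1 rfl hxz
      have e2 : miss G (z :: l2) = miss G [z] + miss G l2 := by
        have := miss_append G [z] l2 z y rfl h2 hyz.symm
        exact this
      have e3 : miss G [z] = 0 := by
        unfold miss
        rfl
      have e4 := miss_append_not G l1 l2 x y h1 h2 hxy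
      omega
    · simp only [List.length_append, List.length_cons]
      omega
    · intro v hv
      rw [List.mem_append, List.mem_cons]
      rw [List.mem_append] at hv
      tauto
    · rw [List.head?_append_of_ne_nil _ hl1, List.head?_append_of_ne_nil _ hl1]
    · rw [List.getLast?_append_of_ne_nil _ (List.cons_ne_nil z l2),
        List.getLast?_append_of_ne_nil _ hl2, List.getLast?_cons_of_ne_nil hl2]
  · have hno : ∀ z, z ∉ l1 ++ l2 → ¬ (G.Adj x z ∧ G.Adj y z) := fun z h3 h4 => hz ⟨z, h3, h4⟩
    have g0 : (l1 ++ l2)[l1.length - 1]? = some x := by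
      rw [List.getElem?_append_left (by omega), ← List.getLast?_eq_getElem?, h1]
    have g1 : (l1 ++ l2)[l1.length - 1 + 1]? = some y := by
      have : l1.length - 1 + 1 = l1.length := by omega
      rw [this, List.getElem?_append_right (le_refl _), Nat.sub_self, ← List.head?_eq_getElem?, h2]
    obtain ⟨t, p, q, ht, hp, hq, hxp, hyq⟩ := rep_cross G n hV (l1 ++ l2) hM x y hhub.1 hhub.2 hno
      (l1.length - 1) g0 g1 hxy
    rcases Nat.lt_or_ge (t + 1) l1.length with h3 | h3
    · -- the crossing is in the first part
      have e1 : l1.take (t + 1) ++ l1.drop (t + 1) = l1 := List.take_append_drop _ _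
      have e2 : l1.take (t + 1) ++ l1.drop (t + 1) ++ l2 = l1 ++ l2 := by rw [e1]
      rw [← e2]
      rw [← e2] at hM hL
      have hp' : l1[t]? = some p := by
        rwa [List.getElem?_append_left (by omega)] at hp
      have hq' : l1[t + 1]? = some q := by
        rwa [List.getElem?_append_left (by omega)] at hq
      refine rep_mid G n _ _ _ p q x y ?_ ?_ ?_ h2 hxp.symm hyq.symm (Or.inr hxy) hM hL
      · rw [List.getLast?_take, if_neg (by omega), Nat.add_sub_cancel, hp']
        rfl
      · rw [List.head?_drop, hq']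
      · rw [List.getLast?_drop, if_neg (by omega), h1]
    · -- the crossing is in the second part
      have h4 : l1.length ≤ t := by omega
      obtain ⟨s, rfl⟩ : ∃ s, t = l1.length + s := ⟨t - l1.length, by omega⟩
      have hp' : l2[s]? = some p := by
        rwa [List.getElem?_append_right (by omega), Nat.add_sub_cancel_left] at hp
      have hq' : l2[s + 1]? = some q := by
        rw [List.getElem?_append_right (by omega)] at hq
        have : l1.length + s + 1 - l1.length = s + 1 := by omega
        rwa [this] at hq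
      have e1 : l2.take (s + 1) ++ l2.drop (s + 1) = l2 := List.take_append_drop _ _
      have e2 : l1 ++ l2.take (s + 1) ++ l2.drop (s + 1) = l1 ++ l2 := by
        rw [List.append_assoc, e1]
      rw [← e2]
      rw [← e2] at hM hL
      refine rep_mid G n _ _ _ x y p q h1 ?_ ?_ ?_ hxp hyq (Or.inl hxy) hM hL
      · rw [List.head?_take, if_neg (by omega), h2]
      · rw [List.getLast?_take, if_neg (by omega), Nat.add_sub_cancel, hp']
        rfl
      · rw [List.head?_drop, hq']

theorem repair [Fintype V] [DecidableEq V] (G : SimpleGraph V) (n : ℕ)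
    (hV : Fintype.card V + 1 = 2 * n) (a b x y : V) (l1 l2 : List V) (h1 : PL G a x l1)
    (h2 : PL G y b l2) (hd : (l1 ++ l2).Nodup) (hx : x ∈ big G n) (hy : y ∈ big G n) :
    ∃ l : List V, PL G a b l ∧ (∀ v ∈ l1 ++ l2, v ∈ l) ∧
      l.length ≤ l1.length + l2.length + 1 := by
  have m1 : miss G l1 = 0 := (miss_eq_zero G l1).2 h1.chain
  have m2 : miss G l2 = 0 := (miss_eq_zero G l2).2 h2.chain
  by_cases hxy : G.Adj x y
  · refine ⟨l1 ++ l2, h1.append h2 hxy hd, fun v hv => hv, ?_⟩
    rw [List.length_append]
    omega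
  · have hm := miss_append_not G l1 l2 x y h1.last h2.head hxy
    have hL : LG G n (l1 ++ l2) := by
      unfold LG
      rw [List.isChain_append]
      refine ⟨h1.chain.imp fun _ _ h => Or.inl h, h2.chain.imp fun _ _ h => Or.inl h, ?_⟩
      intro c hc d hd'
      rw [h1.last] at hc
      rw [h2.head] at hd'
      simp only [Option.mem_def, Option.some.injEq] at hc hd'
      rw [← hc, ← hd']
      exact Or.inr ⟨hx, hy⟩
    obtain ⟨M', h3, _, h5, h6, h7, h8, h9⟩ := repairM G n hV (l1 ++ l2) hd hL (by omega)
    refine ⟨M', ⟨?_, h3, ?_, ?_⟩, h7, ?_⟩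
    · exact (miss_eq_zero G M').1 (by omega)
    · rw [h8, List.head?_append_of_ne_nil _ h1.ne, h1.head]
    · rw [h9, List.getLast?_append_of_ne_nil _ h2.ne, h2.last]
    · rw [List.length_append] at h6
      exact h6

end Pool.Agent.Lib.MP_0e31aa_co.HH
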