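import Pool.Agent.Lib.MP_0e31aa_co.HH.Cut
import Pool.Agent.Lib.MP_0e31aa_co.HH.Good
import Pool.Agent.Lib.MP_0e31aa_co.HH.Comp
import Pool.Agent.Lib.MP_0e31aa_co.HH.Repair

/-!
Module CompB (75 min): a connected set `K` outside the cycle, containing a hub.
 * b1: `w ∈ K` a hub, `f i` adjacent to `K`: `f (i+1)` is not a hub. Otherwise take a good `g ≠ i`, `cut2` with `i`, `g`:
   `D1` from `f (i+1)` to `f g`, `D2` from `f (g+1)` to `f i`; `Kp` path in `K` from a neighbour of `f i` to `w`. `repair` with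
   `l1 = D2 ++ Kp` (ends at the hub `w`) and `l2 = D1` (starts at the hub `f (i+1)`) gives a path from `f (g+1)` to
   `f g` containing `vs` and `w`: against `noext`.
 * b2: `f i`, `f j` adjacent to `K`, `i ≠ j`, `f (i+1)`, `f (j+1)` not hubs: `f (i+1)` and `f (j+1)` are not adjacent.
   Otherwise take any good `g` (`g ≠ i`, `g ≠ j`), `cut3`; by symmetry `D1` from `f (i+1)` to `f g`, `D2` from `f (g+1)` to
   `f j`, `D3` from `f (j+1)` to `f i`. With `Kp` from a neighbour of `f j` to a neighbour of `f i`: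
   `D2 ++ Kp ++ reverse D3 ++ D1` is a path from `f (g+1)` to `f g` longer than `c` containing `vs`.
-/

set_option autoImplicit false

namespace Pool.Agent.Lib.MP_0e31aa_co.HH

open Finset
open Pool.Agent.Lib.MP_0e31aa_co.TC (nb mem_nb Emb HasCyc Bip Pth)
open Pool.Agent.Lib.MP_0e31aa_co.H (dg big mem_big inner mem_inner FPath FCyc dg_compl)

variable {V W : Type}

theorem CompB_nodup [DecidableEq V] {K S : Finset V} (hd : Disjoint K S) {Kp D : List V}
    (h1 : Kp.Nodup) (h2 : D.Nodup) (h3 : ∀ v ∈ Kp, v ∈ K) (h4 : ∀ v ∈ D, v ∈ S) :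
    (Kp ++ D).Nodup := by
  rw [List.nodup_append]
  refine ⟨h1, h2, ?_⟩
  intro a ha b hb hab
  subst hab
  exact (Finset.disjoint_left.1 hd) (h3 a ha) (h4 a hb)

theorem b1 [Fintype V] [DecidableEq V] (G : SimpleGraph V) (n m c : ℕ)
    (hV : Fintype.card V + 1 = 2 * n) (f : ℕ → V) (h : MaxC G n m c f) (K : Finset V)
    (hK : Conn G K) (hd : Disjoint K (vs c f)) (w : V) (hw : w ∈ K) (hwL : w ∈ big G n) (i : ℕ)
    (hi : i < c) (h1 : To G K (f i)) : f ((i + 1) % c) ∉ big G n := by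
  intro hhub
  obtain ⟨g, hg, hgi, hgood⟩ := other_good G n m c f h i
  obtain ⟨D1, D2, hD1, hD2, hnd, hmem, hlen⟩ := cut2 G c h.three f h.cyc i g hi hg hgi.symm
  obtain ⟨k, hk, hadj⟩ := h1
  obtain ⟨Kp, hKp, hKpK⟩ := conn_path G K hK k w hk hw
  have hall : (Kp ++ (D1 ++ D2)).Nodup :=
    CompB_nodup hd hKp.nodup hnd hKpK fun v hv => (hmem v).1 hv
  have hperm : (D2 ++ Kp ++ D1).Perm (Kp ++ (D1 ++ D2)) := by
    rw [List.perm_iff_count]
    intro a
    simp only [List.count_append]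
    omega
  have hnd3 : (D2 ++ Kp ++ D1).Nodup := hperm.nodup_iff.2 hall
  have hnd2 : (D2 ++ Kp).Nodup := (List.nodup_append.1 hnd3).1
  have hl1 : PL G (f ((g + 1) % c)) w (D2 ++ Kp) := hD2.append hKp hadj hnd2
  obtain ⟨l, hl, hlmem, _⟩ := repair G n hV _ _ _ _ _ _ hl1 hD1 hnd3 hwL hhub
  have hvs : ∀ v ∈ vs c f, v ∈ l := by
    intro v hv
    apply hlmem
    have h2 := (hmem v).2 hv
    rw [List.mem_append] at h2
    rw [List.mem_append, List.mem_append]
    rcases h2 with h2 | h2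
    · exact Or.inr h2
    · exact Or.inl (Or.inl h2)
  have hwl : w ∈ l := by
    apply hlmem
    rw [List.mem_append, List.mem_append]
    exact Or.inl (Or.inr (List.mem_of_getLast? hKp.last))
  have hle := h.noext g hg hgood l hl hvs
  have hwvs : w ∉ vs c f := fun h2 => (Finset.disjoint_left.1 hd) hw h2
  have hsub : insert w (vs c f) ⊆ l.toFinset := by
    intro v hv
    rw [List.mem_toFinset]
    rcases Finset.mem_insert.1 hv with rfl | hv
    · exact hwl
    · exact hvs v hv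
  have h3 := Finset.card_le_card hsub
  rw [Finset.card_insert_of_notMem hwvs, card_vs G n m c f h] at h3
  have h4 := List.toFinset_card_le l
  omega

theorem CompB_aux [Fintype V] [DecidableEq V] (G : SimpleGraph V) (n m c : ℕ) (f : ℕ → V)
    (h : MaxC G n m c f) (K : Finset V) (hK : Conn G K) (hd : Disjoint K (vs c f)) (i j g : ℕ)
    (hg : g < c) (hgood : Gd G n c f g) (h1 : To G K (f i)) (h2 : To G K (f j))
    (hadj : G.Adj (f ((i + 1) % c)) (f ((j + 1) % c))) (D1 D2 D3 : List V)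
    (hD1 : PL G (f ((i + 1) % c)) (f g) D1) (hD2 : PL G (f ((g + 1) % c)) (f j) D2)
    (hD3 : PL G (f ((j + 1) % c)) (f i) D3) (hnd : (D1 ++ D2 ++ D3).Nodup)
    (hmem : ∀ v, v ∈ D1 ++ D2 ++ D3 ↔ v ∈ vs c f)
    (hlen : D1.length + D2.length + D3.length = c) : False := by
  obtain ⟨ki, hki, hai⟩ := h1
  obtain ⟨kj, hkj, haj⟩ := h2
  obtain ⟨Kp, hKp, hKpK⟩ := conn_path G K hK kj ki hkj hki
  have hall : (Kp ++ (D1 ++ D2 ++ D3)).Nodup :=
    CompB_nodup hd hKp.nodup hnd hKpK fun v hv => (hmem v).1 hv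
  have hperm : (D2 ++ Kp ++ D3.reverse ++ D1).Perm (Kp ++ (D1 ++ D2 ++ D3)) := by
    rw [List.perm_iff_count]
    intro a
    simp only [List.count_append, List.count_reverse]
    omega
  have hnd4 : (D2 ++ Kp ++ D3.reverse ++ D1).Nodup := hperm.nodup_iff.2 hall
  have hnd3 : (D2 ++ Kp ++ D3.reverse).Nodup := (List.nodup_append.1 hnd4).1
  have hnd2 : (D2 ++ Kp).Nodup := (List.nodup_append.1 hnd3).1
  have hl1 : PL G (f ((g + 1) % c)) ki (D2 ++ Kp) := hD2.append hKp haj hnd2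
  have hl2 : PL G (f ((g + 1) % c)) (f ((j + 1) % c)) (D2 ++ Kp ++ D3.reverse) :=
    hl1.append hD3.symm hai.symm hnd3
  have hl3 : PL G (f ((g + 1) % c)) (f g) (D2 ++ Kp ++ D3.reverse ++ D1) :=
    hl2.append hD1 hadj.symm hnd4
  have hle := h.noext g hg hgood _ hl3 (by
    intro v hv
    have h3 := (hmem v).2 hv
    rw [List.mem_append, List.mem_append] at h3
    rw [List.mem_append, List.mem_append, List.mem_append, List.mem_reverse]
    rcases h3 with (h3 | h3) | h3
    · exact Or.inr h3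
    · exact Or.inl (Or.inl (Or.inl h3))
    · exact Or.inl (Or.inr h3))
  have hpos : 0 < Kp.length := List.length_pos_iff.2 hKp.ne
  rw [List.length_append, List.length_append, List.length_append, List.length_reverse] at hle
  omega

theorem b2 [Fintype V] [DecidableEq V] (G : SimpleGraph V) (n m c : ℕ) (f : ℕ → V)
    (h : MaxC G n m c f) (K : Finset V) (hK : Conn G K) (hd : Disjoint K (vs c f)) (i j : ℕ)
    (hi : i < c) (hj : j < c) (hij : i ≠ j) (h1 : To G K (f i)) (h2 : To G K (f j))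
    (h3 : f ((i + 1) % c) ∉ big G n) (h4 : f ((j + 1) % c) ∉ big G n) :
    ¬ G.Adj (f ((i + 1) % c)) (f ((j + 1) % c)) := by
  intro hadj
  obtain ⟨g, hg, _, _, _, hgood, _⟩ := two_good G n m c f h
  have hgi : g ≠ i := by
    rintro rfl
    exact h3 hgood.2
  have hgj : g ≠ j := by
    rintro rfl
    exact h4 hgood.2
  rcases cut3 G c h.three f h.cyc i j g hi hj hg hij hgi hgj with
    ⟨D1, D2, D3, hD1, hD2, hD3, hnd, hmem, hlen⟩ | ⟨D1, D2, D3, hD1, hD2, hD3, hnd, hmem, hlen⟩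
  · exact CompB_aux G n m c f h K hK hd i j g hg hgood h1 h2 hadj D1 D2 D3 hD1 hD2 hD3 hnd hmem hlen
  · exact CompB_aux G n m c f h K hK hd j i g hg hgood h2 h1 hadj.symm D1 D2 D3 hD1 hD2 hD3 hnd hmem
      hlen

end Pool.Agent.Lib.MP_0e31aa_co.HH
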