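import Pool.Agent.Lib.MP_0e31aa_co.HH.Defs
import Pool.Agent.Lib.MP_0e31aa_co.H.FC

/-!
Module Cut (75 min): cutting a cycle `f 0, ..., f (c - 1)` after two or three of its vertices into paths
(lists). The list `[f (i+1), ..., f j]` (indices mod `c`) is the image of a range. For `cut3`: the cyclic
order of `i`, `g`, `j` is either `i, g, j` (first alternative) or `j, g, i` (second alternative).
-/

set_option autoImplicit false

namespace Pool.Agent.Lib.MP_0e31aa_co.HH

open Finset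
open Pool.Agent.Lib.MP_0e31aa_co.TC (nb mem_nb Emb HasCyc Bip Pth)
open Pool.Agent.Lib.MP_0e31aa_co.H (dg big mem_big inner mem_inner FPath FCyc dg_compl)

variable {V W : Type}

/-- the segment of length `L` from `s` -/
private def Cut_seg (c : ℕ) (f : ℕ → V) (s L : ℕ) : List V :=
  (List.range L).map fun k => f ((s + k) % c)

private theorem Cut_len (c : ℕ) (f : ℕ → V) (s L : ℕ) : (Cut_seg c f s L).length = L := by
  unfold Cut_seg
  rw [List.length_map, List.length_range]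

private theorem Cut_app (c : ℕ) (f : ℕ → V) (s L L' : ℕ) :
    Cut_seg c f s L ++ Cut_seg c f (s + L) L' = Cut_seg c f s (L + L') := by
  unfold Cut_seg
  rw [List.range_add, List.map_append, List.map_map]
  congr 1
  refine List.map_congr_left fun k _ => ?_
  change f ((s + L + k) % c) = f ((s + (L + k)) % c)
  rw [add_assoc]

private theorem Cut_mod {c a j : ℕ} (hj : j < c) (h : a = j ∨ a = j + c) : a % c = j := by
  rcases h with h | h
  · rw [h, Nat.mod_eq_of_lt hj]
  · rw [h, Nat.add_mod_right, Nat.mod_eq_of_lt hj]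

private theorem Cut_off (c i j : ℕ) (hi : i < c) (hj : j < c) (hij : i ≠ j) :
    ∃ L, 1 ≤ L ∧ L < c ∧ (i + L = j ∨ i + L = j + c) := by
  rcases Nat.lt_or_gt_of_ne hij with h | h
  · exact ⟨j - i, by omega, by omega, by omega⟩
  · exact ⟨j + c - i, by omega, by omega, by omega⟩

private theorem Cut_modinj {c a b : ℕ} (h : a % c = b % c) (hab : a < b) : a + c ≤ b := by
  have h1 : c ∣ b - a := (Nat.modEq_iff_dvd' hab.le).1 h
  have h2 := Nat.le_of_dvd (by omega) h1
  omega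

private theorem Cut_nodup (G : SimpleGraph V) (c : ℕ) (hc : 3 ≤ c) (f : ℕ → V)
    (hf : FCyc G c f) (s L : ℕ) (hL : L ≤ c) : (Cut_seg c f s L).Nodup := by
  unfold Cut_seg
  refine (List.nodup_range).map_on ?_
  intro x hx y hy hxy
  rw [List.mem_range] at hx hy
  have h1 := hf.inj _ (Nat.mod_lt _ (by omega)) _ (Nat.mod_lt _ (by omega)) hxy
  rcases Nat.lt_trichotomy x y with h | h | h
  · have := Cut_modinj h1 (by omega)
    omega
  · exact h
  · have := Cut_modinj h1.symm (by omega)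
    omega

private theorem Cut_mem [DecidableEq V] (c : ℕ) (hc : 0 < c) (f : ℕ → V) (s : ℕ) (v : V) :
    v ∈ Cut_seg c f s c ↔ v ∈ vs c f := by
  rw [mem_vs]
  unfold Cut_seg
  rw [List.mem_map]
  constructor
  · rintro ⟨k, -, hk⟩
    exact ⟨(s + k) % c, Nat.mod_lt _ hc, hk⟩
  · rintro ⟨i, hi, hk⟩
    refine ⟨(i + c - s % c) % c, ?_, ?_⟩
    · rw [List.mem_range]
      exact Nat.mod_lt _ hc
    · rw [← hk]
      congr 1
      have h1 : s % c < c := Nat.mod_lt _ hc
      rw [Nat.add_mod_mod, ← Nat.mod_add_mod,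
        show s % c + (i + c - s % c) = i + c by omega, Nat.add_mod_right, Nat.mod_eq_of_lt hi]

private theorem Cut_PL (G : SimpleGraph V) (c : ℕ) (hc : 3 ≤ c) (f : ℕ → V)
    (hf : FCyc G c f) (s L : ℕ) (hL1 : 1 ≤ L) (hL : L ≤ c) :
    PL G (f (s % c)) (f ((s + L - 1) % c)) (Cut_seg c f s L) := by
  refine ⟨?_, Cut_nodup G c hc f hf s L hL, ?_, ?_⟩
  · unfold Cut_seg
    rw [List.isChain_iff_getElem]
    intro k hk
    rw [List.getElem_map, List.getElem_map, List.getElem_range, List.getElem_range]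
    exact H.FCyc.fc_step (by omega) hf (s + k)
  · unfold Cut_seg
    obtain ⟨M, rfl⟩ : ∃ M, L = M + 1 := ⟨L - 1, by omega⟩
    rw [List.range_succ_eq_map]
    rfl
  · unfold Cut_seg
    obtain ⟨M, rfl⟩ : ∃ M, L = M + 1 := ⟨L - 1, by omega⟩
    rw [List.range_succ, List.map_append, List.getLast?_append]
    rfl

theorem cut2 [DecidableEq V] (G : SimpleGraph V) (c : ℕ) (hc : 3 ≤ c) (f : ℕ → V)
    (hf : FCyc G c f) (i j : ℕ) (hi : i < c) (hj : j < c) (hij : i ≠ j) :
    ∃ D1 D2 : List V, PL G (f ((i + 1) % c)) (f j) D1 ∧ PL G (f ((j + 1) % c)) (f i) D2 ∧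
      (D1 ++ D2).Nodup ∧ (∀ v, v ∈ D1 ++ D2 ↔ v ∈ vs c f) ∧ D1.length + D2.length = c := by
  obtain ⟨L, hL1, hL2, hL3⟩ := Cut_off c i j hi hj hij
  refine ⟨Cut_seg c f (i + 1) L, Cut_seg c f (i + 1 + L) (c - L), ?_, ?_, ?_, ?_, ?_⟩
  · have h := Cut_PL G c hc f hf (i + 1) L hL1 hL2.le
    have e : (i + 1 + L - 1) % c = j := Cut_mod hj (by omega)
    rw [e] at h
    exact h
  · have h := Cut_PL G c hc f hf (i + 1 + L) (c - L) (by omega) (by omega)
    have e : (i + 1 + L + (c - L) - 1) % c = i := Cut_mod hi (by omega)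
    have e2 : (i + 1 + L) % c = (j + 1) % c := by
      rcases hL3 with h1 | h1
      · rw [show i + 1 + L = j + 1 by omega]
      · rw [show i + 1 + L = j + 1 + c by omega, Nat.add_mod_right]
    rw [e, e2] at h
    exact h
  · rw [Cut_app, show L + (c - L) = c by omega]
    exact Cut_nodup G c hc f hf _ _ le_rfl
  · intro v
    rw [Cut_app, show L + (c - L) = c by omega]
    exact Cut_mem c (by omega) f _ v
  · rw [Cut_len, Cut_len]
    omega

private theorem Cut_three [DecidableEq V] (G : SimpleGraph V) (c : ℕ) (hc : 3 ≤ c) (f : ℕ → V)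
    (hf : FCyc G c f) (i j g : ℕ) (hi : i < c) (hj : j < c) (hg : g < c) (La Lb : ℕ)
    (h1 : 1 ≤ La) (h2 : La < Lb) (h3 : Lb < c) (hga : i + La = g ∨ i + La = g + c)
    (hjb : i + Lb = j ∨ i + Lb = j + c) :
    ∃ D1 D2 D3 : List V, PL G (f ((i + 1) % c)) (f g) D1 ∧ PL G (f ((g + 1) % c)) (f j) D2 ∧
      PL G (f ((j + 1) % c)) (f i) D3 ∧ (D1 ++ D2 ++ D3).Nodup ∧
      (∀ v, v ∈ D1 ++ D2 ++ D3 ↔ v ∈ vs c f) ∧ D1.length + D2.length + D3.length = c := by
  refine ⟨Cut_seg c f (i + 1) La, Cut_seg c f (i + 1 + La) (Lb - La),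
    Cut_seg c f (i + 1 + Lb) (c - Lb), ?_, ?_, ?_, ?_, ?_, ?_⟩
  · have h := Cut_PL G c hc f hf (i + 1) La h1 (by omega)
    have e : (i + 1 + La - 1) % c = g := Cut_mod hg (by omega)
    rw [e] at h
    exact h
  · have h := Cut_PL G c hc f hf (i + 1 + La) (Lb - La) (by omega) (by omega)
    have e : (i + 1 + La + (Lb - La) - 1) % c = j := Cut_mod hj (by omega)
    have e2 : (i + 1 + La) % c = (g + 1) % c := by
      rcases hga with h1 | h1
      · rw [show i + 1 + La = g + 1 by omega]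
      · rw [show i + 1 + La = g + 1 + c by omega, Nat.add_mod_right]
    rw [e, e2] at h
    exact h
  · have h := Cut_PL G c hc f hf (i + 1 + Lb) (c - Lb) (by omega) (by omega)
    have e : (i + 1 + Lb + (c - Lb) - 1) % c = i := Cut_mod hi (by omega)
    have e2 : (i + 1 + Lb) % c = (j + 1) % c := by
      rcases hjb with h1 | h1
      · rw [show i + 1 + Lb = j + 1 by omega]
      · rw [show i + 1 + Lb = j + 1 + c by omega, Nat.add_mod_right]
    rw [e, e2] at h
    exact h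
  · rw [Cut_app, show La + (Lb - La) = Lb by omega, Cut_app, show Lb + (c - Lb) = c by omega]
    exact Cut_nodup G c hc f hf _ _ le_rfl
  · intro v
    rw [Cut_app, show La + (Lb - La) = Lb by omega, Cut_app, show Lb + (c - Lb) = c by omega]
    exact Cut_mem c (by omega) f _ v
  · rw [Cut_len, Cut_len, Cut_len]
    omega

theorem cut3 [DecidableEq V] (G : SimpleGraph V) (c : ℕ) (hc : 3 ≤ c) (f : ℕ → V)
    (hf : FCyc G c f) (i j g : ℕ) (hi : i < c) (hj : j < c) (hg : g < c) (hij : i ≠ j)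
    (hgi : g ≠ i) (hgj : g ≠ j) :
    (∃ D1 D2 D3 : List V, PL G (f ((i + 1) % c)) (f g) D1 ∧ PL G (f ((g + 1) % c)) (f j) D2 ∧
      PL G (f ((j + 1) % c)) (f i) D3 ∧ (D1 ++ D2 ++ D3).Nodup ∧
      (∀ v, v ∈ D1 ++ D2 ++ D3 ↔ v ∈ vs c f) ∧ D1.length + D2.length + D3.length = c) ∨
    (∃ D1 D2 D3 : List V, PL G (f ((j + 1) % c)) (f g) D1 ∧ PL G (f ((g + 1) % c)) (f i) D2 ∧
      PL G (f ((i + 1) % c)) (f j) D3 ∧ (D1 ++ D2 ++ D3).Nodup ∧
      (∀ v, v ∈ D1 ++ D2 ++ D3 ↔ v ∈ vs c f) ∧ D1.length + D2.length + D3.length = c) := by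
  obtain ⟨La, ha1, ha2, ha3⟩ := Cut_off c i g hi hg hgi.symm
  obtain ⟨Lb, hb1, hb2, hb3⟩ := Cut_off c i j hi hj hij
  have hne : La ≠ Lb := by
    intro h
    apply hgj
    omega
  rcases Nat.lt_or_gt_of_ne hne with h | h
  · exact Or.inl (Cut_three G c hc f hf i j g hi hj hg La Lb ha1 h hb2 ha3 hb3)
  · refine Or.inr (Cut_three G c hc f hf j i g hj hi hg (La - Lb) (c - Lb) (by omega) (by omega)
      (by omega) (by omega) (by omega))

end Pool.Agent.Lib.MP_0e31aa_co.HH
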