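import Pool.Agent.Lib.MP_0e31aa_co.H.Defs

/-!
# Few hubs suffice: definitions

`G` is the blue graph on `2 n - 1` vertices, a hub is a vertex of blue degree at least `n`
(`big G n`); all other vertices have red degree at least `n - 1`.
-/

set_option autoImplicit false

namespace Pool.Agent.Lib.MP_0e31aa_co.HH

open Finset
open Pool.Agent.Lib.MP_0e31aa_co.TC (nb mem_nb Emb HasCyc Bip Pth)
open Pool.Agent.Lib.MP_0e31aa_co.H (dg big mem_big inner mem_inner FPath FCyc)

variable {V W : Type}

/-- `l` is the vertex list of a path of `G` from `a` to `b`. -/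
structure PL (G : SimpleGraph V) (a b : V) (l : List V) : Prop where
  chain : l.IsChain G.Adj
  nodup : l.Nodup
  head : l.head? = some a
  last : l.getLast? = some b

theorem PL.ne {G : SimpleGraph V} {a b : V} {l : List V} (h : PL G a b l) : l ≠ [] := by
  rintro rfl
  simpa using h.head

theorem PL.cyc {G : SimpleGraph V} {a b : V} {l : List V} (h : PL G a b l) (hab : G.Adj b a) :
    HasCyc G l.length := by
  refine ⟨l, rfl, h.chain, h.nodup, h.ne, ?_⟩
  have h1 := h.head
  have h2 := h.last
  rw [List.head?_eq_some_head h.ne] at h1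
  rw [List.getLast?_eq_getLast_of_ne_nil h.ne] at h2
  simp only [Option.some.injEq] at h1 h2
  rw [h1, h2]
  exact hab

theorem PL.symm {G : SimpleGraph V} {a b : V} {l : List V} (h : PL G a b l) :
    PL G b a l.reverse := by
  refine ⟨?_, List.nodup_reverse.2 h.nodup, ?_, ?_⟩
  · rw [List.isChain_reverse]
    exact h.chain.imp fun x y hxy => hxy.symm
  · rw [List.head?_reverse]; exact h.last
  · rw [List.getLast?_reverse]; exact h.head

theorem PL.append {G : SimpleGraph V} {a b c d : V} {l l' : List V} (h : PL G a b l)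
    (h' : PL G c d l') (hbc : G.Adj b c) (hd : (l ++ l').Nodup) : PL G a d (l ++ l') := by
  refine ⟨?_, hd, ?_, ?_⟩
  · rw [List.isChain_append]
    refine ⟨h.chain, h'.chain, ?_⟩
    intro x hx y hy
    rw [h.last] at hx
    rw [h'.head] at hy
    simp only [Option.mem_def, Option.some.injEq] at hx hy
    rw [← hx, ← hy]
    exact hbc
  · rw [List.head?_append, h.head]; rfl
  · rw [List.getLast?_append, h'.last]; rfl

theorem PL.single (G : SimpleGraph V) (a : V) : PL G a a [a] :=
  ⟨List.isChain_singleton a, List.nodup_singleton a, rfl, rfl⟩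

open Classical in
/-- The number of consecutive pairs of `l` which are not adjacent (missing links). -/
noncomputable def miss (G : SimpleGraph V) : List V → ℕ
  | [] => 0
  | [_] => 0
  | x :: y :: l => (if G.Adj x y then 0 else 1) + miss G (y :: l)

/-- Consecutive vertices of `l` are adjacent or both hubs. -/
def LG [Fintype V] (G : SimpleGraph V) (n : ℕ) (l : List V) : Prop :=
  l.IsChain fun a b => G.Adj a b ∨ (a ∈ big G n ∧ b ∈ big G n)

/-- The cyclic sequence `f 0, ..., f (c - 1)` and its vertex set. -/
def vs [DecidableEq V] (c : ℕ) (f : ℕ → V) : Finset V := (range c).image f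

theorem mem_vs [DecidableEq V] {c : ℕ} {f : ℕ → V} {v : V} : v ∈ vs c f ↔ ∃ i < c, f i = v := by
  simp [vs]

/-- The index `i` is good: both `f i` and its cyclic successor are hubs. -/
def Gd [Fintype V] (G : SimpleGraph V) (n c : ℕ) (f : ℕ → V) (i : ℕ) : Prop :=
  f i ∈ big G n ∧ f ((i + 1) % c) ∈ big G n

/-- A longest cycle on at most `m - 1` vertices with at least `(m + 1) / 2` hubs; `noext`: it
cannot be extended if a good edge is kept. -/
structure MaxC [Fintype V] [DecidableEq V] (G : SimpleGraph V) (n m c : ℕ) (f : ℕ → V) : Prop where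
  cyc : FCyc G c f
  three : 3 ≤ c
  len : c + 1 ≤ m
  hub : m + 1 ≤ 2 * (vs c f ∩ big G n).card
  noext : ∀ i < c, Gd G n c f i → ∀ E : List V, PL G (f ((i + 1) % c)) (f i) E →
    (∀ v ∈ vs c f, v ∈ E) → E.length ≤ c

/-- `K` is connected by paths inside `K`. -/
def Conn (G : SimpleGraph V) (K : Finset V) : Prop := ∀ a ∈ K, ∀ b ∈ K, ∃ l, Pth G K a b l

/-- `v` has a neighbour in `K`. -/
def To (G : SimpleGraph V) (K : Finset V) (v : V) : Prop := ∃ k ∈ K, G.Adj v k

end Pool.Agent.Lib.MP_0e31aa_co.HH
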