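import Pool.Agent.Lib.MP_0e31aa_co.HH.Defs
import Pool.Agent.Lib.MP_0e31aa_co.H.LeafExt
import Pool.Agent.Lib.MP_0e31aa_co.H.GreedyK

/-!
Module Greedy1 (75 min): if `T` is not in the red graph `Gᶜ` then two hubs are blue adjacent.

Let no two hubs be blue adjacent (the hubs form a red clique). If all vertices are hubs, a vertex
has blue degree `≥ n ≥ 1`: contradiction. So there is a vertex `h0` of red degree `≥ n - 1`
(`dg_compl`). Root `T` at any vertex `c` placed at `h0`. Place the vertices of `T` one by one in the
order of the depth, `K` = set of placed vertices, `g` = embedding, with the invariant: if a hub is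
used then there are at least `n - |K|` free hubs. Let `t` be the next vertex, `s` its parent. If `g s` is
a hub: take any free hub for `t`. Otherwise `g s` has at least `n - 1 - (|K| - 1) = n - |K|` free red
neighbours; if one of them is not a hub, `t` goes there; otherwise these are at least `n - |K|` free
hubs, `t` goes to one of them.
-/

set_option autoImplicit false

namespace Pool.Agent.Lib.MP_0e31aa_co.HH

open Finset
open Pool.Agent.Lib.MP_0e31aa_co.TC (nb mem_nb Emb HasCyc Bip Pth)
open Pool.Agent.Lib.MP_0e31aa_co.H (dg big mem_big inner mem_inner FPath FCyc dg_compl)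
open Pool.Agent.Lib.MP_c5b475_co (RT exists_RT)

variable {V W : Type}

theorem blue_edge_step [Fintype V] [DecidableEq V] [Fintype W] [DecidableEq W]
    (G : SimpleGraph V) (n : ℕ) (hV : Fintype.card V + 1 = 2 * n)
    (hW : Fintype.card W = n) (T : SimpleGraph W) (D : RT T)
    (hno : ∀ u ∈ big G n, ∀ v ∈ big G n, ¬ G.Adj u v) (h0 : V) (hh0 : h0 ∉ big G n) :
    ∀ k : ℕ, k + 1 ≤ n → ∃ F : Finset W, F.card = k + 1 ∧ D.c ∈ F ∧
      (∀ u ∈ F, u ≠ D.c → D.par u ∈ F) ∧ ∃ f : W → V, Set.InjOn f (F : Set W) ∧
      (∀ u ∈ F, u ≠ D.c → Gᶜ.Adj (f (D.par u)) (f u)) ∧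
      ((∃ u ∈ F, f u ∈ big G n) → n ≤ F.card + (big G n \ F.image f).card) := by
  intro k
  induction k with
  | zero =>
    intro _
    refine ⟨{D.c}, by simp, by simp, ?_, fun _ => h0, ?_, ?_, ?_⟩
    · intro u hu hne
      exact absurd (mem_singleton.1 hu) hne
    · intro a ha b hb _
      simp only [coe_singleton, Set.mem_singleton_iff] at ha hb
      rw [ha, hb]
    · intro u hu hne
      exact absurd (mem_singleton.1 hu) hne
    · rintro ⟨u, -, hu⟩
      exact absurd hu hh0
  | succ k ih =>
    intro hk
    obtain ⟨F, hF, hcF, hpF, f, hinj, hadj, hJ⟩ := ih (by omega)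
    have hne : (Fᶜ : Finset W).Nonempty := by
      rw [← card_pos, card_compl]
      omega
    obtain ⟨u, hu, humin⟩ := exists_min_image Fᶜ D.dep hne
    have huF : u ∉ F := mem_compl.1 hu
    have hur : u ≠ D.c := fun e => huF (e ▸ hcF)
    have hdp : D.dep (D.par u) + 1 = D.dep u := D.dep_par u hur
    have hpu : D.par u ∈ F := by
      by_contra hcon
      have := humin (D.par u) (mem_compl.2 hcon)
      omega
    set x := f (D.par u) with hx
    have himg : (F.image f).card = F.card := card_image_of_injOn hinj
    have hxi : x ∈ F.image f := mem_image_of_mem _ hpu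
    -- the new image
    have hex : ∃ y, y ∉ F.image f ∧ Gᶜ.Adj x y ∧
        (((∃ w ∈ F, f w ∈ big G n) ∨ y ∈ big G n) →
          n ≤ F.card + (big G n \ F.image f).card) := by
      by_cases hxL : x ∈ big G n
      · have h1 := hJ ⟨D.par u, hpu, hxL⟩
        have h2 : (big G n \ F.image f).Nonempty := by
          rw [← card_pos]
          omega
        obtain ⟨y, hy⟩ := h2
        rw [mem_sdiff] at hy
        refine ⟨y, hy.2, ?_, fun _ => h1⟩
        rw [SimpleGraph.compl_adj]
        refine ⟨?_, hno x hxL y hy.1⟩
        rintro rfl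
        exact hy.2 hxi
      · have h1 : n ≤ dg Gᶜ x + 1 := by
          have h2 := dg_compl G x
          have h3 : ¬ n ≤ dg G x := fun h => hxL (mem_big.2 h)
          omega
        have h2 : n ≤ (nb Gᶜ x univ \ F.image f).card + F.card := by
          have h3 : nb Gᶜ x univ ⊆ (nb Gᶜ x univ \ F.image f) ∪ (F.image f).erase x := by
            intro y hy
            rw [mem_union, mem_sdiff, mem_erase]
            by_cases h4 : y ∈ F.image f
            · right
              refine ⟨?_, h4⟩
              rintro rfl
              exact (Gᶜ).loopless.irrefl _ (mem_nb.1 hy).2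
            · exact Or.inl ⟨hy, h4⟩
          have h4 := (card_le_card h3).trans (card_union_le _ _)
          rw [card_erase_of_mem hxi, himg] at h4
          have h5 : 0 < F.card := by omega
          have h6 : (nb Gᶜ x univ).card = dg Gᶜ x := rfl
          omega
        by_cases h3 : ∃ y ∈ nb Gᶜ x univ \ F.image f, y ∉ big G n
        · obtain ⟨y, hy, hyL⟩ := h3
          rw [mem_sdiff] at hy
          refine ⟨y, hy.2, (mem_nb.1 hy.1).2, ?_⟩
          rintro (h | h)
          · exact hJ h
          · exact absurd h hyL
        · push Not at h3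
          have h4 : nb Gᶜ x univ \ F.image f ⊆ big G n \ F.image f := by
            intro y hy
            exact mem_sdiff.2 ⟨h3 y hy, (mem_sdiff.1 hy).2⟩
          have h5 := card_le_card h4
          have h6 : (nb Gᶜ x univ \ F.image f).Nonempty := by
            rw [← card_pos]
            omega
          obtain ⟨y, hy⟩ := h6
          have hy' := mem_sdiff.1 hy
          exact ⟨y, hy'.2, (mem_nb.1 hy'.1).2, fun _ => by omega⟩
    obtain ⟨y, hyF, hxy, hJy⟩ := hex
    have hfu : ∀ w ∈ F, Function.update f u y w = f w := fun w hw =>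
      Function.update_of_ne (fun e : w = u => huF (e ▸ hw)) _ _
    have hfe : Function.update f u y u = y := Function.update_self u y f
    refine ⟨insert u F, by rw [card_insert_of_notMem huF]; omega, mem_insert_of_mem hcF, ?_,
      Function.update f u y, ?_, ?_, ?_⟩
    · intro w hw hwc
      rcases mem_insert.1 hw with rfl | hw
      · exact mem_insert_of_mem hpu
      · exact mem_insert_of_mem (hpF w hw hwc)
    · intro a ha b hb hab
      rw [mem_coe] at ha hb
      rcases mem_insert.1 ha with ha1 | ha1 <;> rcases mem_insert.1 hb with hb1 | hb1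
      · rw [ha1, hb1]
      · rw [ha1, hfe, hfu b hb1] at hab
        exact absurd (hab ▸ mem_image_of_mem f hb1) hyF
      · rw [hb1, hfe, hfu a ha1] at hab
        exact absurd (hab ▸ mem_image_of_mem f ha1) hyF
      · rw [hfu a ha1, hfu b hb1] at hab
        exact hinj ha1 hb1 hab
    · intro w hw hwc
      rcases mem_insert.1 hw with rfl | hw
      · rw [hfe, hfu _ hpu]
        exact hxy
      · rw [hfu w hw, hfu _ (hpF w hw hwc)]
        exact hadj w hw hwc
    · rintro ⟨w, hw, hwL⟩
      have himg2 : (insert u F).image (Function.update f u y) = insert y (F.image f) := by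
        rw [image_insert, hfe]
        congr 1
        exact image_congr (fun w hw => hfu w hw)
      rw [himg2, card_insert_of_notMem huF]
      have h1 : n ≤ F.card + (big G n \ F.image f).card := by
        apply hJy
        rcases mem_insert.1 hw with rfl | hw
        · rw [hfe] at hwL
          exact Or.inr hwL
        · rw [hfu w hw] at hwL
          exact Or.inl ⟨w, hw, hwL⟩
      have h2 : (big G n \ F.image f).card ≤ (big G n \ insert y (F.image f)).card + 1 := by
        have h3 : big G n \ F.image f ⊆ insert y (big G n \ insert y (F.image f)) := by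
          intro z hz
          rw [mem_sdiff] at hz
          rw [mem_insert, mem_sdiff, mem_insert]
          by_cases h4 : z = y
          · exact Or.inl h4
          · right
            exact ⟨hz.1, fun h => h.elim h4 hz.2⟩
        exact (card_le_card h3).trans (card_insert_le _ _)
      omega

theorem blue_edge [Fintype V] [DecidableEq V] [Fintype W] [DecidableEq W] (G : SimpleGraph V)
    (n : ℕ) (hn : 1 ≤ n) (hV : Fintype.card V + 1 = 2 * n) (hW : Fintype.card W = n)
    (T : SimpleGraph W) (hT : T.IsTree) (hE : ¬ Emb T Gᶜ) :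
    ∃ u ∈ big G n, ∃ v ∈ big G n, G.Adj u v := by
  by_contra hcon
  have hno : ∀ u ∈ big G n, ∀ v ∈ big G n, ¬ G.Adj u v := fun u hu v hv h =>
    hcon ⟨u, hu, v, hv, h⟩
  -- a vertex which is not a hub
  have hex : ∃ h0, h0 ∉ big G n := by
    by_contra hall
    push Not at hall
    have hpos : 0 < Fintype.card V := by omega
    obtain ⟨v⟩ := Fintype.card_pos_iff.1 hpos
    have h1 : 0 < dg G v := by
      have := mem_big.1 (hall v)
      omega
    obtain ⟨u, hu⟩ := card_pos.1 h1
    exact hno v (hall v) u (hall u) (mem_nb.1 hu).2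
  obtain ⟨h0, hh0⟩ := hex
  have hWp : 0 < Fintype.card W := by omega
  obtain ⟨c⟩ := Fintype.card_pos_iff.1 hWp
  obtain ⟨D, -, -⟩ := exists_RT hT c
  obtain ⟨F, hF, -, -, f, hinj, hadj, -⟩ :=
    blue_edge_step G n hV hW T D hno h0 hh0 (n - 1) (by omega)
  have hFu : F = univ := by
    rw [← card_eq_iff_eq_univ]
    omega
  subst hFu
  apply hE
  refine ⟨f, fun a b hab => hinj (mem_coe.2 (mem_univ a)) (mem_coe.2 (mem_univ b)) hab, ?_⟩
  intro u v huv
  rcases (D.adj_iff u v).1 huv with ⟨h1, rfl⟩ | ⟨h1, rfl⟩
  · exact (hadj u (mem_univ _) h1).symm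
  · exact hadj v (mem_univ _) h1

end Pool.Agent.Lib.MP_0e31aa_co.HH
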