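import Pool.Agent.Lib.MP_0e31aa_co.HH.Defs
import Pool.Agent.Lib.MP_0e31aa_co.H.LeafExt
import Pool.Agent.Lib.MP_0e31aa_co.H.GreedyK

/-!
Module Greedy2 (75 min): if `T` is not in `Gᶜ` then the number `l` of hubs is at least `lambda + 2`,
`lambda = n - |inner T|` the number of leaves: `n + 2 ≤ l + |inner T|`.

Suppose `l + |inner T| ≤ n + 1`. `H0` = non-hubs, `|H0| = 2n - 1 - l ≥ 1`; every `v ∈ H0` has red degree
`≥ n - 1`, so at least `n - 1 - l` red neighbours in `H0`.
 * If `inner T` has one element (star): place it at a vertex of `H0` and add the leaves (`leaf_ext`).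
 * If `l + |inner T| ≤ n`: `greedyK` (root in `inner T`, `K = inner T`, all regions `H0`), `leaf_ext`.
 * If `l + |inner T| = n + 1`: let `c` be a vertex of `inner T` of maximal distance from some root
   `f0 ∈ inner T` (or: a leaf of `T[inner T]`), `f` its only neighbour in `inner T`; root `T` at `f`,
   `K = inner T \ {c}` (closed under parents), `|K| = n - l`. For every `v0 ∈ H0`, `greedyK` with the
   regions `A f = {v0}`, `A w = H0` otherwise (condition: the vertices of `K` other than the parent are
   at most `n - l - 1`) embeds `T[K]` in `H0` with `f` at `v0`. If `v0` has `≥ n - l` red neighbours in `H0`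
   one of them is free: place `c` there, then `leaf_ext`. So every `v0 ∈ H0` has exactly `n - 1 - l` red
   neighbours in `H0` and is red to all hubs. If `l = 0` then `|H0| = 2n - 1` and `v0` has `n - 1 ≥ n - l`
   fails; but `l + |inner T| = n + 1` and `|inner T| ≤ n - 2` give `l ≥ 3`. A hub `w` then has red degree
   `≥ |H0| = 2n - 1 - l`, and `≤ n - 2` (`dg_compl`): `l ≥ n + 1`; but `|inner T| ≥ 1` gives `l ≤ n`.
-/

set_option autoImplicit false

namespace Pool.Agent.Lib.MP_0e31aa_co.HH

open Finset
open Pool.Agent.Lib.MP_0e31aa_co.TC (nb mem_nb Emb HasCyc Bip Pth)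
open Pool.Agent.Lib.MP_0e31aa_co.H (dg big mem_big inner mem_inner FPath FCyc dg_compl)

variable {V W : Type}

private theorem gr2_red [Fintype V] [DecidableEq V] (G : SimpleGraph V) (n : ℕ)
    (hV : Fintype.card V + 1 = 2 * n) (x : V) (hx : x ∈ univ \ big G n) : n ≤ dg Gᶜ x + 1 := by
  have h1 : ¬ n ≤ dg G x := fun h1 => (mem_sdiff.1 hx).2 (mem_big.2 h1)
  have h2 := dg_compl G x
  omega

private theorem gr2_nb [Fintype V] [DecidableEq V] (G : SimpleGraph V) (n : ℕ)
    (hV : Fintype.card V + 1 = 2 * n) (x : V) (hx : x ∈ univ \ big G n) :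
    n ≤ (nb Gᶜ x (univ \ big G n)).card + (big G n).card + 1 := by
  have h3 := TC.card_nb_sdiff Gᶜ x univ (big G n)
  have h4 := gr2_red G n hV x hx
  have h5 : dg Gᶜ x = (nb Gᶜ x univ).card := rfl
  omega

private theorem gr2_inner [Fintype W] [DecidableEq W] (T : SimpleGraph W) (hT : T.IsTree)
    (hW3 : 3 ≤ Fintype.card W) : (inner T).Nonempty := by
  obtain ⟨w⟩ := Fintype.card_pos_iff.1 (show 0 < Fintype.card W by omega)
  by_cases hw : w ∈ inner T
  · exact ⟨w, hw⟩
  · obtain ⟨p, hp, -, -⟩ := H.leaf_par T hT hW3 w hw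
    exact ⟨p, hp⟩

/-- the last step: the leaves -/
private theorem gr2_finish [Fintype V] [DecidableEq V] [Fintype W] [DecidableEq W]
    (G : SimpleGraph V) (n : ℕ) (hn : 3 ≤ n) (hV : Fintype.card V + 1 = 2 * n)
    (hW : Fintype.card W = n) (T : SimpleGraph W) (hT : T.IsTree) (g : W → V)
    (hinj : Set.InjOn g (inner T : Set W)) (hgH : ∀ w ∈ inner T, g w ∈ univ \ big G n)
    (hadj : ∀ u ∈ inner T, ∀ v ∈ inner T, T.Adj u v → Gᶜ.Adj (g u) (g v)) : Emb T Gᶜ := by
  have hW3 : 3 ≤ Fintype.card W := by omega
  have hex : ∀ w, ∃ p, w ∉ inner T → (p ∈ inner T ∧ ∀ v, T.Adj w v → v = p) := by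
    intro w
    by_cases hw : w ∈ inner T
    · exact ⟨w, fun h => absurd hw h⟩
    · obtain ⟨p, hp, -, hp2⟩ := H.leaf_par T hT hW3 w hw
      exact ⟨p, fun _ => ⟨hp, hp2⟩⟩
  choose par hpar using hex
  refine H.leaf_ext T Gᶜ (inner T) g hinj hadj par hpar ?_
  intro w hw
  rw [hW]
  exact gr2_red G n hV _ (hgH _ (hpar w hw).1)

/-- the easy case -/
private theorem gr2_easy [Fintype V] [DecidableEq V] [Fintype W] [DecidableEq W]
    (G : SimpleGraph V) (n : ℕ) (hn : 3 ≤ n) (hV : Fintype.card V + 1 = 2 * n)
    (hW : Fintype.card W = n) (T : SimpleGraph W) (hT : T.IsTree)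
    (h : (big G n).card + (inner T).card ≤ n) : Emb T Gᶜ := by
  classical
  set L := big G n with hL
  have hW3 : 3 ≤ Fintype.card W := by omega
  obtain ⟨c, hc⟩ := gr2_inner T hT hW3
  have hI1 : 1 ≤ (inner T).card := card_pos.2 ⟨c, hc⟩
  obtain ⟨D, hD, -⟩ := Pool.Agent.Lib.MP_c5b475_co.exists_RT hT c
  have hH : (univ \ L).card + L.card = Fintype.card V := by
    rw [card_sdiff_add_card_eq_card (subset_univ L), card_univ]
  have hHne : (univ \ L : Finset V).Nonempty := card_pos.1 (by omega)
  have hcK : D.c ∈ inner T := by rw [hD]; exact hc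
  have hK := H.inner_closed T D (inner T) Subset.rfl hcK
  obtain ⟨g, hinj, hgH, hadj⟩ := H.greedyK T D (inner T) hcK (fun u _ hu => hK u hu) Gᶜ
    (fun _ => univ \ L) (fun _ _ => hHne) (by
      intro v hv hvc x hx
      have h1 : ((inner T).filter fun w => w ≠ D.par v ∧
          ¬ Disjoint (univ \ L : Finset V) (univ \ L)) ⊆ (inner T).erase (D.par v) := by
        intro w hw
        rw [mem_filter] at hw
        exact mem_erase.2 ⟨hw.2.1, hw.1⟩
      have h2 := card_le_card h1
      rw [card_erase_of_mem (hK v hvc)] at h2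
      have h3 := gr2_nb G n hV x hx
      rw [← hL] at h3
      omega)
  exact gr2_finish G n hn hV hW T hT g hinj hgH hadj

/-- the last vertex of the inner tree -/
private theorem gr2_last [Fintype W] [DecidableEq W] (T : SimpleGraph W) (hT : T.IsTree)
    (h2 : 2 ≤ (inner T).card) : ∃ c ∈ inner T, ∃ f ∈ inner T, f ≠ c ∧ T.Adj c f ∧
      ∀ u ∈ inner T, T.Adj c u → u = f := by
  obtain ⟨f0, hf0⟩ := card_pos.1 (show 0 < (inner T).card by omega)
  obtain ⟨D, hD, -⟩ := Pool.Agent.Lib.MP_c5b475_co.exists_RT hT f0
  obtain ⟨c, hc, hmax⟩ := exists_max_image (inner T) D.dep ⟨f0, hf0⟩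
  have hcK : D.c ∈ inner T := by rw [hD]; exact hf0
  have hK := H.inner_closed T D (inner T) Subset.rfl hcK
  have hcc : c ≠ D.c := by
    intro e
    obtain ⟨a, ha, hab⟩ := exists_mem_ne (show 1 < (inner T).card by omega) D.c
    have h3 := hmax a ha
    rw [e, D.dep_c] at h3
    have h4 := D.dep_par a hab
    omega
  refine ⟨c, hc, D.par c, hK c hcc, (D.adj_par hcc).ne', D.adj_par hcc, ?_⟩
  intro u hu hcu
  rcases (D.adj_iff c u).1 hcu with ⟨_, h⟩ | ⟨h1, h⟩
  · exact h
  · have h3 := hmax u hu
    have h4 := D.dep_par u h1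
    rw [← h] at h4
    omega

theorem hubs_lower [Fintype V] [DecidableEq V] [Fintype W] [DecidableEq W] (G : SimpleGraph V)
    (n : ℕ) (hn : 3 ≤ n) (hV : Fintype.card V + 1 = 2 * n) (hW : Fintype.card W = n)
    (T : SimpleGraph W) (hT : T.IsTree) (hE : ¬ Emb T Gᶜ) :
    n + 2 ≤ (big G n).card + (inner T).card := by
  classical
  by_contra hlt
  have hW3 : 3 ≤ Fintype.card W := by omega
  have hI1 : 1 ≤ (inner T).card := card_pos.2 (gr2_inner T hT hW3)
  have heq : (big G n).card + (inner T).card = n + 1 := by
    by_contra hne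
    exact hE (gr2_easy G n hn hV hW T hT (by omega))
  set L := big G n with hL
  have hH : (univ \ L).card + L.card = Fintype.card V := by
    rw [card_sdiff_add_card_eq_card (subset_univ L), card_univ]
  have hHne : (univ \ L : Finset V).Nonempty := card_pos.1 (by omega)
  rcases Nat.lt_or_ge (inner T).card 2 with h1 | h2
  · obtain ⟨c, hc⟩ := card_eq_one.1 (show (inner T).card = 1 by omega)
    obtain ⟨s, hs⟩ := hHne
    apply hE
    refine gr2_finish G n hn hV hW T hT (fun _ => s) ?_ (fun _ _ => hs) ?_
    · rw [hc]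
      intro a ha b hb _
      simp only [coe_singleton, Set.mem_singleton_iff] at ha hb
      rw [ha, hb]
    · rw [hc]
      intro u hu v hv huv
      rw [mem_singleton] at hu hv
      rw [hu, hv] at huv
      exact absurd huv (T.loopless.irrefl c)
  · obtain ⟨c, hc, f, hf, hfc, hcf, hcu⟩ := gr2_last T hT h2
    obtain ⟨D, hD, -⟩ := Pool.Agent.Lib.MP_c5b475_co.exists_RT hT f
    have hKc : ((inner T).erase c).card = (inner T).card - 1 := card_erase_of_mem hc
    have hfI : D.c ∈ inner T := by rw [hD]; exact hf
    have hfK : D.c ∈ (inner T).erase c := by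
      rw [hD]
      exact mem_erase.2 ⟨hfc, hf⟩
    have hpar0 := H.inner_closed T D (inner T) Subset.rfl hfI
    have hpar : ∀ u ∈ (inner T).erase c, u ≠ D.c → D.par u ∈ (inner T).erase c := by
      intro u hu huc
      refine mem_erase.2 ⟨?_, hpar0 u huc⟩
      intro e
      have h3 := D.adj_par huc
      rw [e] at h3
      have h4 := hcu u (mem_of_mem_erase hu) h3.symm
      exact huc (h4.trans hD.symm)
    -- the key claim
    have key : ∀ v0 ∈ univ \ L, (nb Gᶜ v0 (univ \ L)).card + L.card + 1 ≤ n := by
      intro v0 hv0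
      by_contra hbig
      apply hE
      obtain ⟨g, hinj, hgA, hadj⟩ := H.greedyK T D ((inner T).erase c) hfK hpar Gᶜ
        (fun w => if w = f then {v0} else univ \ L) (by
          intro w _
          by_cases hw : w = f
          · rw [if_pos hw]; exact singleton_nonempty v0
          · rw [if_neg hw]; exact hHne) (by
          intro v hv hvc x hx
          have hvf : v ≠ f := by rw [← hD]; exact hvc
          have hx' : x ∈ univ \ L := by
            by_cases hw : D.par v = f
            · rw [if_pos hw, mem_singleton] at hx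
              rw [hx]; exact hv0
            · rw [if_neg hw] at hx
              exact hx
          rw [if_neg hvf]
          have h5 : (((inner T).erase c).filter fun w => w ≠ D.par v ∧
              ¬ Disjoint (if w = f then ({v0} : Finset V) else univ \ L) (univ \ L)) ⊆
              ((inner T).erase c).erase (D.par v) := by
            intro w hw
            rw [mem_filter] at hw
            exact mem_erase.2 ⟨hw.2.1, hw.1⟩
          have h6 := card_le_card h5
          rw [card_erase_of_mem (hpar v hv hvc), hKc] at h6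
          have h7 := gr2_nb G n hV x hx'
          rw [← hL] at h7
          omega)
      have hgf : g f = v0 := by
        have h5 := hgA f (mem_erase.2 ⟨hfc, hf⟩)
        rw [if_pos rfl, mem_singleton] at h5
        exact h5
      have hgH : ∀ w ∈ (inner T).erase c, g w ∈ univ \ L := by
        intro w hw
        have h5 := hgA w hw
        by_cases hwf : w = f
        · rw [if_pos hwf, mem_singleton] at h5
          rw [h5]; exact hv0
        · rw [if_neg hwf] at h5
          exact h5
      have hex : ∃ y ∈ nb Gᶜ v0 (univ \ L), y ∉ (((inner T).erase c).erase f).image g := by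
        by_contra hcon
        push Not at hcon
        have h5 := card_le_card (show nb Gᶜ v0 (univ \ L) ⊆
          (((inner T).erase c).erase f).image g from hcon)
        have h6 : ((((inner T).erase c).erase f).image g).card ≤ _ := card_image_le
        rw [card_erase_of_mem (mem_erase.2 ⟨hfc, hf⟩), hKc] at h6
        omega
      obtain ⟨y, hy, hyn⟩ := hex
      obtain ⟨hyH, hyadj⟩ := mem_nb.1 hy
      have hyne : ∀ w ∈ (inner T).erase c, g w ≠ y := by
        intro w hw e
        by_cases hwf : w = f
        · rw [hwf, hgf] at e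
          rw [e] at hyadj
          exact Gᶜ.loopless.irrefl y hyadj
        · exact hyn (mem_image.2 ⟨w, mem_erase.2 ⟨hwf, hw⟩, e⟩)
      have hup : ∀ w, w ≠ c → Function.update g c y w = g w := fun w hw =>
        Function.update_of_ne hw _ _
      have hself : Function.update g c y c = y := Function.update_self _ _ _
      refine gr2_finish G n hn hV hW T hT (Function.update g c y) ?_ ?_ ?_
      · intro a ha b hb hab
        rw [mem_coe] at ha hb
        by_cases hac : a = c
        · by_cases hbc : b = c
          · rw [hac, hbc]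
          · exfalso
            rw [hac, hself, hup b hbc] at hab
            exact hyne b (mem_erase.2 ⟨hbc, hb⟩) hab.symm
        · by_cases hbc : b = c
          · exfalso
            rw [hbc, hself, hup a hac] at hab
            exact hyne a (mem_erase.2 ⟨hac, ha⟩) hab
          · rw [hup a hac, hup b hbc] at hab
            exact hinj (mem_coe.2 (mem_erase.2 ⟨hac, ha⟩)) (mem_coe.2 (mem_erase.2 ⟨hbc, hb⟩)) hab
      · intro w hw
        by_cases hwc : w = c
        · rw [hwc, hself]
          exact hyH
        · rw [hup w hwc]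
          exact hgH w (mem_erase.2 ⟨hwc, hw⟩)
      · intro u hu v hv huv
        by_cases huc : u = c
        · have hvf : v = f := hcu v hv (huc ▸ huv)
          rw [huc, hself, hvf, hup f hfc, hgf]
          exact hyadj.symm
        · by_cases hvc : v = c
          · have huf : u = f := hcu u hu (hvc ▸ huv.symm)
            rw [hvc, hself, huf, hup f hfc, hgf]
            exact hyadj
          · rw [hup u huc, hup v hvc]
            exact hadj u (mem_erase.2 ⟨huc, hu⟩) v (mem_erase.2 ⟨hvc, hv⟩) huv
    -- every non-hub is red to all hubs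
    have hall : ∀ v0 ∈ univ \ L, ∀ w ∈ L, Gᶜ.Adj v0 w := by
      intro v0 hv0 w hw
      have h5 := key v0 hv0
      have h6 := gr2_red G n hV v0 hv0
      have h7 : dg Gᶜ v0 = (nb Gᶜ v0 univ).card := rfl
      have h8 : nb Gᶜ v0 univ ⊆ nb Gᶜ v0 (univ \ L) ∪ nb Gᶜ v0 L := by
        intro z hz
        rw [mem_union]
        by_cases hzL : z ∈ L
        · exact Or.inr (mem_nb.2 ⟨hzL, (mem_nb.1 hz).2⟩)
        · exact Or.inl (mem_nb.2 ⟨mem_sdiff.2 ⟨mem_univ _, hzL⟩, (mem_nb.1 hz).2⟩)
      have h9 := (card_le_card h8).trans (card_union_le _ _)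
      have h10 : L.card ≤ (nb Gᶜ v0 L).card := by omega
      have h11 : nb Gᶜ v0 L = L := eq_of_subset_of_card_le (TC.nb_subset _ _ _) h10
      rw [← h11] at hw
      exact (mem_nb.1 hw).2
    have hIW : (inner T).card ≤ Fintype.card W := card_le_univ _
    obtain ⟨w, hw⟩ := card_pos.1 (show 0 < L.card by omega)
    have h5 : (univ \ L) ⊆ nb Gᶜ w univ := by
      intro z hz
      exact mem_nb.2 ⟨mem_univ _, (hall z hz w hw).symm⟩
    have h6 := card_le_card h5
    have h7 : dg Gᶜ w = (nb Gᶜ w univ).card := rfl
    have h8 := dg_compl G w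
    have h9 := mem_big.1 hw
    omega

end Pool.Agent.Lib.MP_0e31aa_co.HH
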