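import Pool.Agent.Lib.MP_0e31aa_co.HH.CompA
import Pool.Agent.Lib.MP_0e31aa_co.HH.CompB
import Pool.Agent.Lib.MP_0e31aa_co.HH.EmbBip

/-!
Module HubsIn (75 min): all hubs are on the cycle.

Suppose `w` is a hub outside `vs = vs c f`. `K` = component of `w` in `U = univ \ vs` (`comp_exists`), `A` = vertices of
the cycle adjacent to `K` (`To`), `A'` = their successors, `|A'| = |A|`. By b1 no vertex of `A'` is a hub, by b2
`A'` is red complete, by a1 there are no blue edges between `A'` and `K`. The `≥ n` neighbours of `w` are in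
`K \ {w}` or in `A`: `n + 1 ≤ |K| + |A|`.
 * `|A| ≥ |P|`: `emb_cj` with `X = A'`, `K`, `R = Gᶜ`.
 * `|A| < |P|`: `Z = univ \ (K ∪ A)`; no blue edges between `Z` and `K`; `|K| ≥ n + 1 - (p - 1) ≥ |Pᶜ|`, and by a2
   `|Z| ≥ 2n - 1 - (n - 2) - (p - 1) ≥ p`: `emb_bip` with `X = Z`, `Y = K`.
-/

set_option autoImplicit false

namespace Pool.Agent.Lib.MP_0e31aa_co.HH

open Finset
open Pool.Agent.Lib.MP_0e31aa_co.TC (nb mem_nb Emb HasCyc Bip Pth)
open Pool.Agent.Lib.MP_0e31aa_co.H (dg big mem_big inner mem_inner FPath FCyc dg_compl)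

variable {V W : Type}

private theorem hubs_in_mod {c i j : ℕ} (hi : i < c) (hj : j < c)
    (h : (i + 1) % c = (j + 1) % c) : i = j := by
  rcases Nat.lt_or_ge (i + 1) c with h1 | h1
  · rcases Nat.lt_or_ge (j + 1) c with h2 | h2
    · rw [Nat.mod_eq_of_lt h1, Nat.mod_eq_of_lt h2] at h
      omega
    · have h3 : j + 1 = c := by omega
      rw [Nat.mod_eq_of_lt h1, h3, Nat.mod_self] at h
      omega
  · have h3 : i + 1 = c := by omega
    rcases Nat.lt_or_ge (j + 1) c with h2 | h2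
    · rw [Nat.mod_eq_of_lt h2, h3, Nat.mod_self] at h
      omega
    · omega

theorem hubs_in [Fintype V] [DecidableEq V] [Fintype W] [DecidableEq W] (G : SimpleGraph V)
    (n m c : ℕ) (hn : 3 ≤ n) (hV : Fintype.card V + 1 = 2 * n) (hW : Fintype.card W = n)
    (T : SimpleGraph W) (hT : T.IsTree) (P : Finset W) (hP : Bip T P) (hP2 : 2 * P.card ≤ n)
    (hE : ¬ Emb T Gᶜ) (f : ℕ → V) (h : MaxC G n m c f) : big G n ⊆ vs c f := by
  classical
  intro w hw
  by_contra hnot
  obtain ⟨K, hKU, hwK, hKc, hKcl⟩ := comp_exists G (univ \ vs c f) w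
    (mem_sdiff.2 ⟨mem_univ w, hnot⟩)
  have hKn : ∀ k ∈ K, k ∉ vs c f := fun k hk => (mem_sdiff.1 (hKU hk)).2
  have hd : Disjoint K (vs c f) := disjoint_left.2 hKn
  have hc0 : 0 < c := by have := h.three; omega
  have hmod : ∀ i, (i + 1) % c < c := fun i => Nat.mod_lt _ hc0
  have hinj := h.cyc.inj
  obtain ⟨I, hI⟩ : ∃ I : Finset ℕ, ∀ i, i ∈ I ↔ i < c ∧ To G K (f i) :=
    ⟨(range c).filter fun i => To G K (f i), fun i => by rw [mem_filter, mem_range]⟩
  have hIinj : Set.InjOn f I := by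
    intro i hi j hj hij
    exact hinj i ((hI i).1 hi).1 j ((hI j).1 hj).1 hij
  have hIinj' : Set.InjOn (fun i => f ((i + 1) % c)) I := by
    intro i hi j hj hij
    exact hubs_in_mod ((hI i).1 hi).1 ((hI j).1 hj).1 (hinj _ (hmod i) _ (hmod j) hij)
  have hcA : (I.image f).card = I.card := card_image_of_injOn hIinj
  have hcA' : (I.image fun i => f ((i + 1) % c)).card = I.card := card_image_of_injOn hIinj'
  have hA : ∀ v, v ∈ vs c f → To G K v → v ∈ I.image f := by
    intro v hv hto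
    obtain ⟨i, hi, rfl⟩ := mem_vs.1 hv
    exact mem_image.2 ⟨i, (hI i).2 ⟨hi, hto⟩, rfl⟩
  have hA'v : ∀ x ∈ I.image (fun i => f ((i + 1) % c)), x ∈ vs c f := by
    intro x hx
    obtain ⟨i, _, rfl⟩ := mem_image.1 hx
    exact mem_vs.2 ⟨_, hmod i, rfl⟩
  have hnK : ∀ z, z ∉ K → z ∉ I.image f → ∀ k ∈ K, ¬ G.Adj z k := by
    intro z hz hzA k hk hadj
    by_cases hzv : z ∈ vs c f
    · exact hzA (hA z hzv ⟨k, hk, hadj⟩)
    · exact hz (hKcl k hk z (mem_sdiff.2 ⟨mem_univ z, hzv⟩) hadj.symm)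
  -- the neighbours of the hub
  have hnw : n + 1 ≤ K.card + I.card := by
    have h1 : nb G w univ ⊆ K.erase w ∪ I.image f := by
      intro v hv
      have hwv : G.Adj w v := (mem_nb.1 hv).2
      by_cases hvK : v ∈ K
      · exact mem_union_left _ (mem_erase.2 ⟨hwv.ne', hvK⟩)
      · by_cases hvA : v ∈ I.image f
        · exact mem_union_right _ hvA
        · exact absurd hwv.symm (hnK v hvK hvA w hwK)
    have h2 := (card_le_card h1).trans (card_union_le _ _)
    rw [card_erase_of_mem hwK, hcA] at h2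
    have h3 : n ≤ (nb G w univ).card := mem_big.1 hw
    have h4 : 1 ≤ K.card := card_pos.2 ⟨w, hwK⟩
    omega
  have hPc : Pᶜ.card = n - P.card := by rw [card_compl, hW]
  rcases Nat.lt_or_ge I.card P.card with hlt | hge
  · -- few neighbours on the cycle
    have h2 := a2 G n m c hV f h K hKc hd
    refine hE (emb_bip T P hP Gᶜ (univ \ (K ∪ I.image f)) K ?_ ?_ ?_ ?_)
    · rw [disjoint_left]
      intro z hz hzK
      exact (mem_sdiff.1 hz).2 (mem_union_left _ hzK)
    · intro z hz k hk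
      have hz2 := (mem_sdiff.1 hz).2
      rw [SimpleGraph.compl_adj]
      refine ⟨?_, hnK z (fun h => hz2 (mem_union_left _ h)) (fun h => hz2 (mem_union_right _ h))
        k hk⟩
      rintro rfl
      exact hz2 (mem_union_left _ hk)
    · rw [card_sdiff_of_subset (subset_univ _), card_univ]
      have h3 := card_union_le K (I.image f)
      rw [hcA] at h3
      omega
    · rw [hPc]
      omega
  · -- many neighbours on the cycle
    refine hE (emb_cj T P hP Gᶜ (I.image fun i => f ((i + 1) % c)) K ?_ ?_ ?_ ?_ ?_)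
    · rw [disjoint_left]
      intro x hx hxK
      exact hKn x hxK (hA'v x hx)
    · intro x hx y hy hxy
      obtain ⟨i, hi, rfl⟩ := mem_image.1 hx
      obtain ⟨j, hj, rfl⟩ := mem_image.1 hy
      obtain ⟨hi1, hi2⟩ := (hI i).1 hi
      obtain ⟨hj1, hj2⟩ := (hI j).1 hj
      have hij : i ≠ j := by
        rintro rfl
        exact hxy rfl
      rw [SimpleGraph.compl_adj]
      exact ⟨hxy, b2 G n m c f h K hKc hd i j hi1 hj1 hij hi2 hj2
        (b1 G n m c hV f h K hKc hd w hwK hw i hi1 hi2)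
        (b1 G n m c hV f h K hKc hd w hwK hw j hj1 hj2)⟩
    · intro x hx k hk
      obtain ⟨i, hi, rfl⟩ := mem_image.1 hx
      obtain ⟨hi1, hi2⟩ := (hI i).1 hi
      rw [SimpleGraph.compl_adj]
      refine ⟨?_, fun hadj => a1 G n m c f h K hKc hd i hi1 hi2 ⟨k, hk, hadj⟩⟩
      intro he
      have h5 := hA'v _ hx
      rw [he] at h5
      exact hKn k hk h5
    · rw [hcA']
      exact hge
    · rw [hcA', hW]
      omega

end Pool.Agent.Lib.MP_0e31aa_co.HH
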