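import Pool.Agent.Lib.MP_0e31aa_co.HH.Defs
import Pool.Agent.Lib.MP_0e31aa_co.H.Exact

/-!
Module Panc (40 min): `l` a path from `a` to `b`, `a ~ b`, `a` and `b` hubs without common neighbour
outside `l`: all cycles `C_3, ..., C_|l|`. It is `exact_cyc` (H/Exact.lean) for `f i = l[i]`: each of the
`2n - 1 - |l|` vertices outside `l` is adjacent to at most one of `a`, `b`, so together they have
at least `2n - (2n - 1 - |l|) = |l| + 1` neighbours in `l`. (`|l| ≥ 3` if the conclusion is not void.)
See H/Consec.lean for the same argument.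
-/

set_option autoImplicit false

namespace Pool.Agent.Lib.MP_0e31aa_co.HH

open Finset
open Pool.Agent.Lib.MP_0e31aa_co.TC (nb mem_nb Emb HasCyc Bip Pth)
open Pool.Agent.Lib.MP_0e31aa_co.H (dg big mem_big inner mem_inner FPath FCyc dg_compl)

variable {V W : Type}

theorem panc [Fintype V] [DecidableEq V] (G : SimpleGraph V) (n : ℕ)
    (hV : Fintype.card V + 1 = 2 * n) (a b : V) (l : List V) (h : PL G a b l) (hab : G.Adj a b)
    (ha : a ∈ big G n) (hb : b ∈ big G n) (hz : ∀ z, G.Adj a z → G.Adj b z → z ∈ l) :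
    ∀ k, 3 ≤ k → k ≤ l.length → HasCyc G k := by
  classical
  intro k hk3 hkl
  obtain ⟨c, hcdef⟩ : ∃ c, c = l.length := ⟨_, rfl⟩
  have hc : 3 ≤ c := by omega
  obtain ⟨f, hfdef⟩ : ∃ f : ℕ → V, f = fun i => l.getD i a := ⟨_, rfl⟩
  have hfi : ∀ i, ∀ hi : i < l.length, f i = l[i] := by
    intro i hi
    rw [hfdef]
    simp only [List.getD_eq_getElem?_getD, List.getElem?_eq_getElem hi, Option.getD_some]
  have hf0 : f 0 = a := by
    have h1 := h.head
    rw [List.head?_eq_getElem?, List.getElem?_eq_getElem (by omega)] at h1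
    rw [hfi 0 (by omega)]
    simpa using h1
  have hfc : f (c - 1) = b := by
    have h1 := h.last
    rw [List.getLast?_eq_getElem?, List.getElem?_eq_getElem (by omega)] at h1
    rw [hfi (c - 1) (by omega)]
    simp only [hcdef]
    simpa using h1
  have hf : FCyc G c f := by
    refine ⟨⟨fun i hi j hj hij => ?_, fun i hi => ?_⟩, ?_⟩
    · rw [hfi i (by omega), hfi j (by omega)] at hij
      exact (List.Nodup.getElem_inj_iff h.nodup).1 hij
    · rw [hfi i (by omega), hfi (i + 1) (by omega)]
      exact List.isChain_iff_getElem.1 h.chain i (by omega)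
    · rw [hf0, hfc]
      exact hab.symm
  obtain ⟨P, hP⟩ : ∃ P : Finset V, P = (range c).image f := ⟨_, rfl⟩
  have hmemP : ∀ v, v ∈ P ↔ ∃ i < c, f i = v := by
    intro v
    rw [hP, mem_image]
    simp only [mem_range]
  have hinj : Set.InjOn f (range c : Finset ℕ) := fun i hi j hj hij =>
    hf.inj i (mem_range.1 (mem_coe.1 hi)) j (mem_range.1 (mem_coe.1 hj)) hij
  have hcard : P.card = c := by
    rw [hP, card_image_of_injOn hinj, card_range]
  have hsub : ∀ v : V, (nb G v P).card = ((range c).filter fun j => G.Adj v (f j)).card := by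
    intro v
    have h1 : nb G v P = ((range c).filter fun j => G.Adj v (f j)).image f := by
      ext u
      rw [mem_nb, hmemP, mem_image]
      constructor
      · rintro ⟨⟨i, hi, rfl⟩, hu⟩
        exact ⟨i, mem_filter.2 ⟨mem_range.2 hi, hu⟩, rfl⟩
      · rintro ⟨i, hi, rfl⟩
        rw [mem_filter, mem_range] at hi
        exact ⟨⟨i, hi.1, rfl⟩, hi.2⟩
    rw [h1, card_image_of_injOn]
    exact hinj.mono (coe_subset.2 (filter_subset _ _))
  have hdeg : ∀ v : V, dg G v = (nb G v P).card + (nb G v Pᶜ).card := by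
    intro v
    unfold dg
    rw [← card_union_of_disjoint]
    · congr 1
      ext u
      rw [mem_union, mem_nb, mem_nb, mem_nb, mem_compl]
      by_cases hu : u ∈ P
      · simp [hu]
      · simp [hu]
    · rw [disjoint_left]
      intro u hu hu'
      rw [mem_nb] at hu hu'
      exact (mem_compl.1 hu'.1) hu.1
  have hno : ∀ w, w ∉ P → G.Adj (f 0) w → G.Adj (f (c - 1)) w → False := by
    intro w hw h0 h1
    rw [hf0] at h0
    rw [hfc] at h1
    obtain ⟨i, hi, hiw⟩ := List.mem_iff_getElem.1 (hz w h0 h1)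
    exact hw ((hmemP w).2 ⟨i, by omega, by rw [hfi i hi]; exact hiw⟩)
  have hout : (nb G (f 0) Pᶜ).card + (nb G (f (c - 1)) Pᶜ).card ≤ Pᶜ.card := by
    rw [← card_union_of_disjoint]
    · refine card_le_card ?_
      intro u hu
      rcases mem_union.1 hu with hu | hu
      · exact (mem_nb.1 hu).1
      · exact (mem_nb.1 hu).1
    · rw [disjoint_left]
      intro u hu hu'
      rw [mem_nb] at hu hu'
      exact hno u (mem_compl.1 hu.1) hu.2 hu'.2
  rw [card_compl, hcard] at hout
  have hcV : c ≤ Fintype.card V := by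
    rw [← hcard, ← card_univ]
    exact card_le_card (subset_univ P)
  have hda : n ≤ dg G (f 0) := by rw [hf0]; exact mem_big.1 ha
  have hdb : n ≤ dg G (f (c - 1)) := by rw [hfc]; exact mem_big.1 hb
  rw [hdeg, hsub] at hda hdb
  refine H.exact_cyc G c hc f hf ?_ k hk3 (by omega)
  have h5 : ∀ v : V, (@Finset.filter ℕ (fun j => G.Adj v (f j))
      (fun j => Classical.propDecidable _) (range c)).card =
      ((range c).filter fun j => G.Adj v (f j)).card := by
    intro v
    congr 1
  omega

end Pool.Agent.Lib.MP_0e31aa_co.HH
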