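import Pool.Agent.Lib.MP_0e31aa_co.HH.Tight
import Pool.Agent.Lib.MP_0e31aa_co.HH.Panc
import Pool.Agent.Lib.MP_0e31aa_co.H.FC

/-!
Module MaxEx (75 min): existence of the cycle `MaxC` (`m` odd, no `C_m`, at least `(m+1)/2` hubs, `u ~ v` hubs).

`S` = a set of `(m+1)/2 ≥ 3` hubs containing `u`, `v`: `tight` and the edge `u v` give a cycle on at most `m`,
hence at most `m - 1` vertices containing `S`. So there are `c`, `f` with `FCyc G c f`, `3 ≤ c`, `c + 1 ≤ m`,
`m + 1 ≤ 2 |vs ∩ L|`; take `c` maximal. `noext`: let `i` be good, `x = f i`, `y = f (i+1)`, `E` a path from `y` to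
`x` containing all `vs`, `|E| > c`. If `z` outside `vs` is a common neighbour of `x` and `y`, replacing the edge
`x y` by `x z y` gives a cycle on `c + 1 ≤ m` vertices: `C_m`, or it contradicts the maximality. So all
common neighbours of `x` and `y` are in `vs`, hence in `E`. `E` closed by `x y` is a cycle containing `vs`: if
`|E| ≤ m - 1` it contradicts the maximality, if `|E| = m` it is a `C_m`, if `|E| > m` `panc` gives `C_m`.
(List to function: `f i = l[i]`, see H/FC.lean `fcyc_of_hasCyc`; here the vertex set must be kept.)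
-/

set_option autoImplicit false

namespace Pool.Agent.Lib.MP_0e31aa_co.HH

open Finset
open Pool.Agent.Lib.MP_0e31aa_co.TC (nb mem_nb Emb HasCyc Bip Pth)
open Pool.Agent.Lib.MP_0e31aa_co.H (dg big mem_big inner mem_inner FPath FCyc dg_compl)

variable {V W : Type}

/-- From a closed list to a function, with the same vertex set. -/
private theorem maxEx_fc [DecidableEq V] {G : SimpleGraph V} {a b : V} {l : List V}
    (h : PL G a b l) (hab : G.Adj b a) :
    ∃ f : ℕ → V, FCyc G l.length f ∧ vs l.length f = l.toFinset := by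
  have hlen : 0 < l.length := List.length_pos_iff.2 h.ne
  set f : ℕ → V := fun i => l.getD i a with hf
  have hfi : ∀ i (hi : i < l.length), f i = l[i] := by
    intro i hi
    simp only [hf]
    rw [List.getD_eq_getElem _ _ hi]
  have hchain := List.isChain_iff_getElem.1 h.chain
  refine ⟨f, ⟨⟨?_, ?_⟩, ?_⟩, ?_⟩
  · intro i hi j hj hij
    rw [hfi i hi, hfi j hj] at hij
    exact (List.Nodup.getElem_inj_iff h.nodup).1 hij
  · intro i hi
    rw [hfi i (by omega), hfi (i + 1) hi]
    exact hchain i hi
  · have h0 : f 0 = a := by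
      rw [hfi 0 hlen]
      have h1 := h.head
      rw [List.head?_eq_getElem?, List.getElem?_eq_getElem hlen] at h1
      exact Option.some.inj h1
    have h1 : f (l.length - 1) = b := by
      rw [hfi _ (by omega)]
      have h1 := h.last
      rw [List.getLast?_eq_getElem?, List.getElem?_eq_getElem (by omega)] at h1
      exact Option.some.inj h1
    rw [h0, h1]
    exact hab
  · ext x
    rw [mem_vs, List.mem_toFinset]
    constructor
    · rintro ⟨i, hi, rfl⟩
      rw [hfi i hi]
      exact List.getElem_mem _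
    · intro hx
      obtain ⟨i, hi, hix⟩ := List.getElem_of_mem hx
      exact ⟨i, hi, by rw [hfi i hi, hix]⟩

theorem maxEx [Fintype V] [DecidableEq V] (G : SimpleGraph V) (n m : ℕ)
    (hV : Fintype.card V + 1 = 2 * n) (hodd : Odd m) (hm : 5 ≤ m) (hC : ¬ HasCyc G m) (u v : V)
    (hu : u ∈ big G n) (hv : v ∈ big G n) (huv : G.Adj u v)
    (hl : m + 1 ≤ 2 * (big G n).card) : ∃ c : ℕ, ∃ f : ℕ → V, MaxC G n m c f := by
  classical
  obtain ⟨k, hk⟩ := hodd
  have hne : u ≠ v := huv.ne
  set Q : ℕ → Prop := fun c => ∃ f : ℕ → V, FCyc G c f ∧ 3 ≤ c ∧ c + 1 ≤ m ∧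
    m + 1 ≤ 2 * (vs c f ∩ big G n).card with hQ
  -- existence
  obtain ⟨S, hS1, hS2, hS3⟩ : ∃ S : Finset V, {u, v} ⊆ S ∧ S ⊆ big G n ∧ S.card = k + 1 := by
    apply exists_subsuperset_card_eq
    · intro x hx
      rw [mem_insert, mem_singleton] at hx
      rcases hx with rfl | rfl
      · exact hu
      · exact hv
    · have := card_le_two (a := u) (b := v)
      omega
    · omega
  have huS : u ∈ S := hS1 (by simp)
  have hvS : v ∈ S := hS1 (by simp)
  obtain ⟨l0, hl0, hl0h, hl0l⟩ := tight G n hV S hS2 u v huS hvS hne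
  have hl0m : l0.length ≤ m - 1 := by
    have h1 : l0.length ≠ m := by
      intro h
      apply hC
      rw [← h]
      exact hl0.cyc huv
    omega
  have hSl : S ⊆ l0.toFinset := fun x hx => List.mem_toFinset.2 (hl0h x hx)
  have hl0c : S.card ≤ l0.length := by
    have h1 := card_le_card hSl
    rw [List.toFinset_card_of_nodup hl0.nodup] at h1
    exact h1
  have hQ0 : Q l0.length := by
    obtain ⟨f, hf1, hf2⟩ := maxEx_fc hl0 huv
    refine ⟨f, hf1, by omega, by omega, ?_⟩
    have h1 : S ⊆ vs l0.length f ∩ big G n := by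
      intro x hx
      rw [mem_inter, hf2]
      exact ⟨hSl hx, hS2 hx⟩
    have h2 := card_le_card h1
    omega
  have hspec : Q (Nat.findGreatest Q (m - 1)) := Nat.findGreatest_spec hl0m hQ0
  set c := Nat.findGreatest Q (m - 1) with hc
  have hmax : ∀ c', Q c' → c' ≤ c := by
    intro c' h
    have h' := h
    obtain ⟨f', h1, h2, h3, h4⟩ := h'
    exact Nat.le_findGreatest (by omega) h
  obtain ⟨f, hf, hc3, hcm, hfh⟩ := hspec
  refine ⟨c, f, hf, hc3, hcm, hfh, ?_⟩
  intro i hi hg E hE hEv
  by_contra hlong
  rw [not_le] at hlong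
  have hxy : G.Adj (f i) (f ((i + 1) % c)) := by
    have h1 := H.FCyc.fc_step (by omega) hf i
    rwa [Nat.mod_eq_of_lt hi] at h1
  -- no common neighbour outside
  have hz : ∀ z, G.Adj (f ((i + 1) % c)) z → G.Adj (f i) z → z ∈ E := by
    intro z hz1 hz2
    apply hEv
    by_contra hzv
    obtain ⟨g, hg1, hg2, hg3, hg4⟩ := H.FCyc.move (by omega) hf i hi
    have hzg : ∀ j < c, g j ≠ z := by
      intro j hj h
      exact hzv (mem_vs.2 ((hg4 z).1 ⟨j, hj, h⟩))
    set g' : ℕ → V := fun j => if j < c then g j else z with hg'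
    have e1 : ∀ j, j < c → g' j = g j := fun j hj => by
      simp only [hg']
      rw [if_pos hj]
    have e2 : g' c = z := by
      simp only [hg']
      rw [if_neg (lt_irrefl c)]
    have hg'c : FCyc G (c + 1) g' := by
      refine ⟨⟨?_, ?_⟩, ?_⟩
      · intro a ha b hb hab
        rcases Nat.lt_succ_iff_lt_or_eq.1 ha with ha' | rfl
        · rcases Nat.lt_succ_iff_lt_or_eq.1 hb with hb' | rfl
          · rw [e1 a ha', e1 b hb'] at hab
            exact hg1.inj a ha' b hb' hab
          · rw [e1 a ha', e2] at hab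
            exact absurd hab (hzg a ha')
        · rcases Nat.lt_succ_iff_lt_or_eq.1 hb with hb' | rfl
          · rw [e1 b hb', e2] at hab
            exact absurd hab.symm (hzg b hb')
          · rfl
      · intro a ha
        rcases Nat.lt_succ_iff_lt_or_eq.1 ha with ha' | ha'
        · rw [e1 a (by omega), e1 (a + 1) ha']
          exact hg1.adj a ha'
        · rw [ha', e2, e1 a (by omega)]
          have : a = c - 1 := by omega
          rw [this, hg2]
          exact hz2
      · show G.Adj (g' (c + 1 - 1)) (g' 0)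
        rw [Nat.add_sub_cancel, e2, e1 0 (by omega), hg3]
        exact hz1.symm
    by_cases hcm' : c + 1 = m
    · apply hC
      rw [← hcm']
      exact H.hasCyc_of_fcyc (by omega) hg'c
    · have hQ' : Q (c + 1) := by
        refine ⟨g', hg'c, by omega, by omega, ?_⟩
        have h1 : vs c f ∩ big G n ⊆ vs (c + 1) g' ∩ big G n := by
          intro x hx
          rw [mem_inter] at hx ⊢
          refine ⟨?_, hx.2⟩
          obtain ⟨j, hj, hjx⟩ := (hg4 x).2 (mem_vs.1 hx.1)
          exact mem_vs.2 ⟨j, by omega, by rw [e1 j hj, hjx]⟩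
        have h2 := card_le_card h1
        omega
      have := hmax _ hQ'
      omega
  have hEm : E.length ≠ m := by
    intro h
    apply hC
    rw [← h]
    exact hE.cyc hxy
  by_cases hEl : E.length ≤ m - 1
  · have hQ' : Q E.length := by
      obtain ⟨f', hf1, hf2⟩ := maxEx_fc hE hxy
      refine ⟨f', hf1, by omega, by omega, ?_⟩
      have h1 : vs c f ∩ big G n ⊆ vs E.length f' ∩ big G n := by
        intro x hx
        rw [mem_inter] at hx ⊢
        refine ⟨?_, hx.2⟩
        rw [hf2, List.mem_toFinset]
        exact hEv x hx.1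
      have h2 := card_le_card h1
      omega
    have := hmax _ hQ'
    omega
  · exact hC (panc G n hV _ _ E hE hxy.symm hg.2 hg.1 hz m (by omega) (by omega))

end Pool.Agent.Lib.MP_0e31aa_co.HH
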