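import Pool.Agent.Lib.MP_0e31aa_co.HH.Tight
import Pool.Agent.Lib.MP_0e31aa_co.HH.Panc
import Pool.Agent.Lib.MP_0e31aa_co.H.EmbF

/-!
Module Sec1 (75 min): at most `(m+1)/2` hubs imply at most `p + 1` hubs (`T` not red, no blue `C_m`).

`L = big G n`, `l = |L|`, `u ~ v` hubs. Suppose `l ≥ p + 2`. By `tight` (with `S = L`) there is a path from `v`
to `u` through all hubs on at most `2 l - 1 ≤ m` vertices, and not exactly `m` (`PL.cyc`). Let `M` be a
path from `v` to `u` through all hubs, `|M| ≤ m - 1`, `|M|` maximal.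
(*) There is no path `M'` from `v` to `u` with `M ⊆ M'`, `|M| < |M'| ≤ |M| + 2`: if `|M'| ≤ m - 1` it contradicts the
choice, if `|M'| = m` it gives `C_m`; otherwise `|M| = m - 1`, `|M'| = m + 1`; a common neighbour `z` of `u`, `v`
outside `M` gives the cycle `M + z` on `m` vertices; if there is none outside `M`, there is none outside
`M'` and `panc` gives `C_m`.
`Y` = set of the vertices `M_i` with `M_(i+1)` a hub, `|Y| = l - 1 ≥ p + 1`. A vertex `w` outside `M` has at most
one neighbour in `Y`: if `w ~ M_i, M_j`, `i < j`, then with `alpha = M_0..M_i, w, M_j, M_(j-1), .., M_(i+1)` (ends at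
the hub `M_(i+1)`) and `beta = M_(j+1)..` (starts at a hub) `repair` gives a path from `v` to `u` containing `M` and
`w` on at most `|M| + 2` vertices, against (*).
`F` = vertices outside `M` (no hubs, so red degree `≥ n - 1`), `|F| = 2n - 1 - |M| ≥ 2n - m ≥ p`. `emb_F`
(H/EmbF.lean) with `R = Gᶜ`, `U = Y` embeds `T`.
-/

set_option autoImplicit false

namespace Pool.Agent.Lib.MP_0e31aa_co.HH

open Finset
open Pool.Agent.Lib.MP_0e31aa_co.TC (nb mem_nb Emb HasCyc Bip Pth)
open Pool.Agent.Lib.MP_0e31aa_co.H (dg big mem_big inner mem_inner FPath FCyc dg_compl)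

variable {V W : Type}

private theorem sec1_take {G : SimpleGraph V} {a b : V} {M : List V} (h : PL G a b M) (i : ℕ)
    (hi : i < M.length) : PL G a M[i] (M.take (i + 1)) := by
  refine ⟨h.chain.take _, ?_, ?_, ?_⟩
  · exact h.nodup.sublist (List.take_sublist _ _)
  · have := h.head
    cases M with
    | nil => simp at this
    | cons x xs => simpa using this
  · rw [List.take_succ_eq_append_getElem hi, List.getLast?_concat]

private theorem sec1_drop {G : SimpleGraph V} {a b : V} {M : List V} (h : PL G a b M) (i : ℕ)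
    (hi : i < M.length) : PL G M[i] b (M.drop i) := by
  refine ⟨h.chain.drop _, ?_, ?_, ?_⟩
  · exact h.nodup.sublist (List.drop_sublist _ _)
  · rw [List.drop_eq_getElem_cons hi]; rfl
  · have hne : M.drop i ≠ [] := by
      intro h0
      rw [List.drop_eq_nil_iff] at h0
      omega
    have h1 := h.last
    rw [← List.take_append_drop i M, List.getLast?_append] at h1
    rw [List.getLast?_eq_getLast_of_ne_nil hne] at h1 ⊢
    simpa using h1

/-- The path with `w` inserted. -/
private theorem sec1_ins [Fintype V] [DecidableEq V] (G : SimpleGraph V) (n : ℕ)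
    (hV : Fintype.card V + 1 = 2 * n) (u v : V) (M : List V) (hM : PL G v u M) (w : V)
    (hw : w ∉ M) (i j : ℕ) (hij : i < j) (hj : j + 1 < M.length)
    (hi1 : M[i + 1] ∈ big G n) (hj1 : M[j + 1] ∈ big G n)
    (hwi : G.Adj w M[i]) (hwj : G.Adj w M[j]) :
    ∃ M' : List V, PL G v u M' ∧ (∀ x ∈ M, x ∈ M') ∧ M.length < M'.length ∧
      M'.length ≤ M.length + 2 := by
  have hA : PL G v M[i] (M.take (i + 1)) := sec1_take hM i (by omega)
  have hC : PL G M[j + 1] u (M.drop (j + 1)) := sec1_drop hM (j + 1) hj
  have hM1 : PL G v M[j] (M.take (j + 1)) := sec1_take hM j (by omega)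
  have hlen1 : (M.take (j + 1)).length = j + 1 := by
    rw [List.length_take]; omega
  have hB : PL G (M.take (j + 1))[i + 1] M[j] ((M.take (j + 1)).drop (i + 1)) :=
    sec1_drop hM1 (i + 1) (by omega)
  rw [List.getElem_take] at hB
  set A := M.take (i + 1) with hAd
  set B := (M.take (j + 1)).drop (i + 1) with hBd
  set C := M.drop (j + 1) with hCd
  have hAB : A ++ B = M.take (j + 1) := by
    have h1 : (M.take (j + 1)).take (i + 1) = A := by
      rw [List.take_take, hAd]
      congr 1
      omega
    rw [← h1]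
    exact List.take_append_drop _ _
  have hABC : (A ++ B) ++ C = M := by
    rw [hAB]
    exact List.take_append_drop _ _
  have hperm : List.Perm ((A ++ ([w] ++ B.reverse)) ++ C) (w :: M) := by
    rw [← hABC]
    have h1 : List.Perm (A ++ ([w] ++ B.reverse)) (w :: (A ++ B)) := by
      have h2 : List.Perm (A ++ ([w] ++ B.reverse)) (A ++ (w :: B)) :=
        List.Perm.append_left A (List.Perm.cons w (List.reverse_perm B))
      exact h2.trans List.perm_middle
    exact h1.append_right C
  have hnd : (w :: M).Nodup := List.nodup_cons.2 ⟨hw, hM.nodup⟩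
  have hnd1 : ((A ++ ([w] ++ B.reverse)) ++ C).Nodup := hperm.nodup_iff.2 hnd
  have hnd2 : (A ++ ([w] ++ B.reverse)).Nodup := hnd1.of_append_left
  have hnd3 : ([w] ++ B.reverse).Nodup := hnd2.of_append_right
  have hα : PL G v M[i + 1] (A ++ ([w] ++ B.reverse)) :=
    hA.append ((PL.single G w).append hB.symm hwj hnd3) hwi.symm hnd2
  obtain ⟨l, hl1, hl2, hl3⟩ := repair G n hV v u M[i + 1] M[j + 1] _ _ hα hC hnd1 hi1 hj1
  have hmem : ∀ x ∈ w :: M, x ∈ l := fun x hx => hl2 x (hperm.mem_iff.2 hx)
  refine ⟨l, hl1, fun x hx => hmem x (List.mem_cons_of_mem _ hx), ?_, ?_⟩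
  · have hsub := (List.subperm_of_subset hnd hmem).length_le
    rw [List.length_cons] at hsub
    omega
  · have h1 := hperm.length_eq
    rw [List.length_append, List.length_cons] at h1
    omega

theorem sec1 [Fintype V] [DecidableEq V] [Fintype W] [DecidableEq W] (G : SimpleGraph V)
    (n m : ℕ) (hn : 3 ≤ n) (hm : 3 ≤ m) (hV : Fintype.card V + 1 = 2 * n)
    (hW : Fintype.card W = n) (T : SimpleGraph W) (hT : T.IsTree) (P : Finset W) (hP : Bip T P)
    (hmp : m + P.card ≤ 2 * n) (hE : ¬ Emb T Gᶜ) (hC : ¬ HasCyc G m) (u v : V)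
    (hu : u ∈ big G n) (hv : v ∈ big G n) (huv : G.Adj u v)
    (hl : 2 * (big G n).card ≤ m + 1) : (big G n).card ≤ P.card + 1 := by
  by_contra hcon
  have hne : u ≠ v := huv.ne
  obtain ⟨l0, hl0, hl0h, hl0l⟩ := tight G n hV (big G n) (Subset.refl _) u v hu hv hne
  have hl0m : l0.length ≤ m - 1 := by
    have h1 : l0.length ≠ m := by
      intro h
      apply hC
      rw [← h]
      exact hl0.cyc huv
    omega
  -- a longest path
  classical
  set Q : ℕ → Prop := fun k => ∃ M : List V, PL G v u M ∧ (∀ x ∈ big G n, x ∈ M) ∧ M.length = k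
    with hQ
  have hQ0 : Q l0.length := ⟨l0, hl0, hl0h, rfl⟩
  have hspec : Q (Nat.findGreatest Q (m - 1)) := Nat.findGreatest_spec hl0m hQ0
  have hle : Nat.findGreatest Q (m - 1) ≤ m - 1 := Nat.findGreatest_le _
  obtain ⟨M, hM, hMh, hMl⟩ := hspec
  have hMm : M.length ≤ m - 1 := by rw [hMl]; exact hle
  have hmax : ∀ M' : List V, PL G v u M' → (∀ x ∈ big G n, x ∈ M') → M'.length ≤ m - 1 →
      M'.length ≤ M.length := by
    intro M' h1 h2 h3
    rw [hMl]
    exact Nat.le_findGreatest h3 ⟨M', h1, h2, rfl⟩
  -- (*)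
  have hstar : ∀ M' : List V, PL G v u M' → (∀ x ∈ M, x ∈ M') → M.length < M'.length →
      M'.length ≤ M.length + 2 → False := by
    intro M' h1 h2 h3 h4
    have h5 : ¬ M'.length ≤ m - 1 := by
      intro h
      have := hmax M' h1 (fun x hx => h2 x (hMh x hx)) h
      omega
    have h6 : M'.length ≠ m := by
      intro h
      apply hC
      rw [← h]
      exact h1.cyc huv
    have h7 : M.length + 1 = m := by omega
    have hz : ∀ z, G.Adj v z → G.Adj u z → z ∈ M := by
      intro z hz1 hz2
      by_contra hzM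
      apply hC
      have hnd : (M ++ [z]).Nodup := by
        rw [List.nodup_append]
        refine ⟨hM.nodup, List.nodup_singleton z, ?_⟩
        intro a ha b hb
        rw [List.mem_singleton] at hb
        rintro rfl
        exact hzM (hb ▸ ha)
      have hp : PL G v z (M ++ [z]) := hM.append (PL.single G z) hz2 hnd
      have := hp.cyc hz1.symm
      rw [List.length_append, List.length_singleton, h7] at this
      exact this
    exact hC (panc G n hV v u M' h1 huv.symm hv hu (fun z hz1 hz2 => h2 z (hz z hz1 hz2)) m hm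
      (by omega))
  -- the set `Y`
  set f : ℕ → V := fun i => M.getD i v with hf
  have hfi : ∀ i (h : i < M.length), f i = M[i] := by
    intro i h
    simp only [hf]
    rw [List.getD_eq_getElem _ _ h]
  have hinj : ∀ i < M.length, ∀ j < M.length, f i = f j → i = j := by
    intro i hi j hj hij
    rw [hfi i hi, hfi j hj] at hij
    exact (List.Nodup.getElem_inj_iff hM.nodup).1 hij
  have hMne : M ≠ [] := hM.ne
  have hM0 : 0 < M.length := List.length_pos_iff.2 hMne
  have hf0 : M[0] = v := by
    have h1 := hM.head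
    rw [List.head?_eq_getElem?, List.getElem?_eq_getElem hM0] at h1
    exact Option.some.inj h1
  set I : Finset ℕ := (range (M.length - 1)).filter fun i => f (i + 1) ∈ big G n with hI
  set Y : Finset V := I.image f with hY
  have hYc : P.card + 1 ≤ Y.card := by
    have h1 : Y.card = I.card := by
      apply card_image_of_injOn
      intro i hi j hj hij
      rw [mem_coe, hI, mem_filter, mem_range] at hi hj
      exact hinj i (by omega) j (by omega) hij
    have h2 : (big G n).erase v ⊆ I.image fun i => f (i + 1) := by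
      intro x hx
      rw [mem_erase] at hx
      obtain ⟨k, hk, hkx⟩ := List.getElem_of_mem (hMh x hx.2)
      have hk0 : k ≠ 0 := by
        rintro rfl
        exact hx.1 (by rw [← hkx, hf0])
      obtain ⟨i, rfl⟩ : ∃ i, k = i + 1 := ⟨k - 1, by omega⟩
      rw [mem_image]
      refine ⟨i, ?_, ?_⟩
      · rw [hI, mem_filter, mem_range]
        refine ⟨by omega, ?_⟩
        rw [hfi _ hk, hkx]
        exact hx.2
      · rw [hfi _ hk, hkx]
    have h3 := card_le_card h2
    have h4 : (I.image fun i => f (i + 1)).card ≤ I.card := card_image_le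
    rw [card_erase_of_mem hv] at h3
    omega
  have hYM : ∀ y ∈ Y, y ∈ M := by
    intro y hy
    rw [hY, mem_image] at hy
    obtain ⟨i, hi, rfl⟩ := hy
    rw [hI, mem_filter, mem_range] at hi
    rw [hfi i (by omega)]
    exact List.getElem_mem _
  have hone : ∀ w, w ∉ M → (nb G w Y).card ≤ 1 := by
    intro w hw
    by_contra h2
    rw [not_le, one_lt_card] at h2
    obtain ⟨y1, hy1, y2, hy2, h12⟩ := h2
    rw [mem_nb, hY, mem_image] at hy1 hy2
    obtain ⟨⟨i, hi, rfl⟩, hw1⟩ := hy1
    obtain ⟨⟨j, hj, rfl⟩, hw2⟩ := hy2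
    rw [hI, mem_filter, mem_range] at hi hj
    have key : ∀ i j : ℕ, i < j → (i < M.length - 1 ∧ f (i + 1) ∈ big G n) →
        (j < M.length - 1 ∧ f (j + 1) ∈ big G n) → G.Adj w (f i) → G.Adj w (f j) → False := by
      intro i j hij hi hj hwi hwj
      rw [hfi _ (by omega)] at hi hwi
      rw [hfi _ (by omega)] at hj hwj
      obtain ⟨M', a1, a2, a3, a4⟩ := sec1_ins G n hV u v M hM w hw i j hij (by omega) hi.2 hj.2
        hwi hwj
      exact hstar M' a1 a2 a3 a4
    rcases lt_trichotomy i j with h | h | h
    · exact key i j h hi hj hw1 hw2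
    · exact h12 (by rw [h])
    · exact key j i h hj hi hw2 hw1
  -- the embedding
  apply hE
  set F : Finset V := (M.toFinset)ᶜ with hF
  have hFc : F.card + M.length = Fintype.card V := by
    have h1 : M.toFinset.card = M.length := List.toFinset_card_of_nodup hM.nodup
    rw [← h1, hF, card_compl]
    have := card_le_univ M.toFinset
    omega
  apply H.emb_F T hT (by omega) P hP Gᶜ F Y
  · rw [disjoint_left]
    intro x hx hx'
    rw [hF, mem_compl, List.mem_toFinset] at hx
    exact hx (hYM x hx')
  · omega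
  · exact hYc
  · intro x hx
    rw [hF, mem_compl, List.mem_toFinset] at hx
    rw [compl_compl]
    exact hone x hx
  · intro x hx
    rw [hF, mem_compl, List.mem_toFinset] at hx
    have h1 : ¬ n ≤ dg G x := by
      intro h
      exact hx (hMh x (mem_big.2 h))
    have h2 := dg_compl G x
    omega

end Pool.Agent.Lib.MP_0e31aa_co.HH
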