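import Pool.Agent.Lib.MP_0e31aa_co.HH.Greedy1
import Pool.Agent.Lib.MP_0e31aa_co.HH.Greedy2
import Pool.Agent.Lib.MP_0e31aa_co.HH.Sec1
import Pool.Agent.Lib.MP_0e31aa_co.HH.MaxEx
import Pool.Agent.Lib.MP_0e31aa_co.HH.HubsIn
import Pool.Agent.Lib.MP_0e31aa_co.HH.CaseC
import Pool.Agent.Lib.MP_0e31aa_co.HH.CaseD
import Pool.Agent.Lib.MP_0e31aa_co.H.Main

/-!
Module Main: THEOREM H64 and its consequences (proved over the other modules).
-/

set_option autoImplicit false

namespace Pool.Agent.Lib.MP_0e31aa_co.HH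

open Finset
open Pool.Agent.Lib.MP_0e31aa_co.TC (nb mem_nb Emb HasCyc Bip Pth)
open Pool.Agent.Lib.MP_0e31aa_co.H (dg big mem_big inner mem_inner FPath FCyc dg_compl)

variable {V W : Type}

/-- THEOREM H64: few hubs suffice. -/
theorem few_hubs [Fintype V] [DecidableEq V] [Fintype W] [DecidableEq W] (G : SimpleGraph V)
    (n m : ℕ) (hn : 3 ≤ n) (hodd : Odd m) (hm : 5 ≤ m) (hV : Fintype.card V + 1 = 2 * n)
    (hW : Fintype.card W = n) (T : SimpleGraph W) (hT : T.IsTree) (P : Finset W) (hP : Bip T P)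
    (hP2 : 2 * P.card ≤ n) (hmp : m + P.card ≤ 2 * n) (hE : ¬ Emb T Gᶜ) (hC : ¬ HasCyc G m) :
    2 * (big G n).card + 1 ≤ m ∧ (big G n).card ≤ P.card + 1 := by
  obtain ⟨u, hu, v, hv, huv⟩ := blue_edge G n (by omega) hV hW T hT hE
  have h1 : ¬ m + 1 ≤ 2 * (big G n).card := by
    intro hl
    obtain ⟨c, f, h⟩ := maxEx G n m hV hodd hm hC u v hu hv huv hl
    have hin := hubs_in G n m c hn hV hW T hT P hP hP2 hE f h
    by_cases hmP : 2 * P.card + 1 ≤ m
    · exact caseC G n m c hn hodd hV hW T hT P hP hP2 hmp hE f h hin hmP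
    · have h2 : m ≠ 2 * P.card := by
        rintro rfl
        rw [← Nat.not_even_iff_odd] at hodd
        exact hodd (even_two_mul _)
      exact caseD G n m c hn hV hW T hT P hP hP2 hE f h hin (by omega)
  obtain ⟨k, hk⟩ := hodd
  refine ⟨by omega, ?_⟩
  exact sec1 G n m hn (by omega) hV hW T hT P hP hmp hE hC u v hu hv huv (by omega)

theorem main_fam2 (m n : ℕ) (hodd : Odd m) (hm : 5 ≤ m) (hmn : 2 * m ≤ 3 * n + 1)
    (T : SimpleGraph (Fin n)) (hT : T.IsTree)
    (h : (∃ P : Finset (Fin n), Bip T P ∧ P.card + (inner T).card ≤ n) ∨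
      m + 2 * (inner T).card ≤ 2 * n + 3)
    (B : SimpleGraph (Fin (2 * n - 1))) : HasCyc B m ∨ Emb T Bᶜ := by
  have hn : 3 ≤ n := by omega
  have hW : Fintype.card (Fin n) = n := Fintype.card_fin n
  have hV : Fintype.card (Fin (2 * n - 1)) + 1 = 2 * n := by rw [Fintype.card_fin]; omega
  by_contra hcon
  rw [not_or] at hcon
  obtain ⟨hC, hE⟩ := hcon
  have hlow := hubs_lower B n hn hV hW T hT hE
  rcases h with ⟨P, hP, h⟩ | h
  · have hPc : Bip T Pᶜ := by
      intro u v huv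
      rw [mem_compl, mem_compl, hP u v huv]
    have hcc : (Pᶜ).card + P.card = n := by
      rw [card_compl, hW]
      have := card_le_univ P
      rw [hW] at this
      omega
    by_cases hc : 2 * P.card ≤ n
    · have := few_hubs B n m hn hodd hm hV hW T hT P hP hc (by omega) hE hC
      omega
    · have := few_hubs B n m hn hodd hm hV hW T hT Pᶜ hPc (by omega) (by omega) hE hC
      omega
  · obtain ⟨P, hP, hP2⟩ := TC.tree_bip T hT
    rw [hW] at hP2
    have := few_hubs B n m hn hodd hm hV hW T hT P hP hP2 (by omega) hE hC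
    omega

end Pool.Agent.Lib.MP_0e31aa_co.HH
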