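import Pool.Agent.Lib.MP_0e31aa_co.HH.Defs

/-!
Module MissL (30 min): the number of missing links.
-/

set_option autoImplicit false

namespace Pool.Agent.Lib.MP_0e31aa_co.HH

open Finset
open Pool.Agent.Lib.MP_0e31aa_co.TC (nb mem_nb Emb HasCyc Bip Pth)
open Pool.Agent.Lib.MP_0e31aa_co.H (dg big mem_big inner mem_inner FPath FCyc dg_compl)

variable {V W : Type}

open Classical in
private noncomputable def MissL_lk (G : SimpleGraph V) : Option V → Option V → ℕ
  | some x, some y => if G.Adj x y then 0 else 1
  | _, _ => 0

private theorem MissL_cons (G : SimpleGraph V) (x : V) (l : List V) :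
    miss G (x :: l) = MissL_lk G (some x) l.head? + miss G l := by
  cases l with
  | nil => simp [miss, MissL_lk]
  | cons y t => simp [miss, MissL_lk]

private theorem MissL_app (G : SimpleGraph V) (l1 l2 : List V) :
    miss G (l1 ++ l2) = miss G l1 + miss G l2 + MissL_lk G l1.getLast? l2.head? := by
  induction l1 with
  | nil => simp [miss, MissL_lk]
  | cons x t ih =>
    cases t with
    | nil =>
      have h : miss G [x] = 0 := by simp [miss]
      rw [List.cons_append, List.nil_append, MissL_cons, h]
      show MissL_lk G (some x) l2.head? + miss G l2 = 0 + miss G l2 + MissL_lk G (some x) l2.head?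
      omega
    | cons y s =>
      rw [List.cons_append, MissL_cons, MissL_cons G x (y :: s), ih, List.getLast?_cons_cons]
      have h : ((y :: s) ++ l2).head? = (y :: s).head? := rfl
      rw [h]
      omega

private theorem MissL_symm (G : SimpleGraph V) (a b : Option V) :
    MissL_lk G a b = MissL_lk G b a := by
  cases a with
  | none => cases b <;> rfl
  | some x =>
    cases b with
    | none => rfl
    | some y =>
      simp only [MissL_lk]
      by_cases h : G.Adj x y
      · rw [if_pos h, if_pos h.symm]
      · rw [if_neg h, if_neg (fun h' => h h'.symm)]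

theorem miss_append (G : SimpleGraph V) (l1 l2 : List V) (x y : V) (h1 : l1.getLast? = some x)
    (h2 : l2.head? = some y) (h : G.Adj x y) :
    miss G (l1 ++ l2) = miss G l1 + miss G l2 := by
  rw [MissL_app, h1, h2]
  simp [MissL_lk, h]

theorem miss_append_not (G : SimpleGraph V) (l1 l2 : List V) (x y : V)
    (h1 : l1.getLast? = some x) (h2 : l2.head? = some y) (h : ¬ G.Adj x y) :
    miss G (l1 ++ l2) = miss G l1 + miss G l2 + 1 := by
  rw [MissL_app, h1, h2]
  simp [MissL_lk, h]

theorem miss_append_le (G : SimpleGraph V) (l1 l2 : List V) :
    miss G l1 + miss G l2 ≤ miss G (l1 ++ l2) := by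
  rw [MissL_app]
  exact Nat.le_add_right _ _

theorem miss_reverse (G : SimpleGraph V) (l : List V) : miss G l.reverse = miss G l := by
  induction l with
  | nil => rfl
  | cons x t ih =>
    have h : miss G [x] = 0 := by simp [miss]
    rw [List.reverse_cons, MissL_app, ih, h, List.getLast?_reverse, MissL_cons G x t,
      MissL_symm G t.head?]
    show miss G t + 0 + MissL_lk G (some x) t.head? = _
    omega

theorem miss_eq_zero (G : SimpleGraph V) (l : List V) : miss G l = 0 ↔ l.IsChain G.Adj := by
  induction l with
  | nil => simp [miss]
  | cons x t ih =>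
    rw [MissL_cons]
    cases t with
    | nil => simp [miss, MissL_lk]
    | cons y s =>
      rw [List.isChain_cons_cons, ← ih]
      simp only [List.head?_cons, MissL_lk]
      by_cases h : G.Adj x y
      · rw [if_pos h]
        simp [h]
      · rw [if_neg h]
        simp [h]

theorem miss_le (G : SimpleGraph V) (l : List V) : miss G l ≤ l.length - 1 := by
  induction l with
  | nil => simp [miss]
  | cons x t ih =>
    rw [MissL_cons]
    cases t with
    | nil => simp [miss, MissL_lk]
    | cons y s =>
      simp only [List.head?_cons, MissL_lk, List.length_cons] at ih ⊢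
      by_cases h : G.Adj x y
      · rw [if_pos h]
        omega
      · rw [if_neg h]
        omega

/-- A missing link. -/
theorem exists_miss (G : SimpleGraph V) (l : List V) (h : 0 < miss G l) :
    ∃ l1 l2 : List V, ∃ x y : V, l = l1 ++ l2 ∧ l1.getLast? = some x ∧ l2.head? = some y ∧
      ¬ G.Adj x y := by
  induction l with
  | nil => simp [miss] at h
  | cons x t ih =>
    rw [MissL_cons] at h
    cases t with
    | nil => simp [miss, MissL_lk] at h
    | cons y s =>
      by_cases hxy : G.Adj x y
      · have h1 : 0 < miss G (y :: s) := by
          simpa [MissL_lk, hxy] using h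
        obtain ⟨l1, l2, a, b, h2, h3, h4, h5⟩ := ih h1
        refine ⟨x :: l1, l2, a, b, by rw [h2]; rfl, ?_, h4, h5⟩
        cases l1 with
        | nil => simp at h3
        | cons c r => rw [List.getLast?_cons_cons]; exact h3
      · exact ⟨[x], y :: s, x, y, rfl, rfl, rfl, hxy⟩

end Pool.Agent.Lib.MP_0e31aa_co.HH
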