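import Pool.Agent.Lib.MP_0e31aa_co.HH.Repair

/-!
Module Tight (45 min): a path through all vertices of a set `S` of hubs, from `v` to `u`, on at most
`2 |S| - 1` vertices. Start with the list `v, (the other elements of S), u` (`LG` holds since all are
hubs, `miss ≤ |S| - 1` by `miss_le`) and apply `repairM` until `miss = 0`: each application adds at most
one vertex and lowers `miss` by at least one; so `length + miss` never grows.
-/

set_option autoImplicit false

namespace Pool.Agent.Lib.MP_0e31aa_co.HH

open Finset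
open Pool.Agent.Lib.MP_0e31aa_co.TC (nb mem_nb Emb HasCyc Bip Pth)
open Pool.Agent.Lib.MP_0e31aa_co.H (dg big mem_big inner mem_inner FPath FCyc dg_compl)

variable {V W : Type}

private lemma tight_iter [Fintype V] [DecidableEq V] (G : SimpleGraph V) (n : ℕ)
    (hV : Fintype.card V + 1 = 2 * n) (k : ℕ) :
    ∀ M : List V, M.Nodup → LG G n M → miss G M ≤ k →
      ∃ M' : List V, M'.Nodup ∧ miss G M' = 0 ∧ M'.length ≤ M.length + k ∧
      (∀ v ∈ M, v ∈ M') ∧ M'.head? = M.head? ∧ M'.getLast? = M.getLast? := by
  induction k with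
  | zero =>
    intro M hM _ hm
    exact ⟨M, hM, by omega, by omega, fun v hv => hv, rfl, rfl⟩
  | succ k ih =>
    intro M hM hL hm
    rcases Nat.eq_zero_or_pos (miss G M) with h0 | h0
    · exact ⟨M, hM, h0, by omega, fun v hv => hv, rfl, rfl⟩
    · obtain ⟨M1, h1, h2, h3, h4, h5, h6, h7⟩ := repairM G n hV M hM hL h0
      obtain ⟨M2, g1, g2, g3, g4, g5, g6⟩ := ih M1 h1 h2 (by omega)
      exact ⟨M2, g1, g2, by omega, fun v hv => g4 v (h5 v hv), g5.trans h6, g6.trans h7⟩

theorem tight [Fintype V] [DecidableEq V] (G : SimpleGraph V) (n : ℕ)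
    (hV : Fintype.card V + 1 = 2 * n) (S : Finset V) (hS : S ⊆ big G n) (u v : V) (hu : u ∈ S)
    (hv : v ∈ S) (huv : u ≠ v) :
    ∃ l : List V, PL G v u l ∧ (∀ x ∈ S, x ∈ l) ∧ l.length + 1 ≤ 2 * S.card := by
  classical
  set S' : Finset V := (S.erase v).erase u with hS'
  set M : List V := v :: (S'.toList ++ [u]) with hM
  have huv' : u ∈ S.erase v := Finset.mem_erase.mpr ⟨huv, hu⟩
  have hcard : S'.card + 2 = S.card := by
    rw [hS', Finset.card_erase_of_mem huv', Finset.card_erase_of_mem hv]
    have h1 : 0 < (S.erase v).card := Finset.card_pos.mpr ⟨u, huv'⟩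
    rw [Finset.card_erase_of_mem hv] at h1
    omega
  have hlen : M.length = S.card := by
    rw [hM, List.length_cons, List.length_append, Finset.length_toList, List.length_singleton]
    omega
  have hmem : ∀ x, x ∈ M ↔ x ∈ S := by
    intro x
    rw [hM, List.mem_cons, List.mem_append, Finset.mem_toList, List.mem_singleton, hS',
      Finset.mem_erase, Finset.mem_erase]
    constructor
    · rintro (h | h | h)
      · rw [h]
        exact hv
      · exact h.2.2
      · rw [h]
        exact hu
    · intro h
      by_cases h1 : x = v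
      · exact Or.inl h1
      · by_cases h2 : x = u
        · exact Or.inr (Or.inr h2)
        · exact Or.inr (Or.inl ⟨h2, h1, h⟩)
  have hnd : M.Nodup := by
    rw [hM, List.nodup_cons, List.nodup_append]
    refine ⟨?_, S'.nodup_toList, List.nodup_singleton u, ?_⟩
    · rw [List.mem_append, Finset.mem_toList, List.mem_singleton, hS', Finset.mem_erase,
        Finset.mem_erase]
      rintro (h | h)
      · exact h.2.1 rfl
      · exact huv h.symm
    · intro a ha b hb hab
      rw [Finset.mem_toList, hS', Finset.mem_erase] at ha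
      rw [List.mem_singleton] at hb
      exact ha.1 (hab.trans hb)
  have hLG : LG G n M := by
    unfold LG
    apply List.Pairwise.isChain
    apply List.pairwise_of_forall_mem_list
    intro a ha b hb
    exact Or.inr ⟨hS ((hmem a).mp ha), hS ((hmem b).mp hb)⟩
  obtain ⟨l, h1, h2, h3, h4, h5, h6⟩ := tight_iter G n hV (S.card - 1) M hnd hLG (by
    have := miss_le G M
    omega)
  refine ⟨l, ⟨(miss_eq_zero G l).mp h2, h1, ?_, ?_⟩, fun x hx => h4 x ((hmem x).mpr hx), ?_⟩
  · rw [h5, hM]
    rfl
  · rw [h6, hM, List.getLast?_cons, List.getLast?_append]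
    rfl
  · have : 0 < S.card := Finset.card_pos.mpr ⟨u, hu⟩
    omega

end Pool.Agent.Lib.MP_0e31aa_co.HH
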