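import Pool.Agent.Lib.MP_0e31aa_co.HH.Cut
import Pool.Agent.Lib.MP_0e31aa_co.HH.Good
import Pool.Agent.Lib.MP_0e31aa_co.HH.Repair

/-!
Module TwoY: a vertex `w` outside the cycle adjacent to `f i` and `f j`, `i ≠ j`, where `f (i+1)` and
`f (j+1)` are hubs: every good index is `i` or `j`. Let `g ≠ i, j` be good: `cut3`; by symmetry `D1` from
`f (i+1)` to `f g`, `D2` from `f (g+1)` to `f j`, `D3` from `f (j+1)` to `f i`: `repair` with
`l1 = D2 ++ [w] ++ reverse D3` (from `f (g+1)`, ends at the hub `f (j+1)`) and `l2 = D1` (starts at the hub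
`f (i+1)`) gives a path from `f (g+1)` to `f g` containing `vs` and `w`: against `noext`.
-/

set_option autoImplicit false

namespace Pool.Agent.Lib.MP_0e31aa_co.HH

open Finset
open Pool.Agent.Lib.MP_0e31aa_co.TC (nb mem_nb Emb HasCyc Bip Pth)
open Pool.Agent.Lib.MP_0e31aa_co.H (dg big mem_big inner mem_inner FPath FCyc dg_compl)

variable {V W : Type}

private theorem twoY_aux [Fintype V] [DecidableEq V] (G : SimpleGraph V) (n m c : ℕ)
    (hV : Fintype.card V + 1 = 2 * n) (f : ℕ → V) (h : MaxC G n m c f) (w : V)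
    (hw : w ∉ vs c f) (i j g : ℕ) (hg : g < c) (hgd : Gd G n c f g)
    (h1 : G.Adj w (f i)) (h2 : G.Adj w (f j)) (h3 : f ((i + 1) % c) ∈ big G n)
    (h4 : f ((j + 1) % c) ∈ big G n)
    (D1 D2 D3 : List V) (hD1 : PL G (f ((i + 1) % c)) (f g) D1)
    (hD2 : PL G (f ((g + 1) % c)) (f j) D2) (hD3 : PL G (f ((j + 1) % c)) (f i) D3)
    (hnd : (D1 ++ D2 ++ D3).Nodup) (hmem : ∀ v, v ∈ D1 ++ D2 ++ D3 ↔ v ∈ vs c f) : False := by
  have hwD : w ∉ D1 ++ D2 ++ D3 := fun hh => hw ((hmem w).1 hh)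
  have hw' : w ∉ D1 ∧ w ∉ D2 ∧ w ∉ D3 := by
    simp only [List.mem_append, not_or] at hwD
    exact ⟨hwD.1.1, hwD.1.2, hwD.2⟩
  have hbig : (D2 ++ [w] ++ D3.reverse ++ D1).Nodup := by
    have hp : (w :: (D1 ++ D2 ++ D3)).Perm (D2 ++ [w] ++ D3.reverse ++ D1) := by
      rw [List.perm_iff_count]
      intro a
      simp only [List.count_append, List.count_cons, List.count_nil, List.count_reverse]
      omega
    exact hp.nodup_iff.1 (List.nodup_cons.2 ⟨hwD, hnd⟩)
  have hb1 : (D2 ++ [w] ++ D3.reverse).Nodup := (List.nodup_append.1 hbig).1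
  have hb2 : (D2 ++ [w]).Nodup := (List.nodup_append.1 hb1).1
  have hA : PL G (f ((g + 1) % c)) w (D2 ++ [w]) := hD2.append (PL.single G w) h2.symm hb2
  have hB : PL G (f ((g + 1) % c)) (f ((j + 1) % c)) (D2 ++ [w] ++ D3.reverse) :=
    hA.append hD3.symm h1 hb1
  obtain ⟨l, hl, hlm, -⟩ := repair G n hV _ _ _ _ _ _ hB hD1 hbig h4 h3
  have hl2 := h.noext g hg hgd l hl (fun v hv => by
    apply hlm
    have := (hmem v).2 hv
    simp only [List.mem_append, List.mem_reverse, List.mem_singleton] at this ⊢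
    tauto)
  have hwl : w ∈ l := hlm w (by simp)
  have hsub : insert w (vs c f) ⊆ l.toFinset := by
    intro v hv
    rw [mem_insert] at hv
    rw [List.mem_toFinset]
    rcases hv with rfl | hv
    · exact hwl
    · apply hlm
      have := (hmem v).2 hv
      simp only [List.mem_append, List.mem_reverse, List.mem_singleton] at this ⊢
      tauto
  have hc1 := card_le_card hsub
  rw [card_insert_of_notMem hw, card_vs G n m c f h, List.toFinset_card_of_nodup hl.nodup] at hc1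
  omega

theorem twoY [Fintype V] [DecidableEq V] (G : SimpleGraph V) (n m c : ℕ)
    (hV : Fintype.card V + 1 = 2 * n) (f : ℕ → V) (h : MaxC G n m c f) (w : V)
    (hw : w ∉ vs c f) (i j : ℕ) (hi : i < c) (hj : j < c) (hij : i ≠ j)
    (h1 : G.Adj w (f i)) (h2 : G.Adj w (f j)) (h3 : f ((i + 1) % c) ∈ big G n)
    (h4 : f ((j + 1) % c) ∈ big G n) (g : ℕ) (hg : g < c) (hgd : Gd G n c f g) :
    g = i ∨ g = j := by
  by_contra hcon
  push Not at hcon
  rcases cut3 G c h.three f h.cyc i j g hi hj hg hij hcon.1 hcon.2 with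
    ⟨D1, D2, D3, a1, a2, a3, a4, a5, -⟩ | ⟨D1, D2, D3, a1, a2, a3, a4, a5, -⟩
  · exact twoY_aux G n m c hV f h w hw i j g hg hgd h1 h2 h3 h4 D1 D2 D3 a1 a2 a3 a4 a5
  · exact twoY_aux G n m c hV f h w hw j i g hg hgd h2 h1 h4 h3 D1 D2 D3 a1 a2 a3 a4 a5

end Pool.Agent.Lib.MP_0e31aa_co.HH
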